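import Pool.Agent.H883.ZQ.Fixed

set_option autoImplicit false
set_option linter.unusedSectionVars false

/-!
# Points whose logarithms are nearly given by fixed vectors: the theorem
-/

namespace Pool.Agent.H883.ZQ

open Real NumberField Height Module Finset
open Pool.Agent.H489ZP

variable {I : Type} [Fintype I] [DecidableEq I]

/-- the functionals of a pattern -/
noncomputable def Phi {d : ℕ} (ξ : I × Bool → Fin d → ℝ) (w : Finset I × (I → Fin 3)) :
    (Fin d → ℝ) →ₗ[ℝ] (R0 w.1 → ℝ) :=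
  Matrix.mulVecLin (Matrix.of fun (r : R0 w.1) k => trx w.2 ξ r.1 k)

lemma Phi_apply {d : ℕ} (ξ : I × Bool → Fin d → ℝ) (w : Finset I × (I → Fin 3))
    (t : Fin d → ℝ) (r : R0 w.1) : Phi ξ w t r = ∑ k, trx w.2 ξ r.1 k * t k := rfl

lemma finrank_ker_Phi {d : ℕ} (ξ : I × Bool → Fin d → ℝ) (w : Finset I × (I → Fin 3)) :
    finrank ℝ (LinearMap.ker (Phi ξ w)) +
      finrank ℝ (Submodule.span ℝ (trx w.2 ξ '' (R0 w.1 : Set (I × Bool)))) = d := by
  have h1 := LinearMap.finrank_range_add_finrank_ker (Phi ξ w)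
  rw [Module.finrank_fin_fun] at h1
  have h2 : finrank ℝ (LinearMap.range (Phi ξ w)) =
      finrank ℝ (Submodule.span ℝ (trx w.2 ξ '' (R0 w.1 : Set (I × Bool)))) := by
    have h3 := Matrix.rank_eq_finrank_span_row (Matrix.of fun (r : R0 w.1) k => trx w.2 ξ r.1 k)
    have h4 : Set.range (Matrix.of fun (r : R0 w.1) k => trx w.2 ξ r.1 k).row =
        trx w.2 ξ '' (R0 w.1 : Set (I × Bool)) := by
      ext x
      constructor
      · rintro ⟨r, rfl⟩
        exact ⟨r.1, r.2, rfl⟩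
      · rintro ⟨r, hr, rfl⟩
        exact ⟨⟨r, hr⟩, rfl⟩
    rw [h4] at h3
    exact h3
  omega

/-- the values of the functionals at a point in a pattern -/
lemma Phi_le {K : Type} [Field K] {d : ℕ} {u : I → K} (hu0 : ∀ i, u i ≠ 0)
    (hu1 : ∀ i, 1 - u i ≠ 0) {ξ : I × Bool → Fin d → ℝ} {H e θ : ℝ} {t : Fin d → ℝ} (hH : 0 < H)
    (he : 0 ≤ e) {σ : K →+* ℂ} {w : Finset I × (I → Fin 3)}
    (h : ∀ r, |log ‖σ (U u r)‖ - H * ∑ k, ξ r k * t k| ≤ H * e)
    (hw : ∀ i, i ∉ w.1 → w.2 i = 0) (h1 : ∀ i ∈ w.1, log ‖σ (tr (w.2 i) (u i))‖ ≤ -1)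
    (h2 : ∀ i, i ∉ w.1 → ∀ b, |log ‖σ (U u (i, b))‖| ≤ θ * H) (hθ : 0 ≤ θ) (r : R0 w.1) :
    |Phi ξ w t r| ≤ θ + 1 / H + e := by
  rw [Phi_apply]
  obtain ⟨⟨i, b⟩, hr⟩ := r
  have hHi : 0 < 1 / H := by positivity
  let f : AbsoluteValue K ℝ :=
    { toFun := fun x => ‖σ x‖
      map_mul' := fun x y => by rw [map_mul, norm_mul]
      nonneg' := fun x => norm_nonneg _
      eq_zero' := fun x => by rw [norm_eq_zero, map_eq_zero]
      add_le' := fun x y => by rw [map_add]; exact norm_add_le _ _ }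
  have hf : ∀ x, f x = ‖σ x‖ := fun x => rfl
  have h3 := tr_log (f := f) hu0 hu1 w.2 (by positivity : 0 ≤ H * e) h (i, b)
  have key : ∀ S : ℝ, |log (f (U (fun i => tr (w.2 i) (u i)) (i, b)))| ≤ S →
      |∑ k, trx w.2 ξ (i, b) k * t k| ≤ S / (2 * H) + e := by
    intro S hS
    have h4 : |(2 * H) * ∑ k, trx w.2 ξ (i, b) k * t k| ≤ S + 2 * H * e := by
      have e1 : (2 * H) * ∑ k, trx w.2 ξ (i, b) k * t k =
          log (f (U (fun i => tr (w.2 i) (u i)) (i, b))) -
          (log (f (U (fun i => tr (w.2 i) (u i)) (i, b))) -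
            (2 * H) * ∑ k, trx w.2 ξ (i, b) k * t k) := by ring
      rw [e1]
      exact (abs_sub _ _).trans (add_le_add hS h3)
    rw [abs_mul, abs_of_pos (by positivity : 0 < 2 * H)] at h4
    have h5 : |∑ k, trx w.2 ξ (i, b) k * t k| ≤ (S + 2 * H * e) / (2 * H) := by
      rw [le_div_iff₀ (by positivity)]
      linarith
    refine h5.trans (le_of_eq ?_)
    field_simp
  by_cases hi : i ∈ w.1
  · have hb : b = true := (Finset.mem_filter.1 hr).2 hi
    subst hb
    have h4 : |log (f (U (fun i => tr (w.2 i) (u i)) (i, true)))| ≤ 1 := by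
      rw [U_true, hf, map_sub, map_one]
      have hz0 : σ (tr (w.2 i) (u i)) ≠ 0 := (map_ne_zero σ).2 (tr_ne (hu0 i) (hu1 i) _)
      have h5 := h1 i hi
      have h6 : ‖σ (tr (w.2 i) (u i))‖ ≤ 1 / 2 := by
        have h7 := (Real.log_le_iff_le_exp (norm_pos_iff.2 hz0)).1 h5
        have h9 : exp (-1) ≤ 1 / 2 := by
          rw [Real.exp_neg, one_div]
          apply inv_anti₀ (by norm_num)
          have := Real.add_one_le_exp (1 : ℝ)
          linarith
        exact h7.trans h9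
      set z := σ (tr (w.2 i) (u i)) with hz
      have h7 : 1 / 2 ≤ ‖1 - z‖ := by
        have := norm_sub_norm_le (1 : ℂ) z
        rw [norm_one] at this
        linarith
      have h8 : ‖1 - z‖ ≤ 2 := by
        have := norm_sub_le (1 : ℂ) z
        rw [norm_one] at this
        linarith
      have hl1 : Real.log 2 < 1 := by linarith [Real.log_two_lt_d9]
      rw [abs_le]
      constructor
      · have := Real.log_le_log (by norm_num) h7
        rw [one_div, Real.log_inv] at this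
        linarith
      · have := Real.log_le_log (by linarith) h8
        linarith
    have h5 := key 1 h4
    have h6 : 1 / (2 * H) ≤ 1 / H := by
      apply one_div_le_one_div_of_le hH
      linarith
    linarith
  · have h4 : |log (f (U (fun i => tr (w.2 i) (u i)) (i, b)))| ≤ θ * H := by
      have h5 : U (fun i => tr (w.2 i) (u i)) (i, b) = U u (i, b) := by
        cases b
        · rw [U_false, U_false, hw i hi, tr_zero]
        · rw [U_true, U_true, hw i hi, tr_zero]
      rw [h5]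
      exact h2 i hi b
    have h5 := key _ h4
    have h6 : θ * H / (2 * H) = θ / 2 := by field_simp
    rw [h6] at h5
    linarith

/-- **Fixed vectors.** -/
theorem fixedXi (I J : Type) [Fintype I] [DecidableEq I] [Fintype J] [DecidableEq J] {d : ℕ}
    (hd : d < Fintype.card I + Fintype.card J) (ξ : I × Bool → Fin d → ℝ)
    (ζ : J × Bool → Fin d → ℝ) {κ : ℝ} (hκ : 0 < κ) (B : ℝ) (k : ℕ) :
    ∃ (G : MvPolynomial I ℤ) (G' : MvPolynomial J ℤ) (η H0 : ℝ), G ≠ 0 ∧ G' ≠ 0 ∧ 0 < η ∧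
      ∀ (K : Type) [Field K] [NumberField K] (u : I → K) (w : J → K), (∀ i, u i ≠ 0) →
      (∀ i, 1 - u i ≠ 0) → (∀ j, w j ≠ 0) → (∀ j, 1 - w j ≠ 0) → ∀ H : ℝ, H0 ≤ H →
      ∀ (t : AbsoluteValue K ℝ → Fin d → ℝ) (err : AbsoluteValue K ℝ → ℝ), Near u ξ H t err η →
      (∀ i, logHeight₁ (u i) ≤ finrank ℚ K * H) →
      (∀ i, finrank ℚ K * (κ * H) ≤ logHeight₁ (u i)) →
      (∀ j, logHeight₁ (w j) ≤ finrank ℚ K * B) →
      ∀ P : Fin k → J × Bool → ℝ, (∀ σ : K →+* ℂ, ∃ i, ∀ r, |log ‖σ (U w r)‖ -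
        (P i r + ∑ k, ζ r k * t (InfinitePlace.mk σ).1 k)| ≤ err (InfinitePlace.mk σ).1) →
      MvPolynomial.aeval u G = 0 ∨ MvPolynomial.aeval w G' = 0 := by
  classical
  by_cases hS : ∃ S : Finset I, S.Nonempty ∧ rk ξ S ≤ S.card
  · obtain ⟨G, hG, η, H0, hη, h⟩ := caseA I ξ hS hκ
    refine ⟨G, 1, η, H0, hG, one_ne_zero, hη, ?_⟩
    intro K _ _ u w hu0 hu1 hw0 hw1 H hH0 t err hnear hH hκH hB P hP
    exact Or.inl (h K u hu0 hu1 H hH0 t err hnear hH hκH)
  have hT : ∀ T : Finset I, T.Nonempty → T.card + 1 ≤ rk ξ T := by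
    intro T hT
    by_contra hcon
    exact hS ⟨T, hT, by omega⟩
  have hJ : 0 < Fintype.card J := by
    rcases isEmpty_or_nonempty I with he | hne
    · rw [Fintype.card_eq_zero] at hd
      omega
    · have h1 := hT Finset.univ Finset.univ_nonempty
      rw [Finset.card_univ] at h1
      have h2 : rk ξ Finset.univ ≤ d := by
        refine (Submodule.finrank_le _).trans ?_
        rw [Module.finrank_fin_fun]
      omega
  -- the constants
  set q := Fintype.card I with hq
  set nP := Fintype.card (Finset I × (I → Fin 3)) with hnP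
  have hnP0 : 0 < nP := Fintype.card_pos_iff.2 ⟨(∅, fun _ => 0)⟩
  have hnPr : (0 : ℝ) < nP := by exact_mod_cast hnP0
  set m0 : ℝ := 1 / (16 * ((q + 1) * nP)) with hm0
  have hm00 : 0 < m0 := by positivity
  obtain ⟨G', δ, hG', hδ, hbd⟩ := Pool.Agent.H883.ZP.boundedG J
    (Fintype.card ((Finset I × (I → Fin 3)) × Fin k)) B
  choose C hC0 hC using fun w : Finset I × (I → Fin 3) => ker_dist (Phi ξ w)
  obtain ⟨C', hC'⟩ := exists_ge_all C
  have hC'0 : 0 ≤ C' := (hC0 (∅, fun _ => 0)).trans (hC' _)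
  set Z : ℝ := ∑ r, ∑ k, |ζ r k| with hZ
  have hZ0 : 0 ≤ Z := Finset.sum_nonneg fun _ _ => Finset.sum_nonneg fun _ _ => abs_nonneg _
  set ε0 : ℝ := δ / (4 * (Z * C' + 1)) with hε0
  have hε00 : 0 < ε0 := by positivity
  have hε01 : (Z * C' + 1) * ε0 = δ / 4 := by
    rw [hε0]
    field_simp
  obtain ⟨θ, hθ0, hθpos, hθanti, G, η, H0, hG, hη, hlev⟩ := levels ξ hT hm00 hε00 q
  refine ⟨G, G', min η (ε0 / 16), max (max 1 H0) (max (1 / ε0) (4 / θ q)), hG, hG',
    lt_min hη (by positivity), ?_⟩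
  intro K _ _ u w hu0 hu1 hw0 hw1 H hH0 t err hnear hH hκH hB P hP
  have hH1 : 1 ≤ H := ((le_max_left _ _).trans (le_max_left _ _)).trans hH0
  have hH2 : H0 ≤ H := ((le_max_right _ _).trans (le_max_left _ _)).trans hH0
  have hH3 : 1 / H ≤ ε0 := by
    have h1 : 1 / ε0 ≤ H := ((le_max_left _ _).trans (le_max_right _ _)).trans hH0
    rw [div_le_iff₀ (by linarith)]
    rw [div_le_iff₀ hε00] at h1
    linarith
  have hH4 : 4 ≤ θ q * H := by
    have h1 : 4 / θ q ≤ H := ((le_max_right _ _).trans (le_max_right _ _)).trans hH0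
    rw [div_le_iff₀ (hθpos q)] at h1
    linarith
  have hHpos : 0 < H := by linarith
  have hDpos : (0 : ℝ) < finrank ℚ K := by exact_mod_cast finrank_pos
  have hJne : Nonempty J := Fintype.card_pos_iff.1 hJ
  have herr : ∀ v : InfinitePlace K, 0 ≤ err v.1 := by
    intro v
    obtain ⟨i, hi⟩ := hP v.embedding
    have := (abs_nonneg _).trans (hi (Classical.arbitrary _))
    rwa [InfinitePlace.mk_embedding] at this
  by_cases hmain : MvPolynomial.aeval u G = 0
  · exact Or.inl hmain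
  right
  -- the exceptional embeddings
  let Bs : ℕ → Finset I × (I → Fin 3) → Finset (K →+* ℂ) := fun l w => Finset.univ.filter fun σ =>
    (∀ i ∈ w.1, log ‖σ (tr (w.2 i) (u i))‖ ≤ -(θ l / 2 * H)) ∧
      ∀ i, i ∉ w.1 → ∀ b, |log ‖σ (U u (i, b))‖| ≤ θ (l + 1) * H
  have hBs : ∀ l ≤ q, ∀ w, BadPat ξ w → ((Bs l w).card : ℝ) ≤ m0 * finrank ℚ K := by
    intro l hl w hw
    by_contra hcon
    push Not at hcon
    apply hmain
    exact hlev l hl w hw K u hu0 hu1 H hH1 hH2 t err (hnear.mono (min_le_left _ _)) hH (Bs l w)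
      hcon.le (fun σ hσ => (Finset.mem_filter.1 hσ).2)
  let Ex1 : Finset (K →+* ℂ) := Finset.univ.filter fun σ => ε0 < err (InfinitePlace.mk σ).1
  let Ex2 : Finset (K →+* ℂ) := (Finset.range (q + 1)).biUnion fun l =>
    Finset.univ.biUnion fun w => if BadPat ξ w then Bs l w else ∅
  have hEx1 : (Ex1.card : ℝ) ≤ finrank ℚ K / 16 := by
    have h1 := card_le_mult Ex1
    have h2 : ε0 * ∑ v : InfinitePlace K, (v.mult : ℝ) *
        (if ∃ σ ∈ Ex1, InfinitePlace.mk σ = v then (1 : ℝ) else 0) ≤ PS ∅ err := by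
      unfold PS
      rw [Finset.sum_empty, add_zero, Finset.mul_sum]
      apply Finset.sum_le_sum
      intro v _
      have h3 : ε0 * (if ∃ σ ∈ Ex1, InfinitePlace.mk σ = v then (1 : ℝ) else 0) ≤ err v.1 := by
        split_ifs with h
        · obtain ⟨σ, hσ, rfl⟩ := h
          rw [mul_one]
          exact (Finset.mem_filter.1 hσ).2.le
        · rw [mul_zero]
          exact herr v
      have h4 := mul_le_mul_of_nonneg_left h3 (Nat.cast_nonneg (α := ℝ) v.mult)
      linarith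
    have h3 := hnear.tot ∅
    have h4 : min η (ε0 / 16) * (finrank ℚ K : ℝ) ≤ ε0 / 16 * finrank ℚ K :=
      mul_le_mul_of_nonneg_right (min_le_right _ _) hDpos.le
    have h5 : ε0 * Ex1.card ≤ ε0 / 16 * finrank ℚ K :=
      (mul_le_mul_of_nonneg_left h1 hε00.le).trans (h2.trans (h3.trans h4))
    have h6 : ε0 * Ex1.card ≤ ε0 * (finrank ℚ K / 16) := by linarith
    exact le_of_mul_le_mul_left h6 hε00
  have hEx2 : (Ex2.card : ℝ) ≤ finrank ℚ K / 16 := by
    have h1 : (Ex2.card : ℝ) ≤ ∑ l ∈ Finset.range (q + 1), ∑ w : Finset I × (I → Fin 3),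
        ((if BadPat ξ w then Bs l w else ∅ : Finset (K →+* ℂ)).card : ℝ) := by
      have h2 : Ex2.card ≤ ∑ l ∈ Finset.range (q + 1), ∑ w : Finset I × (I → Fin 3),
          (if BadPat ξ w then Bs l w else ∅ : Finset (K →+* ℂ)).card :=
        Finset.card_biUnion_le.trans (Finset.sum_le_sum fun l _ => Finset.card_biUnion_le)
      exact_mod_cast h2
    have h2 : ∑ l ∈ Finset.range (q + 1), ∑ w : Finset I × (I → Fin 3),
        ((if BadPat ξ w then Bs l w else ∅ : Finset (K →+* ℂ)).card : ℝ) ≤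
        ∑ _l ∈ Finset.range (q + 1), ∑ _w : Finset I × (I → Fin 3), m0 * finrank ℚ K := by
      apply Finset.sum_le_sum
      intro l hl
      apply Finset.sum_le_sum
      intro w _
      split_ifs with h
      · exact hBs l (by
          rw [Finset.mem_range] at hl
          omega) w h
      · rw [Finset.card_empty, Nat.cast_zero]
        positivity
    rw [Finset.sum_const, Finset.sum_const, Finset.card_range, Finset.card_univ, nsmul_eq_mul,
      nsmul_eq_mul] at h2
    refine (h1.trans h2).trans (le_of_eq ?_)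
    rw [hm0, ← hnP]
    push_cast
    field_simp
  let Ex := Ex1 ∪ Ex2
  have hEx : 8 * Ex.card ≤ finrank ℚ K := by
    have h1 : (Ex.card : ℝ) ≤ Ex1.card + Ex2.card := by
      exact_mod_cast Finset.card_union_le _ _
    have h2 : (8 : ℝ) * Ex.card ≤ finrank ℚ K := by linarith
    exact_mod_cast h2
  -- the flats
  let Zm : (Fin d → ℝ) →ₗ[ℝ] (J × Bool → ℝ) := Matrix.mulVecLin (Matrix.of fun r k => ζ r k)
  have hZm : ∀ t r, Zm t r = ∑ k, ζ r k * t k := fun t r => rfl
  let e := (Fintype.equivFin ((Finset I × (I → Fin 3)) × Fin k)).symm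
  let Fl : Finset I × (I → Fin 3) → Submodule ℝ (J × Bool → ℝ) := fun w =>
    if q ≤ finrank ℝ (Submodule.span ℝ (trx w.2 ξ '' (R0 w.1 : Set (I × Bool)))) then
      (LinearMap.ker (Phi ξ w)).map Zm else ⊥
  have hFl : ∀ w, finrank ℝ (Fl w) < Fintype.card J := by
    intro w
    by_cases h : q ≤ finrank ℝ (Submodule.span ℝ (trx w.2 ξ '' (R0 w.1 : Set (I × Bool))))
    · have h0 : Fl w = (LinearMap.ker (Phi ξ w)).map Zm := if_pos h
      have h1 := finrank_ker_Phi ξ w
      have h2 := Submodule.finrank_map_le Zm (LinearMap.ker (Phi ξ w))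
      rw [h0]
      omega
    · have h0 : Fl w = ⊥ := if_neg h
      rw [h0, finrank_bot]
      exact hJ
  refine hbd K w hw0 hw1 hB (fun i => Fl (e i).1) (fun i => P (e i).2) (fun i => hFl _) Ex hEx ?_
  intro σ hσ
  have hσ1 : err (InfinitePlace.mk σ).1 ≤ ε0 := by
    by_contra hcon
    push Not at hcon
    exact hσ (Finset.mem_union_left _ (Finset.mem_filter.2 ⟨Finset.mem_univ _, hcon⟩))
  have hn : ∀ r, |log ‖σ (U u r)‖ - H * ∑ k, ξ r k * t (InfinitePlace.mk σ).1 k| ≤
      H * err (InfinitePlace.mk σ).1 := fun r => hnear.inf (InfinitePlace.mk σ) r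
  -- the level
  obtain ⟨l, hl, hlev2⟩ := exists_level hθanti
    (fun i => max |log ‖σ (u i)‖| |log ‖1 - σ (u i)‖| / H)
  have hθl : 4 ≤ θ l * H := hH4.trans (mul_le_mul_of_nonneg_right (hθanti hl) hHpos.le)
  have htype : ∀ i, θ l < max |log ‖σ (u i)‖| |log ‖1 - σ (u i)‖| / H →
      ∃ p : Fin 3, log ‖tr p (σ (u i))‖ ≤ -(θ l * H / 2) := by
    intro i hi
    rw [lt_div_iff₀ hHpos, lt_max_iff] at hi
    apply types ((map_ne_zero σ).2 (hu0 i)) _ (by linarith)
    · rcases hi with hi | hi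
      · exact Or.inl hi.le
      · exact Or.inr hi.le
    · rw [← map_one σ, ← map_sub]
      exact (map_ne_zero σ).2 (hu1 i)
  let Q : Finset I := Finset.univ.filter fun i =>
    θ l < max |log ‖σ (u i)‖| |log ‖1 - σ (u i)‖| / H
  let p : I → Fin 3 := fun i =>
    if h : θ l < max |log ‖σ (u i)‖| |log ‖1 - σ (u i)‖| / H then (htype i h).choose else 0
  have hp0 : ∀ i, i ∉ Q → p i = 0 := by
    intro i hi
    have : ¬ θ l < max |log ‖σ (u i)‖| |log ‖1 - σ (u i)‖| / H := fun h =>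
      hi (Finset.mem_filter.2 ⟨Finset.mem_univ _, h⟩)
    exact dif_neg this
  have hpQ : ∀ i ∈ Q, log ‖σ (tr (p i) (u i))‖ ≤ -(θ l / 2 * H) := by
    intro i hi
    have h1 := (Finset.mem_filter.1 hi).2
    have h2 : p i = (htype i h1).choose := dif_pos h1
    rw [h2, map_tr]
    refine (htype i h1).choose_spec.trans (le_of_eq ?_)
    ring
  have hpZ : ∀ i, i ∉ Q → ∀ b, |log ‖σ (U u (i, b))‖| ≤ θ (l + 1) * H := by
    intro i hi b
    have h1 : ¬ θ l < max |log ‖σ (u i)‖| |log ‖1 - σ (u i)‖| / H := fun h =>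
      hi (Finset.mem_filter.2 ⟨Finset.mem_univ _, h⟩)
    have h2 := (hlev2 i).resolve_right h1
    rw [div_le_iff₀ hHpos] at h2
    cases b
    · rw [U_false]
      exact (le_max_left _ _).trans h2
    · rw [U_true, map_sub, map_one]
      exact (le_max_right _ _).trans h2
  have hgood : q ≤ finrank ℝ (Submodule.span ℝ (trx p ξ '' (R0 Q : Set (I × Bool)))) := by
    by_contra hcon
    push Not at hcon
    apply hσ
    apply Finset.mem_union_right
    rw [Finset.mem_biUnion]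
    refine ⟨l, Finset.mem_range.2 (by omega), ?_⟩
    rw [Finset.mem_biUnion]
    refine ⟨(Q, p), Finset.mem_univ _, ?_⟩
    have hb : BadPat ξ (Q, p) := ⟨hp0, Nat.succ_le_of_lt hcon⟩
    rw [if_pos hb]
    exact Finset.mem_filter.2 ⟨Finset.mem_univ _, hpQ, hpZ⟩
  have hPhi : ∀ r, |Phi ξ (Q, p) (t (InfinitePlace.mk σ).1) r| ≤ 3 * ε0 := by
    intro r
    have h1 := Phi_le hu0 hu1 hHpos (herr (InfinitePlace.mk σ)) hn (w := (Q, p)) hp0 (fun i hi => by
      refine (hpQ i hi).trans ?_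
      linarith) hpZ (hθpos _).le r
    have h2 : θ (l + 1) ≤ ε0 := by
      rw [← hθ0]
      exact hθanti (Nat.zero_le _)
    linarith
  obtain ⟨t', ht'1, ht'2⟩ := hC (Q, p) _ _ hPhi
  obtain ⟨i0, hi0⟩ := hP σ
  refine ⟨e.symm ((Q, p), i0), Zm t', ?_, fun r => ?_⟩
  · rw [Equiv.apply_symm_apply]
    have h0 : Fl (Q, p) = (LinearMap.ker (Phi ξ (Q, p))).map Zm := if_pos hgood
    show _ ∈ Fl (Q, p)
    rw [h0]
    exact Submodule.mem_map_of_mem ht'1
  · rw [Equiv.apply_symm_apply, hZm]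
    have hlc : Pool.Agent.H883.ZP.lc w σ r = log ‖σ (U w r)‖ := by
      obtain ⟨j, b⟩ := r
      cases b
      · rfl
      · rfl
    rw [hlc]
    have h1 := hi0 r
    have h2 : |∑ k, ζ r k * t (InfinitePlace.mk σ).1 k - ∑ k, ζ r k * t' k| ≤
        Z * C' * (3 * ε0) := by
      rw [← Finset.sum_sub_distrib]
      calc |∑ k, (ζ r k * t (InfinitePlace.mk σ).1 k - ζ r k * t' k)| ≤
          ∑ k, |ζ r k * t (InfinitePlace.mk σ).1 k - ζ r k * t' k| :=
            Finset.abs_sum_le_sum_abs _ _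
        _ ≤ ∑ k, |ζ r k| * (C' * (3 * ε0)) := by
            apply Finset.sum_le_sum
            intro k _
            rw [← mul_sub, abs_mul]
            apply mul_le_mul_of_nonneg_left _ (abs_nonneg _)
            exact (ht'2 k).trans (mul_le_mul_of_nonneg_right (hC' _) (by positivity))
        _ = (∑ k, |ζ r k|) * (C' * (3 * ε0)) := by rw [Finset.sum_mul]
        _ ≤ Z * (C' * (3 * ε0)) := by
            apply mul_le_mul_of_nonneg_right _ (by positivity)
            exact Finset.single_le_sum (f := fun r => ∑ k, |ζ r k|)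
              (fun _ _ => Finset.sum_nonneg fun _ _ => abs_nonneg _) (Finset.mem_univ r)
        _ = _ := by ring
    have h3 : log ‖σ (U w r)‖ - (P i0 r + ∑ k, ζ r k * t' k) =
        (log ‖σ (U w r)‖ - (P i0 r + ∑ k, ζ r k * t (InfinitePlace.mk σ).1 k)) +
        (∑ k, ζ r k * t (InfinitePlace.mk σ).1 k - ∑ k, ζ r k * t' k) := by ring
    rw [h3]
    refine (abs_add_le _ _).trans ?_
    have h4 : 0 ≤ Z * C' * ε0 := by positivity
    linarith

end Pool.Agent.H883.ZQ
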