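import Pool.Agent.H883.ZQ.LC

set_option autoImplicit false
set_option linter.unusedSectionVars false

/-!
# Bad patterns
-/

namespace Pool.Agent.H883.ZQ

open Real NumberField Height Module Finset
open Pool.Agent.H489ZP

variable {I : Type} [Fintype I] [DecidableEq I]

section

variable {K : Type} [Field K] [NumberField K]

/-- comparison of sums over all places, with a gain at some infinite places -/
lemma PS_le_gain (T : Finset (FinitePlace K)) (φ ψ : AbsoluteValue K ℝ → ℝ) (E : ℝ)
    (g : InfinitePlace K → ℝ)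
    (h1 : ∀ v : InfinitePlace K, φ v.1 ≤ ψ v.1 + E - g v) (h2 : ∀ v : FinitePlace K, φ v.1 ≤ ψ v.1) :
    PS T φ ≤ PS T ψ + finrank ℚ K * E - ∑ v : InfinitePlace K, (v.mult : ℝ) * g v := by
  unfold PS
  have a1 : ∑ v : InfinitePlace K, (v.mult : ℝ) * φ v.1 ≤
      ∑ v : InfinitePlace K, ((v.mult : ℝ) * ψ v.1 + v.mult * E - v.mult * g v) :=
    Finset.sum_le_sum fun v _ => by
      rw [← mul_add, ← mul_sub]
      exact mul_le_mul_of_nonneg_left (h1 v) (Nat.cast_nonneg _)
  have a2 : ∑ v ∈ T, φ v.1 ≤ ∑ v ∈ T, ψ v.1 := Finset.sum_le_sum fun v _ => h2 v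
  have a3 : ∑ v : InfinitePlace K, (v.mult : ℝ) * E = finrank ℚ K * E := by
    rw [← Finset.sum_mul, ← InfinitePlace.sum_mult_eq]
    push_cast
    rfl
  rw [Finset.sum_sub_distrib, Finset.sum_add_distrib, a3] at a1
  linarith

/-- the number of embeddings in a set, in terms of places -/
lemma card_le_mult (S : Finset (K →+* ℂ)) :
    (S.card : ℝ) ≤ ∑ v : InfinitePlace K, (v.mult : ℝ) *
      (open Classical in if ∃ σ ∈ S, InfinitePlace.mk σ = v then (1 : ℝ) else 0) := by
  classical
  have h1 : S.card = ∑ v : InfinitePlace K, (S.filter fun σ => InfinitePlace.mk σ = v).card :=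
    Finset.card_eq_sum_card_fiberwise fun σ _ => Finset.mem_univ _
  rw [h1, Nat.cast_sum]
  apply Finset.sum_le_sum
  intro v _
  split_ifs with h
  · rw [mul_one]
    have h2 : (S.filter fun σ => InfinitePlace.mk σ = v).card ≤
        (Finset.univ.filter fun σ : K →+* ℂ => InfinitePlace.mk σ = v).card :=
      Finset.card_le_card (Finset.filter_subset_filter _ (Finset.subset_univ _))
    have h3 := InfinitePlace.card_filter_mk_eq v
    rw [h3] at h2
    exact_mod_cast h2
  · rw [mul_zero]
    have : S.filter (fun σ => InfinitePlace.mk σ = v) = ∅ := by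
      rw [Finset.filter_eq_empty_iff]
      intro σ hσ hv
      exact h ⟨σ, hσ, hv⟩
    rw [this]
    simp

end

/-- the size of a polynomial all of whose monomials are small -/
lemma abv_poly_le {K : Type} [Field K] (f : AbsoluteValue K ℝ) (F : MvPolynomial I ℤ) (u : I → K)
    {B : ℝ} (hB : ∀ α ∈ F.support, ∏ i, f (u i) ^ α i ≤ B) :
    f (MvPolynomial.aeval u F) ≤ (∑ α ∈ F.support, |((F.coeff α : ℤ) : ℝ)|) * B := by
  rw [MvPolynomial.aeval_def, MvPolynomial.eval₂_eq']
  refine (f.sum_le _ _).trans ?_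
  rw [Finset.sum_mul]
  apply Finset.sum_le_sum
  intro α hα
  rw [map_mul, map_prod, eq_intCast]
  refine mul_le_mul (arch_int_le f _) ?_ (Finset.prod_nonneg fun i _ => f.nonneg _) (abs_nonneg _)
  refine le_trans (le_of_eq ?_) (hB α hα)
  exact Finset.prod_congr rfl fun i _ => map_pow f _ _

/-- the auxiliary polynomial -/
lemma exists_aux {A : Finset I} {a : I → I × Bool → ℝ} {b : I → Bool}
    (hab : ∀ i ∈ A, ∀ k ∈ A, a i (k, b k) = if i = k then 1 else 0) {β : ℕ}
    (hβ : ∀ r, ∑ i, |a i r| ≤ β) (Q : Finset I) (hA : Qᶜ.card + 1 ≤ A.card) (d0 : ℕ)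
    (ha0 : ∀ i r, r.1 ∈ Q → r.2 = false → a i r = 0) :
    ∃ (n : ℕ) (c : (A → Fin n) → ℤ),
      (∀ (m : A → Fin n) r, |xm A a m r| ≤
        ((if r.1 ∈ Q ∧ r.2 = false then 0 else β * n : ℕ) : ℝ)) ∧
      (∑ m, c m • mo (ex A a (fun r => if r.1 ∈ Q ∧ r.2 = false then 0 else β * n) m)) ≠ 0 ∧
      ∀ α ∈ (∑ m, c m • mo (ex A a (fun r => if r.1 ∈ Q ∧ r.2 = false then 0 else β * n)
        m)).support, (∃ i ∈ Q, d0 ≤ α i) ∧ ∀ i, α i < 4 * (β * n) + 1 := by
  classical
  set q := Qᶜ.card with hq
  set n : ℕ := d0 ^ Q.card * (4 * β + 1) ^ q + 1 with hn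
  have hn0 : 0 < n := by omega
  set M : ℕ := 4 * (β * n) + 1 with hM
  have hs : ∀ (m : A → Fin n) r, |xm A a m r| ≤
      ((if r.1 ∈ Q ∧ r.2 = false then 0 else β * n : ℕ) : ℝ) := by
    intro m r
    split_ifs with h
    · have : xm A a m r = 0 := by
        unfold xm
        exact Finset.sum_eq_zero fun i _ => by rw [ha0 i r h.1 h.2, mul_zero]
      rw [this, abs_zero]
      simp
    · push_cast
      exact xm_le m (hβ r)
  set s : I × Bool → ℕ := fun r => if r.1 ∈ Q ∧ r.2 = false then 0 else β * n with hsdef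
  have hsle : ∀ r, s r ≤ β * n := by
    intro r
    rw [hsdef]
    dsimp only
    split_ifs
    · exact Nat.zero_le _
    · exact le_rfl
  let g : I → ℕ := fun i => if i ∈ Q then d0 else M
  have hcard : (bx g).card < Fintype.card (A → Fin n) := by
    refine (card_bx_le g).trans_lt ?_
    rw [Fintype.card_fun, Fintype.card_fin, Fintype.card_coe]
    have h1 : ∏ i, g i = d0 ^ Q.card * M ^ q := by
      have h2 : ∏ i, g i = (∏ i ∈ Q, g i) * ∏ i ∈ Qᶜ, g i := (Finset.prod_mul_prod_compl Q g).symm
      rw [h2]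
      congr 1
      · rw [Finset.prod_congr rfl (g := fun _ => d0) (fun i hi => if_pos hi), Finset.prod_const]
      · rw [Finset.prod_congr rfl (g := fun _ => M) (fun i hi => if_neg (Finset.mem_compl.1 hi)),
          Finset.prod_const]
    rw [h1]
    have h2 : M ≤ (4 * β + 1) * n := by
      rw [hM, add_mul, one_mul, mul_assoc]
      omega
    calc d0 ^ Q.card * M ^ q ≤ d0 ^ Q.card * ((4 * β + 1) * n) ^ q :=
          Nat.mul_le_mul_left _ (Nat.pow_le_pow_left h2 _)
      _ = (d0 ^ Q.card * (4 * β + 1) ^ q) * n ^ q := by rw [mul_pow]; ring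
      _ < n * n ^ q := Nat.mul_lt_mul_of_pos_right (by omega) (pow_pos hn0 _)
      _ = n ^ (q + 1) := by rw [pow_succ, mul_comm]
      _ ≤ n ^ A.card := Nat.pow_le_pow_right hn0 hA
  obtain ⟨c, hc0, hc⟩ := exists_comb (fun m : A → Fin n => mo (ex A a s m)) (bx g) hcard
  refine ⟨n, c, hs, ?_, ?_⟩
  · intro h0
    exact hc0 (mo_indep _ b (ex_inj hab hs) c h0)
  · intro α hα
    have hdeg : ∀ i, α i < M := fun i =>
      (MvPolynomial.monomial_le_degreeOf i hα).trans_lt (degreeOf_comb_lt _ _ (by omega) i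
        (fun m => (degreeOf_ex hsle hs m i).trans_lt (by omega)))
    refine ⟨?_, hdeg⟩
    by_contra hcon
    push Not at hcon
    refine (MvPolynomial.mem_support_iff.1 hα) (hc α (mem_bx.2 fun i => ?_))
    by_cases hi : i ∈ Q
    · show α i < if i ∈ Q then d0 else M
      rw [if_pos hi]
      exact hcon i hi
    · show α i < if i ∈ Q then d0 else M
      rw [if_neg hi]
      exact hdeg i

/-- the indices of the constraints for the pattern `Q`, all types being `0` -/
def R0 (Q : Finset I) : Finset (I × Bool) := Finset.univ.filter fun r => r.1 ∈ Q → r.2 = true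

lemma card_R0 (Q : Finset I) : (R0 Q).card = Fintype.card I + Qᶜ.card := by
  have h1 : R0 Q = Finset.univ.image (fun i : I => (i, true)) ∪ Qᶜ.image (fun i => (i, false)) := by
    ext ⟨i, b⟩
    simp only [R0, Finset.mem_filter, Finset.mem_univ, true_and, Finset.mem_union,
      Finset.mem_image, Finset.mem_compl, Prod.mk.injEq]
    cases b
    · simp
    · simp
  rw [h1, Finset.card_union_of_disjoint, Finset.card_image_of_injective, Finset.card_image_of_injective,
    Finset.card_univ]
  · intro i j h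
    simpa using h
  · intro i j h
    simpa using h
  · rw [Finset.disjoint_left]
    rintro ⟨i, b⟩ h1 h2
    simp only [Finset.mem_image, Finset.mem_univ, true_and, Prod.mk.injEq] at h1 h2
    obtain ⟨_, _, rfl⟩ := h1
    obtain ⟨_, _, _, h⟩ := h2
    cases h

/-- **Bad patterns**, all types being `0`. -/
theorem AUX (I : Type) [Fintype I] [DecidableEq I] {d : ℕ} (ξ : I × Bool → Fin d → ℝ)
    (Q : Finset I)
    (hbad : finrank ℝ (Submodule.span ℝ (ξ '' (R0 Q : Set (I × Bool)))) + 1 ≤ Fintype.card I)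
    (hT : ∀ T : Finset I, T.Nonempty → T.card + 1 ≤ rk ξ T) {θ m0 : ℝ} (hθ : 0 < θ)
    (hm0 : 0 < m0) :
    ∃ θ1 : ℝ, 0 < θ1 ∧ ∃ G : MvPolynomial I ℤ, G ≠ 0 ∧ ∃ η H0 : ℝ, 0 < η ∧
      ∀ (K : Type) [Field K] [NumberField K] (u : I → K), (∀ i, u i ≠ 0) → (∀ i, 1 - u i ≠ 0) →
      ∀ H : ℝ, H0 ≤ H → ∀ (t : AbsoluteValue K ℝ → Fin d → ℝ) (err : AbsoluteValue K ℝ → ℝ),
      Near u ξ H t err η → (∀ i, logHeight₁ (u i) ≤ finrank ℚ K * H) →
      ∀ S : Finset (K →+* ℂ), m0 * finrank ℚ K ≤ S.card →
      (∀ σ ∈ S, (∀ i ∈ Q, log ‖σ (u i)‖ ≤ -(θ * H)) ∧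
        ∀ i, i ∉ Q → ∀ b, |log ‖σ (U u (i, b))‖| ≤ θ1 * H) → MvPolynomial.aeval u G = 0 := by
  classical
  obtain ⟨b, A, a, hA, ha, hab⟩ := section_AUX ξ (R0 Q) Qᶜ.card (card_R0 Q) hbad hT
  obtain ⟨β, hβ⟩ := exists_beta a
  set N : ℝ := (Fintype.card (I × Bool) : ℝ) with hN
  have hN0 : 0 ≤ N := Nat.cast_nonneg _
  obtain ⟨d0, hd0⟩ := exists_nat_gt ((2 * (2 * N + 3)) / (θ * m0))
  have hd0' : 2 * (2 * N + 3) ≤ d0 * (θ * m0) := by
    rw [div_lt_iff₀ (by positivity)] at hd0
    exact hd0.le
  have hd0pos : 0 < d0 := by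
    have : (0 : ℝ) < d0 := lt_of_le_of_lt (by positivity) hd0
    exact_mod_cast this
  have hd0r : (0 : ℝ) < d0 := by exact_mod_cast hd0pos
  have ha0 : ∀ i r, r.1 ∈ Q → r.2 = false → a i r = 0 := by
    intro i r h1 h2
    apply (mem_relOn.1 (ha i)).2
    intro h3
    have := (Finset.mem_filter.1 h3).2 h1
    rw [h2] at this
    cases this
  obtain ⟨n, c, hs, hF0, hsupp⟩ := exists_aux hab hβ Q hA d0 ha0
  set s : I × Bool → ℕ := fun r => if r.1 ∈ Q ∧ r.2 = false then 0 else β * n with hsdef
  set F : MvPolynomial I ℤ := ∑ m, c m • mo (ex A a s m) with hF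
  set Cf : ℝ := ∑ α ∈ F.support, |((F.coeff α : ℤ) : ℝ)| with hCf
  have hCf0 : 0 ≤ Cf := Finset.sum_nonneg fun _ _ => abs_nonneg _
  set Cc : ℝ := ∑ m, |(c m : ℝ)| with hCc
  have hCc0 : 0 ≤ Cc := Finset.sum_nonneg fun _ _ => abs_nonneg _
  set X : ℝ := β * n with hX
  have hX0 : 0 ≤ X := by positivity
  set M : ℝ := 4 * X + 1 with hM
  have hM0 : 0 < M := by positivity
  set η : ℝ := 1 / (N * X + 1) with hη
  have hη0 : 0 < η := by positivity
  have hη1 : N * X * η ≤ 1 := by
    rw [hη, mul_one_div, div_le_one (by positivity)]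
    linarith
  set θ1 : ℝ := d0 * θ / (2 * (N * X + N * M + 1)) with hθ1
  have hθ10 : 0 < θ1 := by positivity
  have hθ11 : (N * X + N * M) * θ1 ≤ d0 * θ / 2 := by
    have h1 : (N * X + N * M + 1) * θ1 = d0 * θ / 2 := by
      rw [hθ1]
      field_simp
    have h2 : 0 ≤ N * X + N * M := by positivity
    linarith
  set E : ℝ := N * X + log (Cf + 1) + log (Cc + 1) with hE
  have hlf : 0 ≤ log (Cf + 1) := Real.log_nonneg (by linarith)
  have hlc : 0 ≤ log (Cc + 1) := Real.log_nonneg (by linarith)
  have hE0 : 0 ≤ E := by positivity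
  have hl0 : 0 < log 2 := Real.log_pos (by norm_num)
  have hl1 : Real.log 2 < 1 := by linarith [Real.log_two_lt_d9]
  refine ⟨θ1, hθ10, F, hF0, η, max (max 1 (1 / θ)) (2 * N + E), hη0, ?_⟩
  intro K _ _ u hu0 hu1 H hH0 t err hnear hH S hScard hS
  have hH1 : 1 ≤ H := ((le_max_left _ _).trans (le_max_left _ _)).trans hH0
  have hH2 : 2 * N + E ≤ H := (le_max_right _ _).trans hH0
  have hH3 : 1 ≤ θ * H := by
    have : 1 / θ ≤ H := ((le_max_right _ _).trans (le_max_left _ _)).trans hH0
    rw [div_le_iff₀ hθ] at this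
    linarith
  have hDpos : (0 : ℝ) < finrank ℚ K := by exact_mod_cast finrank_pos
  by_contra hz
  set z : K := MvPolynomial.aeval u F with hzdef
  obtain ⟨T, hTT⟩ := exists_T (K := K) (insert z (Finset.univ.image (U u))) (by
    intro w hw
    rw [Finset.mem_insert, Finset.mem_image] at hw
    rcases hw with rfl | ⟨r, -, rfl⟩
    · exact hz
    · exact U_ne hu0 hu1 r)
  have hTz : ∀ v : FinitePlace K, v ∉ T → v z = 1 := hTT z (Finset.mem_insert_self _ _)
  have hTU : ∀ r, ∀ v : FinitePlace K, v ∉ T → v (U u r) = 1 := fun r =>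
    hTT _ (Finset.mem_insert_of_mem (Finset.mem_image_of_mem _ (Finset.mem_univ r)))
  have harel : ∀ i, a i ∈ rel ξ := fun i => (mem_relOn.1 (ha i)).1
  have hxX : ∀ (m : A → Fin n) r, |xm A a m r| ≤ X := fun m r => xm_le m (hβ r)
  -- the bad places
  let g : InfinitePlace K → ℝ := fun v =>
    (d0 * θ / 2 * H) * (if ∃ σ ∈ S, InfinitePlace.mk σ = v then (1 : ℝ) else 0)
  have hbadv : ∀ σ ∈ S, log ((InfinitePlace.mk σ).1 z) ≤
      bd u (fun r => (s r : ℝ)) (N * X) H err (InfinitePlace.mk σ).1 + E - d0 * θ / 2 * H := by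
    intro σ hσ
    set f : AbsoluteValue K ℝ := (InfinitePlace.mk σ).1 with hf
    have hfσ : ∀ x, f x = ‖σ x‖ := fun x => rfl
    obtain ⟨hS1, hS2⟩ := hS σ hσ
    have hQ : ∀ i ∈ Q, f (u i) ≤ exp (-(θ * H)) := by
      intro i hi
      rw [hfσ, ← Real.log_le_iff_le_exp (norm_pos_iff.2 ((map_ne_zero σ).2 (hu0 i)))]
      exact hS1 i hi
    have hQ1 : ∀ i ∈ Q, f (u i) ≤ 1 := fun i hi => (hQ i hi).trans (by
      rw [← Real.exp_zero]
      exact Real.exp_le_exp.2 (by linarith))
    have hZ : ∀ i, i ∉ Q → f (u i) ≤ exp (θ1 * H) := by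
      intro i hi
      rw [hfσ, ← Real.log_le_iff_le_exp (norm_pos_iff.2 ((map_ne_zero σ).2 (hu0 i)))]
      exact (abs_le.1 (hS2 i hi false)).2
    -- the value
    have h1 : f z ≤ Cf * exp (-(d0 * θ * H) + N * M * (θ1 * H)) := by
      apply abv_poly_le f F u
      intro α hα
      obtain ⟨⟨i0, hi0, hd⟩, hα2⟩ := hsupp α hα
      have h2 : ∀ i, f (u i) ^ α i ≤
          exp ((if i = i0 then -(d0 * θ * H) else 0) + M * (θ1 * H)) := by
        intro i
        by_cases hi : i ∈ Q
        · by_cases hii : i = i0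
          · rw [if_pos hii, hii]
            calc f (u i0) ^ α i0 ≤ f (u i0) ^ d0 :=
                  pow_le_pow_of_le_one (f.nonneg _) (hQ1 i0 hi0) hd
              _ ≤ exp (-(θ * H)) ^ d0 := pow_le_pow_left₀ (f.nonneg _) (hQ i0 hi0) _
              _ = exp (d0 * (-(θ * H))) := by rw [← Real.exp_nat_mul]
              _ ≤ _ := Real.exp_le_exp.2 (by
                have : 0 ≤ M * (θ1 * H) := by positivity
                linarith)
          · rw [if_neg hii, zero_add]
            calc f (u i) ^ α i ≤ 1 := pow_le_one₀ (f.nonneg _) (hQ1 i hi)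
              _ ≤ _ := Real.one_le_exp (by positivity)
        · have hii : i ≠ i0 := fun h => hi (h ▸ hi0)
          rw [if_neg hii, zero_add]
          calc f (u i) ^ α i ≤ exp (θ1 * H) ^ α i := pow_le_pow_left₀ (f.nonneg _) (hZ i hi) _
            _ = exp (α i * (θ1 * H)) := by rw [← Real.exp_nat_mul]
            _ ≤ _ := Real.exp_le_exp.2 (by
              apply mul_le_mul_of_nonneg_right _ (by positivity)
              have h3 := hα2 i
              have h4 : (α i : ℝ) ≤ ((4 * (β * n) + 1 : ℕ) : ℝ) := by exact_mod_cast h3.le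
              push_cast at h4
              rw [hM, hX]
              linarith)
      calc ∏ i, f (u i) ^ α i ≤
          ∏ i, exp ((if i = i0 then -(d0 * θ * H) else 0) + M * (θ1 * H)) :=
            Finset.prod_le_prod (fun i _ => pow_nonneg (f.nonneg _) _) fun i _ => h2 i
        _ = exp (∑ i, ((if i = i0 then -(d0 * θ * H) else 0) + M * (θ1 * H))) := by
            rw [Real.exp_sum]
        _ ≤ _ := Real.exp_le_exp.2 (by
            rw [Finset.sum_add_distrib, Finset.sum_ite_eq' Finset.univ i0 (fun _ => -(d0 * θ * H)),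
              if_pos (Finset.mem_univ _), Finset.sum_const, Finset.card_univ, nsmul_eq_mul]
            have h5 : (Fintype.card I : ℝ) ≤ N := by
              rw [hN, Fintype.card_prod, Fintype.card_bool]
              push_cast
              have : (0 : ℝ) ≤ Fintype.card I := Nat.cast_nonneg _
              linarith
            have h6 : (Fintype.card I : ℝ) * (M * (θ1 * H)) ≤ N * (M * (θ1 * H)) :=
              mul_le_mul_of_nonneg_right h5 (by positivity)
            linarith)
    have h2 : log (f z) ≤ log (Cf + 1) + (-(d0 * θ * H) + N * M * (θ1 * H)) := by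
      have h3 : f z ≤ (Cf + 1) * exp (-(d0 * θ * H) + N * M * (θ1 * H)) :=
        h1.trans (mul_le_mul_of_nonneg_right (by linarith) (Real.exp_pos _).le)
      have h4 := Real.log_le_log (f.pos hz) h3
      rwa [Real.log_mul (by positivity) (by positivity), Real.log_exp] at h4
    -- the monomial part
    have h3 : -(N * X * (1 + θ1 * H)) ≤ ∑ r, (s r : ℝ) * log (f (U u r)) := by
      have h4 : ∀ r, -(X * (1 + θ1 * H)) ≤ (s r : ℝ) * log (f (U u r)) := by
        intro r
        by_cases hr : r.1 ∈ Q ∧ r.2 = false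
        · have : s r = 0 := if_pos hr
          rw [this, Nat.cast_zero, zero_mul]
          have : 0 ≤ X * (1 + θ1 * H) := by positivity
          linarith
        · have hsr : (s r : ℝ) = X := by
            have : s r = β * n := if_neg hr
            rw [this]
            push_cast
            rfl
          rw [hsr, ← mul_neg]
          apply mul_le_mul_of_nonneg_left _ hX0
          by_cases hrQ : r.1 ∈ Q
          · have hr2 : r.2 = true := by
              cases h : r.2
              · exact absurd ⟨hrQ, h⟩ hr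
              · rfl
            have hr3 : U u r = 1 - u r.1 := by
              unfold U
              rw [if_pos hr2]
            rw [hr3]
            have h5 : (1 / 2 : ℝ) ≤ f (1 - u r.1) := by
              have h6 : f 1 ≤ f (1 - u r.1) + f (u r.1) := by
                have := f.add_le (1 - u r.1) (u r.1)
                rwa [sub_add_cancel] at this
              rw [map_one] at h6
              have h7 : exp (-(θ * H)) ≤ 1 / 2 := by
                have h8 : exp (-(θ * H)) ≤ exp (-1) := Real.exp_le_exp.2 (by linarith)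
                have h9 : exp (-1) ≤ 1 / 2 := by
                  rw [Real.exp_neg, one_div]
                  apply inv_anti₀ (by norm_num)
                  have := Real.add_one_le_exp (1 : ℝ)
                  linarith
                exact h8.trans h9
              have h8 := hQ r.1 hrQ
              linarith
            have h6 := Real.log_le_log (by norm_num) h5
            rw [one_div, Real.log_inv] at h6
            have : 0 ≤ θ1 * H := by positivity
            linarith
          · have := (abs_le.1 (hS2 r.1 hrQ r.2)).1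
            rw [Prod.mk.eta, ← hfσ] at this
            linarith
      calc -(N * X * (1 + θ1 * H)) = ∑ _r : I × Bool, -(X * (1 + θ1 * H)) := by
            rw [Finset.sum_const, Finset.card_univ, nsmul_eq_mul]
            ring
        _ ≤ _ := Finset.sum_le_sum fun r _ => h4 r
    have h4 : 0 ≤ ∑ r, |log (f (U u r))| := Finset.sum_nonneg fun _ _ => abs_nonneg _
    have h5 : 0 ≤ N * X * (H * err f) := by
      rcases isEmpty_or_nonempty (I × Bool) with hemp | hne
      · have : N = 0 := by
          rw [hN, Fintype.card_eq_zero]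
          simp
        rw [this]
        simp
      · have := (abs_nonneg _).trans (hnear.inf (InfinitePlace.mk σ) (Classical.arbitrary _))
        exact mul_nonneg (by positivity) this
    have h6 : (N * X + N * M) * θ1 * H ≤ d0 * θ / 2 * H :=
      mul_le_mul_of_nonneg_right hθ11 (by linarith)
    have h7 : bd u (fun r => (s r : ℝ)) (N * X) H err f = ∑ r, (s r : ℝ) * log (f (U u r)) +
      ∑ r, |log (f (U u r))| + N * X * (H * err f) := rfl
    rw [h7, hE]
    linarith
  have hPS := PS_le_gain T (fun f => log (f z))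
    (fun f => bd u (fun r => (s r : ℝ)) (N * X) H err f) E g (fun v => by
      by_cases h : ∃ σ ∈ S, InfinitePlace.mk σ = v
      · obtain ⟨σ, hσ, rfl⟩ := h
        have h1 := hbadv σ hσ
        have h2 : g (InfinitePlace.mk σ) = d0 * θ / 2 * H := by
          show (d0 * θ / 2 * H) * _ = _
          rw [if_pos ⟨σ, hσ, rfl⟩, mul_one]
        rw [h2]
        exact h1
      · have h2 : g v = 0 := by
          show (d0 * θ / 2 * H) * _ = _
          rw [if_neg h, mul_zero]
        rw [h2, sub_zero]
        have hb := expo_bound (hnear.inf v) harel hs hxX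
        have h3 := arch_sum_le v.1 hu0 hu1 c _ hb
        have h4 : v.1 z ≤ (Cc + 1) * exp (bd u (fun r => (s r : ℝ)) (N * X) H err v.1) :=
          h3.trans (mul_le_mul_of_nonneg_right (by linarith) (Real.exp_pos _).le)
        have h5 := Real.log_le_log (v.1.pos hz) h4
        rw [Real.log_mul (by positivity) (by positivity), Real.log_exp] at h5
        have h6 : log (Cc + 1) ≤ E := by
          rw [hE]
          have : 0 ≤ N * X := by positivity
          linarith
        linarith) (fun v => by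
      have hna : ∀ a b, v.1 (a + b) ≤ max (v.1 a) (v.1 b) := fun a b => v.add_le a b
      have hb := expo_bound (hnear.fin v) harel hs hxX
      have h3 := fin_sum_le v.1 hna hu0 hu1 c _ hb
      have h5 := Real.log_le_log (v.1.pos hz) h3
      rwa [Real.log_exp] at h5)
  rw [PS_log hz T hTz] at hPS
  have hb := PS_bound hu0 hu1 (by linarith) hnear hH (fun r => (s r : ℝ)) (C := N * X)
    (by positivity) T hTU
  have hb' : PS T (bd u (fun r => (s r : ℝ)) (N * X) H err) ≤
      finrank ℚ K * (N * (2 * (H + 1)) + N * X * (H * η)) := hb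
  have h2 : N * X * (H * η) ≤ H := by
    have : N * X * (H * η) = (N * X * η) * H := by ring
    rw [this]
    nlinarith
  have h3 : (finrank ℚ K : ℝ) * (N * (2 * (H + 1)) + N * X * (H * η)) ≤
      finrank ℚ K * (N * (2 * (H + 1)) + H) := mul_le_mul_of_nonneg_left (by linarith) hDpos.le
  have hgain : (d0 * θ / 2 * H) * (m0 * finrank ℚ K) ≤
      ∑ v : InfinitePlace K, (v.mult : ℝ) * g v := by
    have h4 := card_le_mult S
    have h5 : ∑ v : InfinitePlace K, (v.mult : ℝ) * g v = (d0 * θ / 2 * H) *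
        ∑ v : InfinitePlace K, (v.mult : ℝ) *
          (if ∃ σ ∈ S, InfinitePlace.mk σ = v then (1 : ℝ) else 0) := by
      rw [Finset.mul_sum]
      refine Finset.sum_congr rfl fun v _ => ?_
      show (v.mult : ℝ) * ((d0 * θ / 2 * H) * _) = _
      ring
    rw [h5]
    exact mul_le_mul_of_nonneg_left (hScard.trans h4) (by positivity)
  have h4 : (2 * N + 3) * H ≤ d0 * θ / 2 * H * m0 := by
    have : d0 * θ / 2 * H * m0 = (d0 * (θ * m0)) / 2 * H := by ring
    rw [this]
    apply mul_le_mul_of_nonneg_right _ (by linarith)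
    linarith
  have h5 : (finrank ℚ K : ℝ) * ((2 * N + 3) * H) ≤ d0 * θ / 2 * H * (m0 * finrank ℚ K) := by
    have : d0 * θ / 2 * H * (m0 * finrank ℚ K) = finrank ℚ K * (d0 * θ / 2 * H * m0) := by ring
    rw [this]
    exact mul_le_mul_of_nonneg_left h4 hDpos.le
  have h6 : 0 ≤ (finrank ℚ K : ℝ) * ((N * (2 * (H + 1)) + H) - (2 * N + 3) * H + E) := by
    linarith
  have h7 : (N * (2 * (H + 1)) + H) - (2 * N + 3) * H + E < 0 := by
    linarith
  have h8 := mul_neg_of_pos_of_neg hDpos h7
  linarith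

end Pool.Agent.H883.ZQ
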