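import Pool.Agent.H883.ZQ.LC

set_option autoImplicit false
set_option linter.unusedSectionVars false

/-!
# Sets of coordinates containing a subset of small rank
-/

namespace Pool.Agent.H883.ZQ

open Real NumberField Height Module Finset
open Pool.Agent.H489ZP

variable {I : Type} [Fintype I] [DecidableEq I]

lemma Near.mono {K : Type} [Field K] [NumberField K] {d : ℕ} {u : I → K}
    {ξ : I × Bool → Fin d → ℝ} {H : ℝ} {t : AbsoluteValue K ℝ → Fin d → ℝ}
    {err : AbsoluteValue K ℝ → ℝ} {η η' : ℝ} (h : Near u ξ H t err η) (hη : η ≤ η') :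
    Near u ξ H t err η' :=
  ⟨h.inf, h.fin, fun T => (h.tot T).trans (mul_le_mul_of_nonneg_right hη (Nat.cast_nonneg _))⟩

/-- **A subset of small rank.** -/
theorem caseA (I : Type) [Fintype I] [DecidableEq I] {d : ℕ} (ξ : I × Bool → Fin d → ℝ)
    (hS : ∃ S : Finset I, S.Nonempty ∧ rk ξ S ≤ S.card) {κ : ℝ} (hκ : 0 < κ) :
    ∃ G : MvPolynomial I ℤ, G ≠ 0 ∧ ∃ η H0 : ℝ, 0 < η ∧
      ∀ (K : Type) [Field K] [NumberField K] (u : I → K), (∀ i, u i ≠ 0) → (∀ i, 1 - u i ≠ 0) →
      ∀ H : ℝ, H0 ≤ H → ∀ (t : AbsoluteValue K ℝ → Fin d → ℝ) (err : AbsoluteValue K ℝ → ℝ),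
      Near u ξ H t err η → (∀ i, logHeight₁ (u i) ≤ finrank ℚ K * H) →
      (∀ i, finrank ℚ K * (κ * H) ≤ logHeight₁ (u i)) → MvPolynomial.aeval u G = 0 := by
  classical
  obtain ⟨S0, hS0, hS0r⟩ := hS
  obtain ⟨S, hSm, hmin⟩ := Finset.exists_min_image
    (Finset.univ.filter fun S : Finset I => S.Nonempty ∧ rk ξ S ≤ S.card) Finset.card
    ⟨S0, Finset.mem_filter.2 ⟨Finset.mem_univ _, hS0, hS0r⟩⟩
  obtain ⟨hSne, hSr⟩ := (Finset.mem_filter.1 hSm).2
  let ξ' : S × Bool → Fin d → ℝ := fun r => ξ (r.1.1, r.2)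
  have hrk' : ∀ T' : Finset S, rk ξ' T' = rk ξ (T'.map (Function.Embedding.subtype _)) := by
    intro T'
    have hset : ξ' '' (ov T' : Set (S × Bool)) =
        ξ '' (ov (T'.map (Function.Embedding.subtype _)) : Set (I × Bool)) := by
      ext x
      constructor
      · rintro ⟨⟨i, b⟩, hr, rfl⟩
        rw [Finset.mem_coe, mem_ov] at hr
        refine ⟨(i.1, b), ?_, rfl⟩
        rw [Finset.mem_coe, mem_ov]
        exact Finset.mem_map_of_mem _ hr
      · rintro ⟨⟨i, b⟩, hr, rfl⟩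
        rw [Finset.mem_coe, mem_ov, Finset.mem_map] at hr
        obtain ⟨i', hi', rfl⟩ := hr
        exact ⟨(i', b), by rw [Finset.mem_coe, mem_ov]; exact hi', rfl⟩
    unfold rk
    rw [hset]
  have hne : Nonempty S := ⟨⟨_, hSne.choose_spec⟩⟩
  have hmapuniv : (Finset.univ : Finset S).map (Function.Embedding.subtype _) = S := by
    ext i
    simp
  obtain ⟨G, hG, η, H0, hη, h⟩ := LC S ξ' (by
    rw [hrk', hmapuniv, Fintype.card_coe]
    exact hSr) (by
    intro T' hT' hTu
    rw [hrk']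
    by_contra hcon
    push Not at hcon
    have h1 : (T'.map (Function.Embedding.subtype _)) ∈
        (Finset.univ.filter fun S : Finset I => S.Nonempty ∧ rk ξ S ≤ S.card) := by
      rw [Finset.mem_filter]
      refine ⟨Finset.mem_univ _, hT'.map, ?_⟩
      rw [Finset.card_map]
      omega
    have h2 := hmin _ h1
    rw [Finset.card_map] at h2
    apply hTu
    rw [← Finset.card_eq_iff_eq_univ, Fintype.card_coe]
    have h3 : T'.card ≤ Fintype.card S := Finset.card_le_univ _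
    rw [Fintype.card_coe] at h3
    omega) hκ
  refine ⟨MvPolynomial.rename Subtype.val G, ?_, η, H0, hη, ?_⟩
  · intro h0
    exact hG (MvPolynomial.rename_injective _ Subtype.val_injective (by rw [h0, map_zero]))
  · intro K _ _ u hu0 hu1 H hH0 t err hnear hH hκH
    rw [MvPolynomial.aeval_rename]
    have hU : ∀ r : S × Bool, U (u ∘ Subtype.val) r = U u (r.1.1, r.2) := fun r => rfl
    exact h K (u ∘ Subtype.val) (fun i => hu0 _) (fun i => hu1 _) H hH0 t err
      ⟨fun v r => hnear.inf v (r.1.1, r.2), fun v r => hnear.fin v (r.1.1, r.2), hnear.tot⟩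
      (fun i => hH _) (fun i => hκH _)

end Pool.Agent.H883.ZQ
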