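import Pool.Agent.H883.ZQ.Mono

set_option autoImplicit false
set_option linter.unusedSectionVars false

/-!
# Integral combinations of polynomials with few conditions on the coefficients
-/

namespace Pool.Agent.H883.ZQ

open MvPolynomial

variable {I : Type} [Fintype I] [DecidableEq I]

lemma exists_comb {κ : Type} [Fintype κ] (P : κ → MvPolynomial I ℤ) (S : Finset (I →₀ ℕ))
    (hS : S.card < Fintype.card κ) :
    ∃ c : κ → ℤ, c ≠ 0 ∧ ∀ α ∈ S, coeff α (∑ m, c m • P m) = 0 := by
  classical
  rcases S.eq_empty_or_nonempty with h | h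
  · subst h
    rw [Finset.card_empty] at hS
    obtain ⟨m⟩ := Fintype.card_pos_iff.1 hS
    exact ⟨fun _ => 1, fun h0 => one_ne_zero (congrFun h0 m), fun α hα => by simp at hα⟩
  · let A : Matrix S κ ℤ := fun α m => coeff α.1 (P m)
    obtain ⟨c, hc0, hc, -⟩ := Int.Matrix.exists_ne_zero_int_vec_norm_le A
      (by rw [Fintype.card_coe]; exact hS) (by rw [Fintype.card_coe]; exact Finset.card_pos.2 h)
    refine ⟨c, hc0, fun α hα => ?_⟩
    have := congrFun hc ⟨α, hα⟩
    rw [coeff_sum]
    rw [Matrix.mulVec, dotProduct] at this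
    rw [Pi.zero_apply] at this
    rw [← this]
    refine Finset.sum_congr rfl fun m _ => ?_
    rw [coeff_smul, smul_eq_mul, mul_comm]

/-- the exponents in a box -/
noncomputable def bx (g : I → ℕ) : Finset (I →₀ ℕ) :=
  (Fintype.piFinset fun i => Finset.range (g i)).image fs

lemma mem_bx {g : I → ℕ} {α : I →₀ ℕ} : α ∈ bx g ↔ ∀ i, α i < g i := by
  rw [bx, Finset.mem_image]
  constructor
  · rintro ⟨f, hf, rfl⟩ i
    have := Fintype.mem_piFinset.1 hf i
    exact Finset.mem_range.1 this
  · intro h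
    refine ⟨fun i => α i, ?_, ?_⟩
    · rw [Fintype.mem_piFinset]
      intro i
      exact Finset.mem_range.2 (h i)
    · ext i
      rfl

lemma card_bx_le (g : I → ℕ) : (bx g).card ≤ ∏ i, g i := by
  rw [bx]
  refine Finset.card_image_le.trans ?_
  rw [Fintype.card_piFinset]
  simp

/-- a polynomial with small degrees whose coefficients in a box vanish -/
lemma eq_zero_of_box {p : MvPolynomial I ℤ} {M : ℕ} (hdeg : ∀ i, degreeOf i p < M)
    (h : ∀ α ∈ bx (fun _ : I => M), coeff α p = 0) : p = 0 := by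
  by_contra hp
  obtain ⟨α, hα⟩ := Finset.nonempty_of_ne_empty (mt support_eq_empty.1 hp)
  refine (mem_support_iff.1 hα) (h α (mem_bx.2 fun i => ?_))
  exact (monomial_le_degreeOf i hα).trans_lt (hdeg i)

lemma degreeOf_comb_lt {κ : Type} [Fintype κ] (P : κ → MvPolynomial I ℤ) (c : κ → ℤ) {M : ℕ}
    (hM : 0 < M) (i : I) (h : ∀ m, degreeOf i (P m) < M) : degreeOf i (∑ m, c m • P m) < M := by
  refine (degreeOf_sum_le _ _ _).trans_lt ?_
  rw [Finset.sup_lt_iff (by simpa using hM)]
  intro m _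
  rw [zsmul_eq_mul]
  have : ((c m : ℤ) : MvPolynomial I ℤ) = C (c m) := by simp
  rw [this]
  exact (degreeOf_C_mul_le _ _ _).trans_lt (h m)

end Pool.Agent.H883.ZQ
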