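import Pool.Agent.H883.ZQ.Fixed2

set_option autoImplicit false
set_option linter.unusedSectionVars false

/-!
# Uniformity in the vectors
-/

namespace Pool.Agent.H883.ZQ

open Real NumberField Height Module Finset
open Pool.Agent.H489ZP

/-- the change of the vectors -/
lemma sum_change {d : ℕ} {x y t : Fin d → ℝ} {ε : ℝ} (h : ∀ k, |x k - y k| ≤ ε) :
    |∑ k, x k * t k - ∑ k, y k * t k| ≤ ε * ∑ k, |t k| := by
  rw [← Finset.sum_sub_distrib, Finset.mul_sum]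
  refine (Finset.abs_sum_le_sum_abs _ _).trans (Finset.sum_le_sum fun k _ => ?_)
  rw [← sub_mul, abs_mul]
  exact mul_le_mul_of_nonneg_right (h k) (abs_nonneg _)

/-- **Uniform version.** -/
theorem unif (I J : Type) [Fintype I] [DecidableEq I] [Fintype J] [DecidableEq J] {d : ℕ}
    (hd : d < Fintype.card I + Fintype.card J) {κ : ℝ} (hκ : 0 < κ) (B : ℝ) (k : ℕ) (A : ℝ) :
    ∃ (G : MvPolynomial I ℤ) (G' : MvPolynomial J ℤ) (η H0 : ℝ), G ≠ 0 ∧ G' ≠ 0 ∧ 0 < η ∧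
      ∀ (ξ : I × Bool → Fin d → ℝ) (ζ : J × Bool → Fin d → ℝ), (∀ r k, |ξ r k| ≤ 1) →
      (∀ r k, |ζ r k| ≤ 1) →
      ∀ (K : Type) [Field K] [NumberField K] (u : I → K) (w : J → K), (∀ i, u i ≠ 0) →
      (∀ i, 1 - u i ≠ 0) → (∀ j, w j ≠ 0) → (∀ j, 1 - w j ≠ 0) → ∀ H : ℝ, H0 ≤ H → 0 ≤ H →
      ∀ (t : AbsoluteValue K ℝ → Fin d → ℝ) (err : AbsoluteValue K ℝ → ℝ), Near u ξ H t err η →
      (∀ T : Finset (FinitePlace K), PS T (fun f => ∑ k, |t f k|) ≤ A * finrank ℚ K) →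
      (∀ i, logHeight₁ (u i) ≤ finrank ℚ K * H) →
      (∀ i, finrank ℚ K * (κ * H) ≤ logHeight₁ (u i)) →
      (∀ j, logHeight₁ (w j) ≤ finrank ℚ K * B) →
      ∀ P : Fin k → J × Bool → ℝ, (∀ σ : K →+* ℂ, ∃ i, ∀ r, |log ‖σ (U w r)‖ -
        (P i r + ∑ k, ζ r k * t (InfinitePlace.mk σ).1 k)| ≤ err (InfinitePlace.mk σ).1) →
      MvPolynomial.aeval u G = 0 ∨ MvPolynomial.aeval w G' = 0 := by
  classical
  choose G G' η H0 hG hG' hη h using
    fun x : (I × Bool → Fin d → ℝ) × (J × Bool → Fin d → ℝ) => fixedXi I J hd x.1 x.2 hκ B k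
  set A' : ℝ := max A 1 with hA'
  have hA'0 : 0 < A' := lt_of_lt_of_le one_pos (le_max_right _ _)
  have hAA' : A ≤ A' := le_max_left _ _
  let s : Set ((I × Bool → Fin d → ℝ) × (J × Bool → Fin d → ℝ)) := Set.Icc (-1) 1
  have hs : IsCompact s := isCompact_Icc
  obtain ⟨T0, -, hT0⟩ := hs.elim_nhds_subcover (fun x => Metric.ball x (η x / (2 * A')))
    (fun x _ => Metric.ball_mem_nhds x (by have := hη x; positivity))
  obtain ⟨ε, hε, hεle⟩ := exists_pos_le (fun x : T0 => η x.1 / 2)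
    (fun x => by have := hη x.1; positivity)
  obtain ⟨M, hM⟩ := exists_ge_all (fun x : T0 => H0 x.1)
  refine ⟨∏ x : T0, G x.1, ∏ x : T0, G' x.1, ε, M, Finset.prod_ne_zero_iff.2 fun x _ => hG x.1,
    Finset.prod_ne_zero_iff.2 fun x _ => hG' x.1, hε, ?_⟩
  intro ξ ζ hξ hζ K _ _ u w hu0 hu1 hw0 hw1 H hH0 hHnn t err hnear ht hH hκH hB P hP
  have hmem : (ξ, ζ) ∈ s := by
    rw [Set.mem_Icc]
    refine ⟨⟨fun r k => ?_, fun r k => ?_⟩, ⟨fun r k => ?_, fun r k => ?_⟩⟩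
    · exact (abs_le.1 (hξ r k)).1
    · exact (abs_le.1 (hζ r k)).1
    · exact (abs_le.1 (hξ r k)).2
    · exact (abs_le.1 (hζ r k)).2
  obtain ⟨x, hx, hxb⟩ := Set.mem_iUnion₂.1 (hT0 hmem)
  set x' : T0 := ⟨x, hx⟩ with hx'
  rw [Metric.mem_ball] at hxb
  set δ : ℝ := η x / (2 * A') with hδ
  have hηx := hη x
  have hδ0 : 0 < δ := by positivity
  have hξx : ∀ r k, |ξ r k - x.1 r k| ≤ δ := by
    intro r k
    have h1 : dist ξ x.1 ≤ dist (ξ, ζ) x := le_max_left _ _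
    have h2 := (dist_le_pi_dist ξ x.1 r)
    have h3 := (dist_le_pi_dist (ξ r) (x.1 r) k)
    rw [Real.dist_eq] at h3
    linarith
  have hζx : ∀ r k, |ζ r k - x.2 r k| ≤ δ := by
    intro r k
    have h1 : dist ζ x.2 ≤ dist (ξ, ζ) x := le_max_right _ _
    have h2 := (dist_le_pi_dist ζ x.2 r)
    have h3 := (dist_le_pi_dist (ζ r) (x.2 r) k)
    rw [Real.dist_eq] at h3
    linarith
  let err' : AbsoluteValue K ℝ → ℝ := fun f => err f + δ * ∑ k, |t f k|
  have hstep : ∀ (f : AbsoluteValue K ℝ) (L : ℝ) (r : I × Bool),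
      |L - H * ∑ k, ξ r k * t f k| ≤ H * err f →
      |L - H * ∑ k, x.1 r k * t f k| ≤ H * err' f := by
    intro f L r hL
    have h1 := sum_change (t := t f) (hξx r)
    have e1 : L - H * ∑ k, x.1 r k * t f k = (L - H * ∑ k, ξ r k * t f k) +
        H * (∑ k, ξ r k * t f k - ∑ k, x.1 r k * t f k) := by ring
    rw [e1]
    refine (abs_add_le _ _).trans ?_
    rw [abs_mul, abs_of_nonneg hHnn]
    have h2 : H * |∑ k, ξ r k * t f k - ∑ k, x.1 r k * t f k| ≤ H * (δ * ∑ k, |t f k|) :=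
      mul_le_mul_of_nonneg_left h1 hHnn
    show _ ≤ H * (err f + δ * ∑ k, |t f k|)
    rw [mul_add]
    linarith
  have hDpos : (0 : ℝ) < finrank ℚ K := by exact_mod_cast finrank_pos
  have hnear' : Near u x.1 H t err' (η x) := by
    refine ⟨fun v r => hstep _ _ r (hnear.inf v r), fun v r => hstep _ _ r (hnear.fin v r), ?_⟩
    intro T
    show PS T (fun f => err f + δ * ∑ k, |t f k|) ≤ _
    rw [PS_add, PS_smul]
    have h1 := hnear.tot T
    have h2 := ht T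
    have h3 : ε ≤ η x / 2 := hεle x'
    have h4 : ε * (finrank ℚ K : ℝ) ≤ η x / 2 * finrank ℚ K :=
      mul_le_mul_of_nonneg_right h3 hDpos.le
    have h5 : A * (finrank ℚ K : ℝ) ≤ A' * finrank ℚ K := mul_le_mul_of_nonneg_right hAA' hDpos.le
    have h6 : δ * PS T (fun f => ∑ k, |t f k|) ≤ δ * (A' * finrank ℚ K) :=
      mul_le_mul_of_nonneg_left (h2.trans h5) hδ0.le
    have h7 : δ * (A' * finrank ℚ K) = η x / 2 * finrank ℚ K := by
      rw [hδ]
      field_simp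
    linarith
  have := h x K u w hu0 hu1 hw0 hw1 H ((hM x').trans hH0) t err' hnear' hH hκH hB P (by
    intro σ
    obtain ⟨i, hi⟩ := hP σ
    refine ⟨i, fun r => ?_⟩
    have h1 := hi r
    have h2 := sum_change (t := t (InfinitePlace.mk σ).1) (hζx r)
    have e1 : log ‖σ (U w r)‖ - (P i r + ∑ k, x.2 r k * t (InfinitePlace.mk σ).1 k) =
        (log ‖σ (U w r)‖ - (P i r + ∑ k, ζ r k * t (InfinitePlace.mk σ).1 k)) +
        (∑ k, ζ r k * t (InfinitePlace.mk σ).1 k - ∑ k, x.2 r k * t (InfinitePlace.mk σ).1 k) := by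
      ring
    rw [e1]
    exact (abs_add_le _ _).trans (add_le_add h1 h2))
  rcases this with h1 | h1
  · left
    rw [map_prod]
    exact Finset.prod_eq_zero (Finset.mem_univ x') h1
  · right
    rw [map_prod]
    exact Finset.prod_eq_zero (Finset.mem_univ x') h1

end Pool.Agent.H883.ZQ
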