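import Pool.Agent.H883.ZQ.Lin

set_option autoImplicit false
set_option linter.unusedSectionVars false

/-!
# Real relations between families of vectors, and sections of them
-/

namespace Pool.Agent.H883.ZQ

open Module Submodule

variable {I : Type} [Fintype I] [DecidableEq I] {V : Type} [AddCommGroup V] [Module ℝ V]
  [FiniteDimensional ℝ V]

/-- the real relations between the vectors `ξ r` -/
noncomputable def rel (ξ : I × Bool → V) : Submodule ℝ (I × Bool → ℝ) :=
  LinearMap.ker (Fintype.linearCombination ℝ ξ)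

lemma mem_rel {ξ : I × Bool → V} {x : I × Bool → ℝ} : x ∈ rel ξ ↔ ∑ r, x r • ξ r = 0 := by
  rw [rel, LinearMap.mem_ker, Fintype.linearCombination_apply]

/-- the relations supported on `R0` -/
noncomputable def relOn (ξ : I × Bool → V) (R0 : Finset (I × Bool)) :
    Submodule ℝ (I × Bool → ℝ) where
  carrier := {x | x ∈ rel ξ ∧ ∀ r, r ∉ R0 → x r = 0}
  add_mem' := by
    intro x y hx hy
    exact ⟨(rel ξ).add_mem hx.1 hy.1, fun r hr => by
      rw [Pi.add_apply, hx.2 r hr, hy.2 r hr, add_zero]⟩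
  zero_mem' := ⟨(rel ξ).zero_mem, fun _ _ => rfl⟩
  smul_mem' := by
    intro c x hx
    exact ⟨(rel ξ).smul_mem c hx.1, fun r hr => by rw [Pi.smul_apply, hx.2 r hr, smul_zero]⟩

lemma mem_relOn {ξ : I × Bool → V} {R0 : Finset (I × Bool)} {x : I × Bool → ℝ} :
    x ∈ relOn ξ R0 ↔ x ∈ rel ξ ∧ ∀ r, r ∉ R0 → x r = 0 := Iff.rfl

lemma finrank_relOn (ξ : I × Bool → V) (R0 : Finset (I × Bool)) :
    finrank ℝ (relOn ξ R0) + finrank ℝ (span ℝ (ξ '' (R0 : Set (I × Bool)))) = R0.card := by
  classical
  let φ := Fintype.linearCombination ℝ (fun r : R0 => ξ r.1)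
  let j : (R0 → ℝ) →ₗ[ℝ] (I × Bool → ℝ) := Function.ExtendByZero.linearMap ℝ (Subtype.val)
  have hj : Function.Injective j := Function.extend_injective Subtype.val_injective _
  have hj1 : ∀ (x : R0 → ℝ) (r : R0), j x r.1 = x r := fun x r =>
    Subtype.val_injective.extend_apply _ _ r
  have hj2 : ∀ (x : R0 → ℝ) (r : I × Bool), r ∉ R0 → j x r = 0 := fun x r hr => by
    apply Function.extend_apply'
    rintro ⟨r', rfl⟩
    exact hr r'.2
  have hsum : ∀ x : I × Bool → ℝ, (∀ r, r ∉ R0 → x r = 0) →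
      ∑ r, x r • ξ r = ∑ r : R0, x r.1 • ξ r.1 := by
    intro x hx
    rw [Finset.sum_coe_sort R0 (fun r => x r • ξ r)]
    symm
    apply Finset.sum_subset (Finset.subset_univ _)
    intro r _ hr
    rw [hx r hr, zero_smul]
  have h1 : relOn ξ R0 = (LinearMap.ker φ).map j := by
    ext x
    rw [mem_relOn, Submodule.mem_map]
    constructor
    · rintro ⟨hx, hx0⟩
      refine ⟨fun r => x r.1, ?_, ?_⟩
      · rw [LinearMap.mem_ker, Fintype.linearCombination_apply, ← hsum x hx0]
        exact mem_rel.1 hx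
      · funext r
        by_cases hr : r ∈ R0
        · exact hj1 _ ⟨r, hr⟩
        · rw [hj2 _ r hr, hx0 r hr]
    · rintro ⟨y, hy, rfl⟩
      refine ⟨?_, fun r hr => hj2 y r hr⟩
      rw [mem_rel, hsum _ (fun r hr => hj2 y r hr)]
      rw [LinearMap.mem_ker, Fintype.linearCombination_apply] at hy
      rw [← hy]
      exact Finset.sum_congr rfl fun r _ => by rw [hj1]
  have h2 : finrank ℝ (relOn ξ R0) = finrank ℝ (LinearMap.ker φ) := by
    rw [h1]
    exact (LinearEquiv.finrank_eq (Submodule.equivMapOfInjective j hj _)).symm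
  have h3 : LinearMap.range φ = span ℝ (ξ '' (R0 : Set (I × Bool))) := by
    rw [Fintype.range_linearCombination]
    congr 1
    ext v
    simp
  have h4 := LinearMap.finrank_range_add_finrank_ker φ
  rw [h3, Module.finrank_fintype_fun_eq_card, Fintype.card_coe] at h4
  rw [h2]
  omega

/-- the indices over `T` -/
def ov (T : Finset I) : Finset (I × Bool) := T ×ˢ Finset.univ

lemma mem_ov {T : Finset I} {r : I × Bool} : r ∈ ov T ↔ r.1 ∈ T := by
  simp [ov]

lemma card_ov (T : Finset I) : (ov T).card = 2 * T.card := by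
  rw [ov, Finset.card_product, Finset.card_univ, Fintype.card_bool, mul_comm]

/-- the rank of the vectors with indices over `T` -/
noncomputable def rk (ξ : I × Bool → V) (T : Finset I) : ℕ :=
  finrank ℝ (span ℝ (ξ '' (ov T : Set (I × Bool))))

lemma inf_van_le {ξ : I × Bool → V} {N : Submodule ℝ (I × Bool → ℝ)} (hN : N ≤ rel ξ)
    (T : Finset I) : N ⊓ van T ≤ relOn ξ (ov Tᶜ) := by
  intro x hx
  obtain ⟨h1, h2⟩ := Submodule.mem_inf.1 hx
  refine ⟨hN h1, fun r hr => ?_⟩
  rw [mem_ov, Finset.mem_compl, not_not] at hr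
  exact h2 r.1 hr r.2

/-- the condition for sections, for proper subsets of large rank -/
lemma van_cond {ξ : I × Bool → V} {N : Submodule ℝ (I × Bool → ℝ)} (hN : N ≤ rel ξ)
    {T : Finset I} (hT : Tᶜ.Nonempty → Tᶜ.card + 1 ≤ rk ξ Tᶜ) :
    finrank ℝ (N ⊓ van T : Submodule ℝ (I × Bool → ℝ)) + T.card ≤ Fintype.card I := by
  have h1 := Submodule.finrank_mono (inf_van_le hN T)
  have h2 := finrank_relOn ξ (ov Tᶜ)
  rw [card_ov] at h2
  have h3 := Finset.card_add_card_compl T
  rcases Finset.eq_empty_or_nonempty Tᶜ with h | h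
  · rw [h] at h2 h3 h1
    rw [Finset.card_empty] at h2 h3
    omega
  · have h4 := hT h
    unfold rk at h4
    omega

/-- **Sections for a set of small rank, all of whose proper subsets have large rank.** -/
theorem section_LC (ξ : I × Bool → V) (hrk : rk ξ Finset.univ ≤ Fintype.card I)
    (hT : ∀ T : Finset I, T.Nonempty → T ≠ Finset.univ → T.card + 1 ≤ rk ξ T) :
    ∃ (b : I → Bool) (a : I → I × Bool → ℝ), (∀ i, a i ∈ rel ξ) ∧
      ∀ i k, a i (k, b k) = if i = k then 1 else 0 := by
  classical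
  have h1 := finrank_relOn ξ (ov Finset.univ)
  rw [card_ov, Finset.card_univ] at h1
  have h2 : Fintype.card I ≤ finrank ℝ (rel ξ) := by
    have h3 : finrank ℝ (relOn ξ (ov Finset.univ)) ≤ finrank ℝ (rel ξ) :=
      Submodule.finrank_mono fun x hx => hx.1
    unfold rk at hrk
    omega
  obtain ⟨f, hf⟩ := exists_linearIndependent_of_le_finrank h2
  let N : Submodule ℝ (I × Bool → ℝ) := span ℝ (Set.range fun k => (f k).1)
  have hN : N ≤ rel ξ := by
    rw [span_le]
    rintro _ ⟨k, rfl⟩
    exact (f k).2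
  have hli : LinearIndependent ℝ fun k => ((f k).1 : I × Bool → ℝ) :=
    hf.map' (rel ξ).subtype (Submodule.ker_subtype _)
  have hNf : finrank ℝ N = Fintype.card I := by
    have := finrank_span_eq_card hli
    rw [Fintype.card_fin] at this
    exact this
  obtain ⟨b, A, a, hA, ha, hab⟩ := exists_section N (by
    intro T
    rcases Finset.eq_empty_or_nonempty T with h | h
    · subst h
      rw [Finset.card_empty, add_zero, ← hNf]
      exact Submodule.finrank_mono inf_le_left
    · apply van_cond hN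
      intro hne
      apply hT _ hne
      intro hu
      rw [Finset.compl_eq_univ_iff] at hu
      rw [hu] at h
      exact Finset.not_nonempty_empty h)
  have hAu : A = Finset.univ := by
    rw [← Finset.card_eq_iff_eq_univ, hA, hNf]
  refine ⟨b, a, fun i => hN (ha i), fun i k => ?_⟩
  exact hab i (by rw [hAu]; exact Finset.mem_univ _) k (by rw [hAu]; exact Finset.mem_univ _)

/-- **Sections for a bad pattern.** -/
theorem section_AUX (ξ : I × Bool → V) (R0 : Finset (I × Bool)) (q : ℕ)
    (hR0 : R0.card = Fintype.card I + q)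
    (hrk : finrank ℝ (span ℝ (ξ '' (R0 : Set (I × Bool)))) + 1 ≤ Fintype.card I)
    (hT : ∀ T : Finset I, T.Nonempty → T.card + 1 ≤ rk ξ T) :
    ∃ (b : I → Bool) (A : Finset I) (a : I → I × Bool → ℝ), q + 1 ≤ A.card ∧
      (∀ i, a i ∈ relOn ξ R0) ∧ ∀ i ∈ A, ∀ k ∈ A, a i (k, b k) = if i = k then 1 else 0 := by
  classical
  have h1 := finrank_relOn ξ R0
  have hle : relOn ξ R0 ≤ rel ξ := fun x hx => (mem_relOn.1 hx).1
  obtain ⟨b, A, a, hA, ha, hab⟩ := exists_section (relOn ξ R0) (fun T =>
    van_cond hle (fun hne => hT _ hne))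
  exact ⟨b, A, a, by omega, ha, hab⟩

end Pool.Agent.H883.ZQ
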