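import Pool.Agent.H883.ZQ.Comb
import Pool.Agent.H883.ZQ.Rk

set_option autoImplicit false
set_option linter.unusedSectionVars false

/-!
# Exponents near a space of real relations
-/

namespace Pool.Agent.H883.ZQ

open Module Submodule

variable {I : Type} [Fintype I] [DecidableEq I]

/-- the point of the space of relations with parameters `m` -/
noncomputable def xm (A : Finset I) (a : I → I × Bool → ℝ) {n : ℕ} (m : A → Fin n)
    (r : I × Bool) : ℝ := ∑ i : A, (m i : ℝ) * a i r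

/-- integral exponents near it, shifted by `s` -/
noncomputable def ex (A : Finset I) (a : I → I × Bool → ℝ) {n : ℕ} (s : I × Bool → ℕ)
    (m : A → Fin n) (r : I × Bool) : ℕ := (⌊xm A a m r⌋ + s r).toNat

lemma xm_mem {A : Finset I} {a : I → I × Bool → ℝ} {N : Submodule ℝ (I × Bool → ℝ)}
    (ha : ∀ i, a i ∈ N) {n : ℕ} (m : A → Fin n) : xm A a m ∈ N := by
  have : xm A a m = ∑ i : A, (m i : ℝ) • a i := by
    funext r
    rw [Finset.sum_apply]
    rfl
  rw [this]
  exact N.sum_mem fun i _ => N.smul_mem _ (ha i)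

lemma xm_le {A : Finset I} {a : I → I × Bool → ℝ} {β : ℝ} {n : ℕ} (m : A → Fin n)
    {r : I × Bool} (hβ : ∑ i, |a i r| ≤ β) : |xm A a m r| ≤ β * n := by
  unfold xm
  refine (Finset.abs_sum_le_sum_abs _ _).trans ?_
  have h1 : ∑ i : A, |(m i : ℝ) * a i r| ≤ ∑ i : A, n * |a i r| := by
    apply Finset.sum_le_sum
    intro i _
    rw [abs_mul, Nat.abs_cast]
    exact mul_le_mul_of_nonneg_right (by exact_mod_cast (m i).2.le) (abs_nonneg _)
  refine h1.trans ?_
  rw [← Finset.mul_sum, mul_comm]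
  apply mul_le_mul_of_nonneg_right _ (Nat.cast_nonneg _)
  refine le_trans ?_ hβ
  rw [Finset.sum_coe_sort A (fun i => |a i r|)]
  exact Finset.sum_le_sum_of_subset_of_nonneg (Finset.subset_univ _) fun _ _ _ => abs_nonneg _

lemma ex_cast {A : Finset I} {a : I → I × Bool → ℝ} {n : ℕ} {s : I × Bool → ℕ} (m : A → Fin n)
    {r : I × Bool} (h : |xm A a m r| ≤ s r) :
    (ex A a s m r : ℝ) = (⌊xm A a m r⌋ : ℝ) + s r := by
  have h1 : (0 : ℤ) ≤ ⌊xm A a m r⌋ + s r := by
    have : (-(s r : ℤ)) ≤ ⌊xm A a m r⌋ := by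
      rw [Int.le_floor]
      push_cast
      exact (abs_le.1 h).1
    omega
  have h2 : ((ex A a s m r : ℕ) : ℤ) = ⌊xm A a m r⌋ + s r := Int.toNat_of_nonneg h1
  have h3 : (((ex A a s m r : ℕ) : ℤ) : ℝ) = ((⌊xm A a m r⌋ + s r : ℤ) : ℝ) := by rw [h2]
  push_cast at h3
  exact h3

lemma ex_le {A : Finset I} {a : I → I × Bool → ℝ} {n : ℕ} {s : I × Bool → ℕ} (m : A → Fin n)
    {r : I × Bool} (h : |xm A a m r| ≤ s r) : ex A a s m r ≤ 2 * s r := by
  have h1 := ex_cast m h
  have h2 := Int.floor_le (xm A a m r)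
  have h3 := (abs_le.1 h).2
  have : (ex A a s m r : ℝ) ≤ ((2 * s r : ℕ) : ℝ) := by
    push_cast
    linarith
  exact_mod_cast this

lemma ex_inj {A : Finset I} {a : I → I × Bool → ℝ} {b : I → Bool}
    (hab : ∀ i ∈ A, ∀ k ∈ A, a i (k, b k) = if i = k then 1 else 0) {n : ℕ} {s : I × Bool → ℕ}
    (hs : ∀ (m : A → Fin n) r, |xm A a m r| ≤ s r) :
    Function.Injective fun (m : A → Fin n) i => ex A a s m (i, b i) := by
  intro m m' hmm
  funext k
  have h1 : ∀ m : A → Fin n, xm A a m (k.1, b k.1) = m k := by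
    intro m
    unfold xm
    rw [Finset.sum_eq_single k]
    · rw [hab k.1 k.2 k.1 k.2, if_pos rfl, mul_one]
    · intro i _ hik
      rw [hab i.1 i.2 k.1 k.2, if_neg (fun h => hik (Subtype.ext h)), mul_zero]
    · intro h
      exact absurd (Finset.mem_univ _) h
  have h2 := congrFun hmm k.1
  dsimp only at h2
  have h3 := ex_cast m (hs m (k.1, b k.1))
  have h4 := ex_cast m' (hs m' (k.1, b k.1))
  rw [h1 m] at h3
  rw [h1 m'] at h4
  rw [h2, h4] at h3
  rw [Int.floor_natCast, Int.floor_natCast] at h3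
  have h5 : ((m' k : ℕ) : ℝ) = ((m k : ℕ) : ℝ) := by
    push_cast at h3
    linarith
  exact Fin.ext (by exact_mod_cast h5.symm)

/-- a bound for the coefficients of the section -/
lemma exists_beta (a : I → I × Bool → ℝ) : ∃ β : ℕ, ∀ r, ∑ i, |a i r| ≤ β := by
  refine ⟨⌈∑ r, ∑ i, |a i r|⌉₊, fun r => ?_⟩
  refine le_trans ?_ (Nat.le_ceil _)
  exact Finset.single_le_sum (f := fun r => ∑ i, |a i r|)
    (fun _ _ => Finset.sum_nonneg fun _ _ => abs_nonneg _) (Finset.mem_univ r)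

/-- degrees of the monomials -/
lemma degreeOf_ex {A : Finset I} {a : I → I × Bool → ℝ} {n : ℕ} {s : I × Bool → ℕ} {S : ℕ}
    (hsS : ∀ r, s r ≤ S) (hs : ∀ (m : A → Fin n) r, |xm A a m r| ≤ s r) (m : A → Fin n) (i : I) :
    MvPolynomial.degreeOf i (mo (ex A a s m)) ≤ 4 * S := by
  refine (degreeOf_mo _ i).trans ?_
  have h1 := ex_le m (hs m (i, false))
  have h2 := ex_le m (hs m (i, true))
  have h3 := hsS (i, false)
  have h4 := hsS (i, true)
  omega

end Pool.Agent.H883.ZQ
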