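import Pool.Agent.H883.ZQ.Types
import Pool.Agent.H883.ZQ.CaseA
import Pool.Agent.H883.ZP.Poly

set_option autoImplicit false
set_option linter.unusedSectionVars false

/-!
# Points whose logarithms are nearly given by fixed vectors
-/

namespace Pool.Agent.H883.ZQ

open Real NumberField Height Module Finset
open Pool.Agent.H489ZP

lemma exists_pos_le {α : Type} [Finite α] (f : α → ℝ) (hf : ∀ a, 0 < f a) :
    ∃ ε : ℝ, 0 < ε ∧ ∀ a, ε ≤ f a := by
  rcases isEmpty_or_nonempty α with h | h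
  · exact ⟨1, one_pos, fun a => (h.false a).elim⟩
  · obtain ⟨a, ha⟩ := Finite.exists_min f
    exact ⟨f a, hf a, ha⟩

lemma exists_ge_all {α : Type} [Finite α] (f : α → ℝ) : ∃ M : ℝ, ∀ a, f a ≤ M := by
  rcases isEmpty_or_nonempty α with h | h
  · exact ⟨1, fun a => (h.false a).elim⟩
  · obtain ⟨a, ha⟩ := Finite.exists_max f
    exact ⟨f a, ha⟩

/-- points at which functionals are small are near their common kernel -/
lemma ker_dist {ρ : Type} [Fintype ρ] [DecidableEq ρ] {d : ℕ}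
    (Φ : (Fin d → ℝ) →ₗ[ℝ] (ρ → ℝ)) : ∃ C : ℝ, 0 ≤ C ∧ ∀ (t : Fin d → ℝ) (S : ℝ),
      (∀ r, |Φ t r| ≤ S) → ∃ t' ∈ LinearMap.ker Φ, ∀ k, |t k - t' k| ≤ C * S := by
  classical
  obtain ⟨g, hg⟩ := Φ.rangeRestrict.exists_rightInverse_of_surjective Φ.range_rangeRestrict
  obtain ⟨g', hg'⟩ := LinearMap.exists_extend g
  refine ⟨∑ k, ∑ r, |g' (Pi.single r 1) k|, Finset.sum_nonneg fun _ _ =>
    Finset.sum_nonneg fun _ _ => abs_nonneg _, ?_⟩
  intro t S hS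
  refine ⟨t - g' (Φ t), ?_, ?_⟩
  · rw [LinearMap.mem_ker, map_sub, sub_eq_zero]
    have h1 : g' (Φ t) = g (Φ.rangeRestrict t) := by
      rw [← hg']
      rfl
    rw [h1]
    have h2 := congrArg Subtype.val (LinearMap.congr_fun hg (Φ.rangeRestrict t))
    exact h2.symm
  · intro k
    have h1 : t k - (t - g' (Φ t)) k = ∑ r, Φ t r * g' (Pi.single r 1) k := by
      rw [Pi.sub_apply, sub_sub_cancel]
      conv_lhs => rw [← LinearMap.sum_single_apply (φ := fun _ : ρ => ℝ) (Φ t)]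
      rw [map_sum, Finset.sum_apply]
      refine Finset.sum_congr rfl fun r _ => ?_
      have : (Pi.single r (Φ t r) : ρ → ℝ) = (Φ t r) • Pi.single r 1 := by
        rw [← Pi.single_smul, smul_eq_mul, mul_one]
      rw [this, map_smul, Pi.smul_apply, smul_eq_mul]
    rw [h1]
    calc |∑ r, Φ t r * g' (Pi.single r 1) k| ≤ ∑ r, |Φ t r * g' (Pi.single r 1) k| :=
          Finset.abs_sum_le_sum_abs _ _
      _ ≤ ∑ r, S * |g' (Pi.single r 1) k| := by
          apply Finset.sum_le_sum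
          intro r _
          rw [abs_mul]
          exact mul_le_mul_of_nonneg_right (hS r) (abs_nonneg _)
      _ = (∑ r, |g' (Pi.single r 1) k|) * S := by rw [← Finset.mul_sum, mul_comm]
      _ ≤ _ := by
          rcases isEmpty_or_nonempty ρ with he | he
          · simp
          · have hS0 : 0 ≤ S := (abs_nonneg _).trans (hS (Classical.arbitrary ρ))
            apply mul_le_mul_of_nonneg_right _ hS0
            exact Finset.single_le_sum (f := fun k => ∑ r, |g' (Pi.single r 1) k|)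
              (fun _ _ => Finset.sum_nonneg fun _ _ => abs_nonneg _) (Finset.mem_univ k)

lemma map_tr {K : Type} [Field K] (σ : K →+* ℂ) (p : Fin 3) (x : K) :
    σ (tr p x) = tr p (σ x) := by
  rcases fin3 p with rfl | rfl | rfl
  · rfl
  · rw [tr_one, tr_one, map_sub, map_one]
  · rw [tr_two, tr_two, map_inv₀]

/-- the type of a complex number with a large logarithm -/
lemma types {z : ℂ} (hz0 : z ≠ 0) (hz1 : 1 - z ≠ 0) {a : ℝ} (ha : 2 ≤ a)
    (h : a ≤ |log ‖z‖| ∨ a ≤ |log ‖1 - z‖|) : ∃ p : Fin 3, log ‖tr p z‖ ≤ -(a / 2) := by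
  have hl1 : Real.log 2 < 1 := by linarith [Real.log_two_lt_d9]
  have hz0' : 0 < ‖z‖ := norm_pos_iff.2 hz0
  have hz1' : 0 < ‖1 - z‖ := norm_pos_iff.2 hz1
  have e2 : log ‖tr 2 z‖ = -log ‖z‖ := by rw [tr_two, norm_inv, Real.log_inv]
  rcases h with h | h
  · rcases le_total 0 (log ‖z‖) with h1 | h1
    · rw [abs_of_nonneg h1] at h
      exact ⟨2, by rw [e2]; linarith⟩
    · rw [abs_of_nonpos h1] at h
      exact ⟨0, by rw [tr_zero]; linarith⟩
  · rcases le_total 0 (log ‖1 - z‖) with h1 | h1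
    · rw [abs_of_nonneg h1] at h
      refine ⟨2, ?_⟩
      rw [e2]
      have h2 : exp a ≤ ‖1 - z‖ := (Real.le_log_iff_exp_le hz1').1 h
      have h3 : ‖1 - z‖ ≤ 1 + ‖z‖ := by
        have := norm_sub_le (1 : ℂ) z
        rwa [norm_one] at this
      have h4 : (2 : ℝ) ≤ exp a := by
        have := Real.add_one_le_exp a
        linarith
      have h5 : exp (a / 2) ≤ ‖z‖ := by
        have h6 : exp a = exp (a / 2) * exp (a / 2) := by
          rw [← Real.exp_add]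
          congr 1
          ring
        have h7 : (2 : ℝ) ≤ exp (a / 2) := by
          have := Real.add_one_le_exp (a / 2)
          linarith
        nlinarith
      have h6 := (Real.le_log_iff_exp_le hz0').2 h5
      linarith
    · rw [abs_of_nonpos h1] at h
      exact ⟨1, by rw [tr_one]; linarith⟩

variable {I : Type} [Fintype I] [DecidableEq I]

/-- the conclusion for bad patterns -/
def BPr {d : ℕ} (ξ : I × Bool → Fin d → ℝ) (Q : Finset I) (p : I → Fin 3) (θ θ1 m0 : ℝ)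
    (G : MvPolynomial I ℤ) (η H0 : ℝ) : Prop :=
  ∀ (K : Type) [Field K] [NumberField K] (u : I → K), (∀ i, u i ≠ 0) → (∀ i, 1 - u i ≠ 0) →
    ∀ H : ℝ, 1 ≤ H → H0 ≤ H → ∀ (t : AbsoluteValue K ℝ → Fin d → ℝ) (err : AbsoluteValue K ℝ → ℝ),
    Near u ξ H t err η → (∀ i, logHeight₁ (u i) ≤ finrank ℚ K * H) →
    ∀ S : Finset (K →+* ℂ), m0 * finrank ℚ K ≤ S.card →
    (∀ σ ∈ S, (∀ i ∈ Q, log ‖σ (tr (p i) (u i))‖ ≤ -(θ * H)) ∧
      ∀ i, i ∉ Q → ∀ b, |log ‖σ (U u (i, b))‖| ≤ θ1 * H) → MvPolynomial.aeval u G = 0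

/-- bad patterns -/
def BadPat {d : ℕ} (ξ : I × Bool → Fin d → ℝ) (ϖ : Finset I × (I → Fin 3)) : Prop :=
  (∀ i, i ∉ ϖ.1 → ϖ.2 i = 0) ∧
    finrank ℝ (Submodule.span ℝ (trx ϖ.2 ξ '' (R0 ϖ.1 : Set (I × Bool)))) + 1 ≤ Fintype.card I

lemma step {d : ℕ} (ξ : I × Bool → Fin d → ℝ)
    (hT : ∀ T : Finset I, T.Nonempty → T.card + 1 ≤ rk ξ T) {m0 : ℝ} (hm0 : 0 < m0) (θ : ℝ)
    (hθ : 0 < θ) : ∃ θ' : ℝ, (0 < θ' ∧ θ' ≤ θ) ∧ ∃ (G : Finset I × (I → Fin 3) → MvPolynomial I ℤ)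
      (η H0 : ℝ), 0 < η ∧ ∀ ϖ, G ϖ ≠ 0 ∧
        (BadPat ξ ϖ → BPr ξ ϖ.1 ϖ.2 (θ / 2) θ' m0 (G ϖ) η H0) := by
  classical
  have h1 : ∀ ϖ : Finset I × (I → Fin 3), ∃ θ1 : ℝ, 0 < θ1 ∧ ∃ G : MvPolynomial I ℤ, G ≠ 0 ∧
      ∃ η H0 : ℝ, 0 < η ∧ (BadPat ξ ϖ → BPr ξ ϖ.1 ϖ.2 (θ / 2) θ1 m0 G η H0) := by
    intro ϖ
    by_cases hp' : BadPat ξ ϖ
    · obtain ⟨θ1, hθ1, G, hG, η, H0, hη, h⟩ := badP I ξ ϖ.1 ϖ.2 hp'.1 hp'.2 hT
        (θ := θ / 2) (by linarith) hm0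
      refine ⟨θ1, hθ1, G, hG, η, H0, hη, fun _ => ?_⟩
      intro K _ _ u hu0 hu1 H _ hH0 t err hnear hH S hScard hS
      exact h K u hu0 hu1 H hH0 t err hnear hH S hScard hS
    · exact ⟨1, one_pos, 1, one_ne_zero, 1, 1, one_pos, fun h => absurd h hp'⟩
  choose θ1 hθ1 G hG η H0 hη h using h1
  obtain ⟨ε, hε, hεle⟩ := exists_pos_le θ1 hθ1
  obtain ⟨η', hη', hηle⟩ := exists_pos_le η hη
  obtain ⟨M, hM⟩ := exists_ge_all H0
  refine ⟨min ε θ, ⟨lt_min hε hθ, min_le_right _ _⟩, G, η', M, hη', fun ϖ => ⟨hG ϖ, ?_⟩⟩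
  intro hp' K _ _ u hu0 hu1 H hH1 hH0 t err hnear hH S hScard hS
  refine h ϖ hp' K u hu0 hu1 H hH1 ((hM ϖ).trans hH0) t err (hnear.mono (hηle ϖ)) hH S hScard ?_
  intro σ hσ
  refine ⟨(hS σ hσ).1, fun i hi b => ((hS σ hσ).2 i hi b).trans ?_⟩
  exact mul_le_mul_of_nonneg_right ((min_le_left _ _).trans (hεle ϖ)) (by linarith)

/-- decreasing thresholds -/
lemma levels {d : ℕ} (ξ : I × Bool → Fin d → ℝ)
    (hT : ∀ T : Finset I, T.Nonempty → T.card + 1 ≤ rk ξ T) {m0 : ℝ} (hm0 : 0 < m0) {θ0 : ℝ}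
    (hθ0 : 0 < θ0) (q : ℕ) : ∃ θ : ℕ → ℝ, θ 0 = θ0 ∧ (∀ l, 0 < θ l) ∧ Antitone θ ∧
      ∃ (G : MvPolynomial I ℤ) (η H0 : ℝ), G ≠ 0 ∧ 0 < η ∧ ∀ l ≤ q, ∀ ϖ, BadPat ξ ϖ →
        BPr ξ ϖ.1 ϖ.2 (θ l / 2) (θ (l + 1)) m0 G η H0 := by
  classical
  choose nx hnx G η H0 hη hG using step ξ hT hm0
  let s : ℕ → {θ : ℝ // 0 < θ} := fun n =>
    Nat.rec ⟨θ0, hθ0⟩ (fun _ x => ⟨nx x.1 x.2, (hnx x.1 x.2).1⟩) n
  have hs : ∀ l, (s (l + 1)).1 = nx (s l).1 (s l).2 := fun l => rfl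
  refine ⟨fun l => (s l).1, rfl, fun l => (s l).2, antitone_nat_of_succ_le fun l => ?_, ?_⟩
  · rw [hs]
    exact (hnx _ _).2
  · obtain ⟨ε, hε, hεle⟩ := exists_pos_le (fun l : Fin (q + 1) => η (s l).1 (s l).2)
      (fun l => hη _ _)
    obtain ⟨M, hM⟩ := exists_ge_all (fun l : Fin (q + 1) => H0 (s l).1 (s l).2)
    refine ⟨∏ l : Fin (q + 1), ∏ ϖ, G (s l).1 (s l).2 ϖ, ε, M, ?_, hε, ?_⟩
    · exact Finset.prod_ne_zero_iff.2 fun l _ => Finset.prod_ne_zero_iff.2 fun ϖ _ => (hG _ _ ϖ).1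
    · intro l hl ϖ hp' K _ _ u hu0 hu1 H hH1 hH0 t err hnear hH S hScard hS
      let l' : Fin (q + 1) := ⟨l, by omega⟩
      have h1 := (hG (s l').1 (s l').2 ϖ).2 hp' K u hu0 hu1 H hH1 ((hM l').trans hH0) t err
        (hnear.mono (hεle l')) hH S hScard hS
      rw [map_prod]
      apply Finset.prod_eq_zero (Finset.mem_univ l')
      rw [map_prod]
      exact Finset.prod_eq_zero (Finset.mem_univ ϖ) h1

/-- a level at which no coordinate is intermediate -/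
lemma exists_level {θ : ℕ → ℝ} (hθ : Antitone θ) (s : I → ℝ) :
    ∃ l ≤ Fintype.card I, ∀ i, s i ≤ θ (l + 1) ∨ θ l < s i := by
  classical
  by_contra hcon
  push Not at hcon
  have h1 : ∀ l : Fin (Fintype.card I + 1), ∃ i, θ (l + 1) < s i ∧ s i ≤ θ l := fun l =>
    hcon l (by omega)
  choose g hg using h1
  have hinj : Function.Injective g := by
    intro l l' hll
    by_contra hne
    have key : ∀ l l' : Fin (Fintype.card I + 1), g l = g l' → ¬ l < l' := by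
      intro l l' hll hlt
      have h2 := (hg l).1
      have h3 := (hg l').2
      rw [← hll] at h3
      have h4 : θ l' ≤ θ (l + 1) := hθ (by
        have : (l : ℕ) < l' := hlt
        omega)
      linarith
    rcases lt_or_gt_of_ne hne with h | h
    · exact key l l' hll h
    · exact key l' l hll.symm h
  have := Fintype.card_le_of_injective g hinj
  rw [Fintype.card_fin] at this
  omega

end Pool.Agent.H883.ZQ
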