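import Pool.Agent.H883.ZQ.Mono
import Pool.Agent.H883.ZQ.Rk
import Pool.Agent.H883.ZP.Pair

set_option autoImplicit false
set_option linter.unusedSectionVars false

/-!
# Near-constant monomials
-/

namespace Pool.Agent.H883.ZQ

open Real NumberField Height Module Finset
open Pool.Agent.H489ZP

variable {I : Type} [Fintype I] [DecidableEq I]

/-- the numbers `u_i` and `1 - u_i` -/
def U {K : Type} [Field K] (u : I → K) (r : I × Bool) : K := if r.2 then 1 - u r.1 else u r.1

lemma U_false {K : Type} [Field K] (u : I → K) (i : I) : U u (i, false) = u i := rfl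

lemma U_true {K : Type} [Field K] (u : I → K) (i : I) : U u (i, true) = 1 - u i := rfl

lemma U_ne {K : Type} [Field K] {u : I → K} (hu0 : ∀ i, u i ≠ 0) (hu1 : ∀ i, 1 - u i ≠ 0)
    (r : I × Bool) : U u r ≠ 0 := by
  obtain ⟨i, b⟩ := r
  cases b
  · exact hu0 i
  · exact hu1 i

/-- the logarithms of the sizes of the `u_i` and `1 - u_i` are nearly `H` times the values of the
functionals `ξ r` at a point `t v` -/
structure Near {K : Type} [Field K] [NumberField K] {d : ℕ} (u : I → K) (ξ : I × Bool → Fin d → ℝ)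
    (H : ℝ) (t : AbsoluteValue K ℝ → Fin d → ℝ) (err : AbsoluteValue K ℝ → ℝ) (η : ℝ) : Prop where
  inf : ∀ v : InfinitePlace K, ∀ r, |log (v.1 (U u r)) - H * ∑ k, ξ r k * t v.1 k| ≤ H * err v.1
  fin : ∀ v : FinitePlace K, ∀ r, |log (v.1 (U u r)) - H * ∑ k, ξ r k * t v.1 k| ≤ H * err v.1
  tot : ∀ T : Finset (FinitePlace K), PS T err ≤ η * finrank ℚ K

/-- the logarithm of a near-constant monomial -/
lemma mono_log {d : ℕ} {ξ : I × Bool → Fin d → ℝ} {x : I × Bool → ℝ} (hx : x ∈ rel ξ) {X : ℝ}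
    (hX : ∀ r, |x r| ≤ X) (s L : I × Bool → ℝ) (T : Fin d → ℝ) {H e : ℝ}
    (hL : ∀ r, |L r - H * ∑ k, ξ r k * T k| ≤ H * e) :
    ∑ r, ((⌊x r⌋ : ℝ) + s r) * L r ≤
      ∑ r, s r * L r + ∑ r, |L r| + Fintype.card (I × Bool) * X * (H * e) := by
  have h1 : ∀ r, ((⌊x r⌋ : ℝ) + s r) * L r ≤ s r * L r + |L r| + (x r * L r) := by
    intro r
    have h2 : -(Int.fract (x r) * L r) ≤ |L r| := by
      have h3 := Int.fract_nonneg (x r)
      have h4 := (Int.fract_lt_one (x r)).le
      calc -(Int.fract (x r) * L r) ≤ |Int.fract (x r) * L r| := neg_le_abs _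
        _ = Int.fract (x r) * |L r| := by rw [abs_mul, abs_of_nonneg h3]
        _ ≤ 1 * |L r| := mul_le_mul_of_nonneg_right h4 (abs_nonneg _)
        _ = _ := one_mul _
    have h5 : (⌊x r⌋ : ℝ) = x r - Int.fract (x r) := by
      have := Int.floor_add_fract (x r)
      linarith
    rw [h5]
    linarith
  have h2 : ∑ r, x r * L r ≤ Fintype.card (I × Bool) * X * (H * e) := by
    have h3 : ∑ r, x r * (H * ∑ k, ξ r k * T k) = 0 := by
      have h4 : ∀ k, ∑ r, x r * ξ r k = 0 := by
        intro k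
        have := congrFun (mem_rel.1 hx) k
        rw [Finset.sum_apply] at this
        exact this
      calc ∑ r, x r * (H * ∑ k, ξ r k * T k) = H * ∑ k, (∑ r, x r * ξ r k) * T k := by
            simp_rw [Finset.sum_mul, Finset.mul_sum]
            rw [Finset.sum_comm]
            refine Finset.sum_congr rfl fun k _ => Finset.sum_congr rfl fun r _ => by ring
        _ = 0 := by simp [h4]
    have h4 : ∑ r, x r * L r = ∑ r, x r * (L r - H * ∑ k, ξ r k * T k) := by
      simp_rw [mul_sub]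
      rw [Finset.sum_sub_distrib, h3, sub_zero]
    rw [h4]
    calc ∑ r, x r * (L r - H * ∑ k, ξ r k * T k) ≤ ∑ _r : I × Bool, X * (H * e) := by
          apply Finset.sum_le_sum
          intro r _
          calc x r * (L r - H * ∑ k, ξ r k * T k) ≤ |x r * (L r - H * ∑ k, ξ r k * T k)| :=
                le_abs_self _
            _ = |x r| * |L r - H * ∑ k, ξ r k * T k| := abs_mul _ _
            _ ≤ X * (H * e) := mul_le_mul (hX r) (hL r) (abs_nonneg _)
                ((abs_nonneg _).trans (hX r))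
      _ = _ := by
          rw [Finset.sum_const, Finset.card_univ, nsmul_eq_mul]
          ring
  have h3 : ∑ r, ((⌊x r⌋ : ℝ) + s r) * L r ≤ ∑ r, (s r * L r + |L r| + (x r * L r)) :=
    Finset.sum_le_sum fun r _ => h1 r
  rw [Finset.sum_add_distrib, Finset.sum_add_distrib] at h3
  linarith

/-- the size of a product of powers -/
lemma abv_mo {K : Type} [Field K] (f : AbsoluteValue K ℝ) {u : I → K} (hu0 : ∀ i, u i ≠ 0)
    (hu1 : ∀ i, 1 - u i ≠ 0) (e : I × Bool → ℕ) :
    f (MvPolynomial.aeval u (mo e)) = exp (∑ r, (e r : ℝ) * log (f (U u r))) := by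
  rw [aeval_mo, map_prod, Real.exp_sum, Fintype.prod_prod_type]
  refine Finset.prod_congr rfl fun i _ => ?_
  rw [Fintype.prod_bool, map_mul, map_pow, map_pow, U_false, U_true, mul_comm]
  congr 1
  · rw [← Real.log_pow, Real.exp_log (pow_pos (f.pos (hu1 i)) _)]
  · rw [← Real.log_pow, Real.exp_log (pow_pos (f.pos (hu0 i)) _)]

/-- sums, ultrametric case -/
lemma na_sum_le {K : Type} [Field K] (f : AbsoluteValue K ℝ)
    (hna : ∀ a b, f (a + b) ≤ max (f a) (f b)) {κ : Type} (s : Finset κ) (a : κ → K) {B : ℝ}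
    (hB : 0 ≤ B) (h : ∀ m ∈ s, f (a m) ≤ B) : f (∑ m ∈ s, a m) ≤ B := by
  classical
  induction s using Finset.induction_on with
  | empty => rw [Finset.sum_empty, map_zero]; exact hB
  | insert m s hm ih =>
    rw [Finset.sum_insert hm]
    exact (hna _ _).trans (max_le (h m (Finset.mem_insert_self _ _))
      (ih fun m' hm' => h m' (Finset.mem_insert_of_mem hm')))

lemma na_int_le {K : Type} [Field K] (f : AbsoluteValue K ℝ)
    (hna : ∀ a b, f (a + b) ≤ max (f a) (f b)) (n : ℤ) : f (n : K) ≤ 1 := by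
  have hnat : ∀ n : ℕ, f (n : K) ≤ 1 := by
    intro n
    induction n with
    | zero => rw [Nat.cast_zero, map_zero]; norm_num
    | succ n ih =>
      rw [Nat.cast_succ]
      refine (hna _ _).trans (max_le ih ?_)
      rw [map_one]
  rcases Int.eq_nat_or_neg n with ⟨m, rfl | rfl⟩
  · rw [Int.cast_natCast]
    exact hnat m
  · rw [Int.cast_neg, Int.cast_natCast, f.map_neg]
    exact hnat m

lemma arch_int_le {K : Type} [Field K] (f : AbsoluteValue K ℝ) (n : ℤ) :
    f (n : K) ≤ |(n : ℝ)| := by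
  have hnat : ∀ n : ℕ, f (n : K) ≤ n := by
    intro n
    induction n with
    | zero => simp
    | succ n ih =>
      rw [Nat.cast_succ]
      refine (f.add_le _ _).trans ?_
      rw [map_one, Nat.cast_succ]
      linarith
  rcases Int.eq_nat_or_neg n with ⟨m, rfl | rfl⟩
  · rw [Int.cast_natCast, Int.cast_natCast, Nat.abs_cast]
    exact hnat m
  · rw [Int.cast_neg, Int.cast_natCast, f.map_neg, Int.cast_neg, abs_neg, Int.cast_natCast,
      Nat.abs_cast]
    exact hnat m

/-- the size of a combination of products of powers, archimedean case -/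
lemma arch_sum_le {K : Type} [Field K] (f : AbsoluteValue K ℝ) {u : I → K} (hu0 : ∀ i, u i ≠ 0)
    (hu1 : ∀ i, 1 - u i ≠ 0) {κ : Type} [Fintype κ] (c : κ → ℤ) (E : κ → I × Bool → ℕ) {b : ℝ}
    (hb : ∀ m, ∑ r, (E m r : ℝ) * log (f (U u r)) ≤ b) :
    f (MvPolynomial.aeval u (∑ m, c m • mo (E m))) ≤ (∑ m, |(c m : ℝ)|) * exp b := by
  rw [map_sum]
  refine (f.sum_le _ _).trans ?_
  rw [Finset.sum_mul]
  apply Finset.sum_le_sum
  intro m _
  rw [map_zsmul, zsmul_eq_mul, map_mul, abv_mo f hu0 hu1]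
  exact mul_le_mul (arch_int_le f _) (Real.exp_le_exp.2 (hb m)) (Real.exp_pos _).le (abs_nonneg _)

/-- the size of a combination of products of powers, ultrametric case -/
lemma fin_sum_le {K : Type} [Field K] (f : AbsoluteValue K ℝ)
    (hna : ∀ a b, f (a + b) ≤ max (f a) (f b)) {u : I → K} (hu0 : ∀ i, u i ≠ 0)
    (hu1 : ∀ i, 1 - u i ≠ 0) {κ : Type} [Fintype κ] (c : κ → ℤ) (E : κ → I × Bool → ℕ) {b : ℝ}
    (hb : ∀ m, ∑ r, (E m r : ℝ) * log (f (U u r)) ≤ b) :
    f (MvPolynomial.aeval u (∑ m, c m • mo (E m))) ≤ exp b := by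
  rw [map_sum]
  apply na_sum_le f hna _ _ (Real.exp_pos _).le
  intro m _
  rw [map_zsmul, zsmul_eq_mul, map_mul, abv_mo f hu0 hu1]
  calc f (c m : K) * exp (∑ r, (E m r : ℝ) * log (f (U u r))) ≤ 1 * exp b :=
        mul_le_mul (na_int_le f hna _) (Real.exp_le_exp.2 (hb m)) (Real.exp_pos _).le zero_le_one
    _ = _ := one_mul _

section

variable {K : Type} [Field K] [NumberField K]

lemma PS_sum {κ : Type} (s : Finset κ) (T : Finset (FinitePlace K))
    (φ : κ → AbsoluteValue K ℝ → ℝ) : PS T (fun f => ∑ m ∈ s, φ m f) = ∑ m ∈ s, PS T (φ m) := by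
  classical
  induction s using Finset.induction_on with
  | empty =>
    simp only [Finset.sum_empty]
    unfold PS
    simp
  | insert m s hm ih =>
    simp only [Finset.sum_insert hm]
    rw [PS_add, ih]

/-- heights of `1 - u` -/
lemma height_U {u : I → K} {H : ℝ} (hH : ∀ i, logHeight₁ (u i) ≤ finrank ℚ K * H) (r : I × Bool) :
    logHeight₁ (U u r) ≤ finrank ℚ K * (H + 1) := by
  have hD : (0 : ℝ) ≤ finrank ℚ K := Nat.cast_nonneg _
  have hl1 : Real.log 2 < 1 := by linarith [Real.log_two_lt_d9]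
  obtain ⟨i, b⟩ := r
  cases b
  · rw [U_false]
    exact (hH i).trans (mul_le_mul_of_nonneg_left (by linarith) hD)
  · rw [U_true]
    have h1 := height_one_sub (u i)
    have h2 : (finrank ℚ K : ℝ) * log 2 ≤ finrank ℚ K * 1 := mul_le_mul_of_nonneg_left hl1.le hD
    have h3 := hH i
    rw [mul_add]
    linarith

/-- the total size of the bound for near-constant monomials -/
lemma PS_bound {d : ℕ} {u : I → K} {ξ : I × Bool → Fin d → ℝ} {H : ℝ}
    {t : AbsoluteValue K ℝ → Fin d → ℝ} {err : AbsoluteValue K ℝ → ℝ} {η : ℝ}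
    (hu0 : ∀ i, u i ≠ 0) (hu1 : ∀ i, 1 - u i ≠ 0) (hH0 : 0 ≤ H) (hn : Near u ξ H t err η)
    (hH : ∀ i, logHeight₁ (u i) ≤ finrank ℚ K * H) (s : I × Bool → ℝ) {C : ℝ} (hC : 0 ≤ C)
    (T : Finset (FinitePlace K)) (hT : ∀ r, ∀ v : FinitePlace K, v ∉ T → v (U u r) = 1) :
    PS T (fun f => ∑ r, s r * log (f (U u r)) + ∑ r, |log (f (U u r))| + C * (H * err f)) ≤
      finrank ℚ K * (Fintype.card (I × Bool) * (2 * (H + 1)) + C * (H * η)) := by
  rw [PS_add, PS_add, PS_sum, PS_sum]
  have h1 : ∑ r, PS T (fun f => s r * log (f (U u r))) = 0 := by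
    apply Finset.sum_eq_zero
    intro r _
    rw [PS_smul, PS_log (U_ne hu0 hu1 r) T (hT r), mul_zero]
  have h2 : ∑ r, PS T (fun f => |log (f (U u r))|) ≤
      ∑ _r : I × Bool, finrank ℚ K * (2 * (H + 1)) := by
    apply Finset.sum_le_sum
    intro r _
    have h3 := Pool.Agent.H883.ZP.PS_abs_le (U_ne hu0 hu1 r) T
    have h4 := height_U hH r
    linarith
  have h3 : PS T (fun f => C * (H * err f)) ≤ C * (H * (η * finrank ℚ K)) := by
    rw [PS_smul, PS_smul]
    exact mul_le_mul_of_nonneg_left (mul_le_mul_of_nonneg_left (hn.tot T) hH0) hC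
  rw [Finset.sum_const, Finset.card_univ, nsmul_eq_mul] at h2
  rw [h1]
  linarith

end

end Pool.Agent.H883.ZQ
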