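import Pool.Agent.H883.ZQ.Expo
import Pool.Agent.H883.ZQ.Near

set_option autoImplicit false
set_option linter.unusedSectionVars false

/-!
# Sets of coordinates of small rank
-/

namespace Pool.Agent.H883.ZQ

open Real NumberField Height Module Finset
open Pool.Agent.H489ZP

variable {I : Type} [Fintype I] [DecidableEq I]

/-- the local bound for near-constant monomials -/
noncomputable def bd {K : Type} [Field K] (u : I → K) (s : I × Bool → ℝ) (C H : ℝ)
    (err : AbsoluteValue K ℝ → ℝ) (f : AbsoluteValue K ℝ) : ℝ :=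
  ∑ r, s r * log (f (U u r)) + ∑ r, |log (f (U u r))| + C * (H * err f)

lemma expo_bound {K : Type} [Field K] {d : ℕ} {u : I → K} {ξ : I × Bool → Fin d → ℝ} {H : ℝ}
    {t : AbsoluteValue K ℝ → Fin d → ℝ} {err : AbsoluteValue K ℝ → ℝ} {f : AbsoluteValue K ℝ}
    (hf : ∀ r, |log (f (U u r)) - H * ∑ k, ξ r k * t f k| ≤ H * err f)
    {A : Finset I} {a : I → I × Bool → ℝ} (ha : ∀ i, a i ∈ rel ξ) {n : ℕ} {s : I × Bool → ℕ}
    (hs : ∀ (m : A → Fin n) r, |xm A a m r| ≤ s r) {X : ℝ}
    (hX : ∀ (m : A → Fin n) r, |xm A a m r| ≤ X) (m : A → Fin n) :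
    ∑ r, (ex A a s m r : ℝ) * log (f (U u r)) ≤
      bd u (fun r => (s r : ℝ)) (Fintype.card (I × Bool) * X) H err f := by
  have h1 := mono_log (xm_mem ha m) (hX m) (fun r => (s r : ℝ)) (fun r => log (f (U u r)))
    (t f) hf
  refine le_trans (le_of_eq ?_) h1
  refine Finset.sum_congr rfl fun r _ => ?_
  rw [ex_cast m (hs m r)]

/-- the identity at a point -/
lemma ident {K : Type} [Field K] {u : I → K} {i1 : I} (hu : u i1 ≠ 0) {τ j : ℕ}
    (F : Fin (τ + 1) → MvPolynomial I ℤ)
    (hid : ∑ t, F t * MvPolynomial.X i1 ^ ((t : ℕ) * j) = 0) (t0 : Fin (τ + 1))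
    (hmin : ∀ t < t0, F t = 0) :
    MvPolynomial.aeval u (F t0) =
      -∑ t ∈ Finset.univ.filter (fun t => t0 < t),
        MvPolynomial.aeval u (F t) * u i1 ^ (((t : ℕ) - t0) * j) := by
  classical
  have h1 := congrArg (MvPolynomial.aeval u) hid
  rw [map_sum, map_zero] at h1
  have h2 : ∑ t, MvPolynomial.aeval u (F t * MvPolynomial.X i1 ^ ((t : ℕ) * j)) =
      MvPolynomial.aeval u (F t0) * u i1 ^ ((t0 : ℕ) * j) +
      (∑ t ∈ Finset.univ.filter (fun t => t0 < t),
        MvPolynomial.aeval u (F t) * u i1 ^ (((t : ℕ) - t0) * j)) * u i1 ^ ((t0 : ℕ) * j) := by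
    rw [← Finset.sum_filter_add_sum_filter_not Finset.univ (fun t => t0 < t), add_comm]
    congr 1
    · rw [Finset.sum_eq_single t0]
      · rw [map_mul, map_pow, MvPolynomial.aeval_X]
      · intro t ht htt
        rw [Finset.mem_filter] at ht
        have : t < t0 := lt_of_le_of_ne (not_lt.1 ht.2) htt
        rw [hmin t this, zero_mul, map_zero]
      · intro h
        exact absurd (Finset.mem_filter.2 ⟨Finset.mem_univ t0, lt_irrefl t0⟩) h
    · rw [Finset.sum_mul]
      refine Finset.sum_congr rfl fun t ht => ?_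
      have ht' : (t0 : ℕ) < t := (Finset.mem_filter.1 ht).2
      rw [map_mul, map_pow, MvPolynomial.aeval_X, mul_assoc, ← pow_add, ← add_mul,
        Nat.sub_add_cancel ht'.le]
  rw [h2, ← add_mul] at h1
  rcases mul_eq_zero.1 h1 with h3 | h3
  · exact eq_neg_of_add_eq_zero_left h3
  · exact absurd h3 (pow_ne_zero _ hu)

/-- the identity, existence -/
lemma exists_ident [Nonempty I] {A : Finset I} {a : I → I × Bool → ℝ} {β : ℕ}
    (hβ : ∀ r, ∑ i, |a i r| ≤ β) (hA : Fintype.card I ≤ A.card) (i1 : I) (j : ℕ) :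
    ∃ (n τ : ℕ) (c : Fin (τ + 1) → (A → Fin n) → ℤ), c ≠ 0 ∧
      ∑ t, (∑ m, c t m • mo (ex A a (fun _ => β * n) m)) *
        MvPolynomial.X i1 ^ ((t : ℕ) * j) = 0 := by
  classical
  set q := Fintype.card I with hq
  have hq0 : 0 < q := Fintype.card_pos
  set τ : ℕ := (4 * β + 1) ^ q with hτ
  set n : ℕ := τ * j + 1 with hn
  set M : ℕ := (4 * β + 1) * n with hM
  have hn0 : 0 < n := by omega
  have hM0 : 0 < M := Nat.mul_pos (by omega) hn0
  have hbox : (bx (fun _ : I => M)).card < Fintype.card (Fin (τ + 1) × (A → Fin n)) := by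
    refine (card_bx_le _).trans_lt ?_
    rw [Finset.prod_const, Finset.card_univ, ← hq, Fintype.card_prod, Fintype.card_fin,
      Fintype.card_fun, Fintype.card_fin, Fintype.card_coe, hM, mul_pow, ← hτ]
    have h1 : n ^ q ≤ n ^ A.card := Nat.pow_le_pow_right hn0 hA
    have h2 : 0 < n ^ A.card := pow_pos hn0 _
    calc τ * n ^ q ≤ τ * n ^ A.card := Nat.mul_le_mul_left _ h1
      _ < (τ + 1) * n ^ A.card := Nat.mul_lt_mul_of_pos_right (Nat.lt_succ_self τ) h2
  have hs : ∀ (m : A → Fin n) r, |xm A a m r| ≤ ((β * n : ℕ) : ℝ) := by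
    intro m r
    push_cast
    exact xm_le m (hβ r)
  let P : Fin (τ + 1) × (A → Fin n) → MvPolynomial I ℤ := fun x =>
    mo (ex A a (fun _ => β * n) x.2) * MvPolynomial.X i1 ^ ((x.1 : ℕ) * j)
  obtain ⟨c, hc0, hc⟩ := exists_comb P (bx fun _ : I => M) hbox
  have hdeg : ∀ i, MvPolynomial.degreeOf i (∑ x, c x • P x) < M := by
    intro i
    apply degreeOf_comb_lt _ _ hM0
    intro x
    have h1 : MvPolynomial.degreeOf i (P x) ≤ 4 * (β * n) + τ * j := by
      refine (MvPolynomial.degreeOf_mul_le _ _ _).trans ?_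
      apply add_le_add
      · exact degreeOf_ex (s := fun _ => β * n) (fun _ => le_rfl) hs x.2 i
      · refine (MvPolynomial.degreeOf_pow_le _ _ _).trans ?_
        rw [MvPolynomial.degreeOf_X]
        have h3 : (x.1 : ℕ) * j ≤ τ * j := Nat.mul_le_mul_right _ (by omega)
        split_ifs
        · rw [mul_one]
          exact h3
        · rw [mul_zero]
          exact Nat.zero_le _
    refine h1.trans_lt ?_
    rw [hM, hn]
    have : 4 * (β * (τ * j + 1)) + τ * j < (4 * β + 1) * (τ * j + 1) := by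
      rw [add_mul, one_mul, mul_assoc]
      omega
    exact this
  have h0 := eq_zero_of_box hdeg hc
  refine ⟨n, τ, fun t m => c (t, m), ?_, ?_⟩
  · intro h
    apply hc0
    funext x
    exact congrFun (congrFun h x.1) x.2
  · rw [← h0, Fintype.sum_prod_type]
    refine Finset.sum_congr rfl fun t _ => ?_
    rw [Finset.sum_mul]
    refine Finset.sum_congr rfl fun m _ => ?_
    show _ = c (t, m) • (_ * _)
    rw [smul_mul_assoc]

/-- **Sets of coordinates of small rank.** -/
theorem LC (I : Type) [Fintype I] [DecidableEq I] [Nonempty I] {d : ℕ} (ξ : I × Bool → Fin d → ℝ)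
    (hrk : rk ξ Finset.univ ≤ Fintype.card I)
    (hT : ∀ T : Finset I, T.Nonempty → T ≠ Finset.univ → T.card + 1 ≤ rk ξ T) {κ : ℝ}
    (hκ : 0 < κ) :
    ∃ G : MvPolynomial I ℤ, G ≠ 0 ∧ ∃ η H0 : ℝ, 0 < η ∧
      ∀ (K : Type) [Field K] [NumberField K] (u : I → K), (∀ i, u i ≠ 0) → (∀ i, 1 - u i ≠ 0) →
      ∀ H : ℝ, H0 ≤ H → ∀ (t : AbsoluteValue K ℝ → Fin d → ℝ) (err : AbsoluteValue K ℝ → ℝ),
      Near u ξ H t err η → (∀ i, logHeight₁ (u i) ≤ finrank ℚ K * H) →
      (∀ i, finrank ℚ K * (κ * H) ≤ logHeight₁ (u i)) → MvPolynomial.aeval u G = 0 := by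
  classical
  obtain ⟨b, a, ha, hab⟩ := section_LC ξ hrk hT
  obtain ⟨β, hβ⟩ := exists_beta a
  let i1 : I := Classical.arbitrary I
  set N : ℝ := (Fintype.card (I × Bool) : ℝ) with hN
  have hN0 : 0 ≤ N := Nat.cast_nonneg _
  obtain ⟨j, hj⟩ := exists_nat_ge ((2 * N + 3) / κ)
  have hjκ : 2 * N + 3 ≤ j * κ := by
    rw [div_le_iff₀ hκ] at hj
    exact hj
  obtain ⟨n, τ, c, hc0, hid⟩ := exists_ident (A := Finset.univ) (a := a) hβ (by rw [Finset.card_univ]) i1 j
  set s : I × Bool → ℕ := fun _ => β * n with hsdef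
  have hs : ∀ (m : ↥(Finset.univ : Finset I) → Fin n) r, |xm Finset.univ a m r| ≤ s r := by
    intro m r
    rw [hsdef]
    push_cast
    exact xm_le m (hβ r)
  let F : Fin (τ + 1) → MvPolynomial I ℤ := fun t => ∑ m, c t m • mo (ex Finset.univ a s m)
  have hid' : ∑ t, F t * MvPolynomial.X i1 ^ ((t : ℕ) * j) = 0 := hid
  have hex : (Finset.univ.filter fun t => F t ≠ 0).Nonempty := by
    by_contra h0
    rw [Finset.not_nonempty_iff_eq_empty, Finset.filter_eq_empty_iff] at h0
    apply hc0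
    funext t
    have h1 : F t = 0 := by
      by_contra h
      exact h0 (Finset.mem_univ t) h
    exact mo_indep _ b (ex_inj (fun i _ k _ => hab i k) hs) (c t) h1
  set t0 := (Finset.univ.filter fun t => F t ≠ 0).min' hex with ht0
  have ht0F : F t0 ≠ 0 := (Finset.mem_filter.1 (Finset.min'_mem _ hex)).2
  have hmin : ∀ t < t0, F t = 0 := by
    intro t ht
    by_contra h
    exact absurd (Finset.min'_le _ t (Finset.mem_filter.2 ⟨Finset.mem_univ _, h⟩)) (not_le.2 ht)
  set Ct : ℝ := ∑ t, ∑ m, |(c t m : ℝ)| with hCt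
  have hCt0 : 0 ≤ Ct := Finset.sum_nonneg fun _ _ => Finset.sum_nonneg fun _ _ => abs_nonneg _
  set X : ℝ := β * n with hX
  have hX0 : 0 ≤ X := by positivity
  set η : ℝ := 1 / (N * X + 1) with hη
  have hη0 : 0 < η := by positivity
  have hη1 : N * X * η ≤ 1 := by
    rw [hη, mul_one_div, div_le_one (by positivity)]
    linarith
  refine ⟨F t0, ht0F, η, max 1 (2 * N + log (Ct + 1)), hη0, ?_⟩
  intro K _ _ u hu0 hu1 H hH0 t err hnear hH hκH
  have hH1 : 1 ≤ H := (le_max_left _ _).trans hH0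
  have hH2 : 2 * N + log (Ct + 1) ≤ H := (le_max_right _ _).trans hH0
  have hDpos : (0 : ℝ) < finrank ℚ K := by exact_mod_cast finrank_pos
  by_contra hz
  set z : K := MvPolynomial.aeval u (F t0) with hzdef
  have hz2 := ident (hu0 i1) F hid' t0 hmin
  rw [← hzdef] at hz2
  -- the places
  obtain ⟨T, hTT⟩ := exists_T (K := K) (insert z (Finset.univ.image (U u))) (by
    intro w hw
    rw [Finset.mem_insert, Finset.mem_image] at hw
    rcases hw with rfl | ⟨r, -, rfl⟩
    · exact hz
    · exact U_ne hu0 hu1 r)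
  have hTz : ∀ v : FinitePlace K, v ∉ T → v z = 1 := hTT z (Finset.mem_insert_self _ _)
  have hTU : ∀ r, ∀ v : FinitePlace K, v ∉ T → v (U u r) = 1 := fun r =>
    hTT _ (Finset.mem_insert_of_mem (Finset.mem_image_of_mem _ (Finset.mem_univ r)))
  have hloc : ∀ (f : AbsoluteValue K ℝ) (C1 : ℝ), 1 ≤ C1 →
      f z ≤ C1 * exp (bd u (fun r => (s r : ℝ)) (N * X) H err f) →
      (f (u i1) ≤ 1 → f z ≤ C1 * (exp (bd u (fun r => (s r : ℝ)) (N * X) H err f) *
        f (u i1) ^ j)) →
      log (f z) ≤ bd u (fun r => (s r : ℝ)) (N * X) H err f -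
        j * max 0 (-log (f (u i1))) + log C1 := by
    intro f C1 hC1 h1 h2
    have hfz := f.pos hz
    have hfu := f.pos (hu0 i1)
    rcases le_or_gt (f (u i1)) 1 with h | h
    · have h3 := h2 h
      rw [max_eq_right (by linarith [Real.log_nonpos hfu.le h])]
      have h4 := Real.log_le_log hfz h3
      rw [Real.log_mul (by positivity) (by positivity), Real.log_mul (by positivity)
        (by positivity), Real.log_exp, Real.log_pow] at h4
      linarith
    · rw [max_eq_left (by linarith [Real.log_pos h]), mul_zero, sub_zero]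
      have h4 := Real.log_le_log hfz h1
      rw [Real.log_mul (by positivity) (by positivity), Real.log_exp] at h4
      linarith
  have hpow : ∀ (f : AbsoluteValue K ℝ) (t : Fin (τ + 1)), t0 < t → f (u i1) ≤ 1 →
      f (u i1) ^ (((t : ℕ) - t0) * j) ≤ f (u i1) ^ j := by
    intro f t ht h
    apply pow_le_pow_of_le_one (f.nonneg _) h
    have ht' : (t0 : ℕ) < t := ht
    exact Nat.le_mul_of_pos_left _ (by omega)
  have hPS := PS_le T (fun f => log (f z))
    (fun f => bd u (fun r => (s r : ℝ)) (N * X) H err f + (-(j : ℝ)) * max 0 (-log (f (u i1))))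
    (log (Ct + 1)) (fun v => by
      have hb := expo_bound (hnear.inf v) ha hs (fun m r => xm_le m (hβ r))
      have h1 := hloc v.1 (Ct + 1) (by linarith) (by
        refine (arch_sum_le v.1 hu0 hu1 (c t0) _ hb).trans ?_
        apply mul_le_mul_of_nonneg_right _ (Real.exp_pos _).le
        have := Finset.single_le_sum (f := fun t => ∑ m, |(c t m : ℝ)|)
          (fun _ _ => Finset.sum_nonneg fun _ _ => abs_nonneg _) (Finset.mem_univ t0)
        linarith) (by
        intro h
        rw [hz2, v.1.map_neg]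
        refine (v.1.sum_le _ _).trans ?_
        calc ∑ t ∈ Finset.univ.filter (fun t => t0 < t), v.1 (MvPolynomial.aeval u (F t) *
              u i1 ^ (((t : ℕ) - t0) * j)) ≤
            ∑ t ∈ Finset.univ.filter (fun t => t0 < t), (∑ m, |(c t m : ℝ)|) *
              (exp (bd u (fun r => (s r : ℝ)) (N * X) H err v.1) * v.1 (u i1) ^ j) := by
              apply Finset.sum_le_sum
              intro t ht
              rw [map_mul, map_pow, ← mul_assoc]
              exact mul_le_mul (arch_sum_le v.1 hu0 hu1 (c t) _ hb)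
                (hpow v.1 t (Finset.mem_filter.1 ht).2 h) (pow_nonneg (v.1.nonneg _) _)
                (mul_nonneg (Finset.sum_nonneg fun _ _ => abs_nonneg _) (Real.exp_pos _).le)
          _ ≤ ∑ t, (∑ m, |(c t m : ℝ)|) *
              (exp (bd u (fun r => (s r : ℝ)) (N * X) H err v.1) * v.1 (u i1) ^ j) := by
              apply Finset.sum_le_sum_of_subset_of_nonneg (Finset.subset_univ _)
              intro t _ _
              exact mul_nonneg (Finset.sum_nonneg fun _ _ => abs_nonneg _)
                (mul_nonneg (Real.exp_pos _).le (pow_nonneg (v.1.nonneg _) _))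
          _ ≤ _ := by
              rw [← Finset.sum_mul]
              apply mul_le_mul_of_nonneg_right _
                (mul_nonneg (Real.exp_pos _).le (pow_nonneg (v.1.nonneg _) _))
              linarith)
      linarith) (fun v => by
      have hna : ∀ a b, v.1 (a + b) ≤ max (v.1 a) (v.1 b) := fun a b => v.add_le a b
      have hb := expo_bound (hnear.fin v) ha hs (fun m r => xm_le m (hβ r))
      have h1 := hloc v.1 1 le_rfl (by
        rw [one_mul]
        exact fin_sum_le v.1 hna hu0 hu1 (c t0) _ hb) (by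
        intro h
        rw [hz2, v.1.map_neg, one_mul]
        apply na_sum_le v.1 hna _ _ (mul_nonneg (Real.exp_pos _).le (pow_nonneg (v.1.nonneg _) _))
        intro t ht
        rw [map_mul, map_pow]
        exact mul_le_mul (fin_sum_le v.1 hna hu0 hu1 (c t) _ hb)
                (hpow v.1 t (Finset.mem_filter.1 ht).2 h) (pow_nonneg (v.1.nonneg _) _)
                (Real.exp_pos _).le)
      rw [Real.log_one] at h1
      linarith)
  rw [PS_log hz T hTz, PS_add, PS_smul, PS_neg (z := u i1) T (hTU (i1, false))] at hPS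
  have hb := PS_bound hu0 hu1 (by linarith) hnear hH (fun r => (s r : ℝ)) (C := N * X)
    (by positivity) T hTU
  have hb' : PS T (bd u (fun r => (s r : ℝ)) (N * X) H err) ≤
      finrank ℚ K * (N * (2 * (H + 1)) + N * X * (H * η)) := hb
  have hk := hκH i1
  have h1 : (j : ℝ) * (finrank ℚ K * (κ * H)) ≤ j * logHeight₁ (u i1) :=
    mul_le_mul_of_nonneg_left hk (Nat.cast_nonneg _)
  have h2 : N * X * (H * η) ≤ H := by
    have : N * X * (H * η) = (N * X * η) * H := by ring
    rw [this]
    nlinarith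
  have h3 : (finrank ℚ K : ℝ) * (N * (2 * (H + 1)) + N * X * (H * η)) ≤
      finrank ℚ K * (N * (2 * (H + 1)) + H) := mul_le_mul_of_nonneg_left (by linarith) hDpos.le
  have h4 : (2 * N + 3) * H ≤ j * κ * H := mul_le_mul_of_nonneg_right hjκ (by linarith)
  have h5 : (finrank ℚ K : ℝ) * ((2 * N + 3) * H) ≤ j * (finrank ℚ K * (κ * H)) := by
    have : (j : ℝ) * (finrank ℚ K * (κ * H)) = finrank ℚ K * (j * κ * H) := by ring
    rw [this]
    exact mul_le_mul_of_nonneg_left h4 hDpos.le
  have h6 : 0 ≤ (finrank ℚ K : ℝ) * ((N * (2 * (H + 1)) + H) - (2 * N + 3) * H + log (Ct + 1)) := by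
    linarith
  have h7 : (N * (2 * (H + 1)) + H) - (2 * N + 3) * H + log (Ct + 1) < 0 := by
    linarith
  have h8 := mul_neg_of_pos_of_neg hDpos h7
  linarith

end Pool.Agent.H883.ZQ
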