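import Pool.Agent.H883.ZQ.Trans

set_option autoImplicit false
set_option linter.unusedSectionVars false

/-!
# Sections of a space of real relations
-/

namespace Pool.Agent.H883.ZQ

open Module Submodule

variable {I : Type} [Fintype I] [DecidableEq I]

/-- the vectors whose coordinates with indices in `T` vanish -/
def van (T : Finset I) : Submodule ℝ (I × Bool → ℝ) where
  carrier := {x | ∀ i ∈ T, ∀ b, x (i, b) = 0}
  add_mem' := by
    intro x y hx hy i hi b
    rw [Pi.add_apply, hx i hi b, hy i hi b, add_zero]
  zero_mem' := fun _ _ _ => rfl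
  smul_mem' := by
    intro c x hx i hi b
    rw [Pi.smul_apply, hx i hi b, smul_zero]

lemma mem_van {T : Finset I} {x : I × Bool → ℝ} : x ∈ van T ↔ ∀ i ∈ T, ∀ b, x (i, b) = 0 := Iff.rfl

/-- **Sections.** -/
theorem exists_section (N : Submodule ℝ (I × Bool → ℝ))
    (hN : ∀ T : Finset I, finrank ℝ (N ⊓ van T : Submodule ℝ (I × Bool → ℝ)) + T.card ≤
      Fintype.card I) :
    ∃ (b : I → Bool) (A : Finset I) (a : I → I × Bool → ℝ), A.card = finrank ℝ N ∧
      (∀ i, a i ∈ N) ∧ ∀ i ∈ A, ∀ k ∈ A, a i (k, b k) = if i = k then 1 else 0 := by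
  classical
  let fn : I → Bool → Dual ℝ N := fun i b => (LinearMap.proj (i, b)).comp N.subtype
  have hfn : ∀ i b (n : N), fn i b n = n.1 (i, b) := fun _ _ _ => rfl
  let x : I → Dual ℝ N := fun i => fn i false
  let y : I → Dual ℝ N := fun i => fn i true
  have hdual : finrank ℝ (Dual ℝ N) = finrank ℝ N := Subspace.dual_finrank_eq
  have hsp : ∀ T : Finset I, finrank ℝ (Dual ℝ N) + T.card ≤
      finrank ℝ (⊥ ⊔ sp x y T : Submodule ℝ (Dual ℝ N)) + Fintype.card I := by
    intro T
    rw [bot_sup_eq, hdual]
    have h1 := Subspace.finrank_add_finrank_dualCoannihilator_eq (sp x y T)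
    have h2 : finrank ℝ ((sp x y T).dualCoannihilator) ≤
        finrank ℝ (N ⊓ van T : Submodule ℝ (I × Bool → ℝ)) := by
      rw [← finrank_map_subtype_eq N]
      apply Submodule.finrank_mono
      intro z hz
      obtain ⟨n, hn, rfl⟩ := Submodule.mem_map.1 hz
      refine Submodule.mem_inf.2 ⟨n.2, ?_⟩
      intro i hi b
      rw [Submodule.mem_dualCoannihilator] at hn
      cases b
      · exact hn (x i) (mem_sp_left hi)
      · exact hn (y i) (mem_sp_right hi)
    have h3 := hN T
    omega
  obtain ⟨b, hb⟩ := exists_transversal x y ⊤ Finset.univ ⊥ le_top (by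
    intro T _
    rw [finrank_top, Finset.card_univ]
    exact hsp T)
  rw [bot_sup_eq, Finset.coe_univ, Set.image_univ] at hb
  have hf : ∀ i, (if b i then y i else x i) = fn i (b i) := by
    intro i
    cases hbi : b i
    · rfl
    · rfl
  simp only [hf] at hb
  obtain ⟨κ, a, hainj, haspan, hali⟩ := exists_linearIndependent' ℝ fun i => fn i (b i)
  rw [hb] at haspan
  have : Finite κ := Finite.of_injective a hainj
  let _ := Fintype.ofFinite κ
  let B : Basis κ ℝ (Dual ℝ N) := Basis.mk hali haspan.ge
  have hcard : Fintype.card κ = finrank ℝ N := by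
    rw [← hdual, finrank_eq_card_basis B]
  let Φ : N →ₗ[ℝ] (κ → ℝ) := LinearMap.pi fun k => fn (a k) (b (a k))
  have hΦ : Function.Injective Φ := by
    rw [injective_iff_map_eq_zero]
    intro n hn
    rw [← Module.forall_dual_apply_eq_zero_iff ℝ]
    intro g
    have hg : g ∈ span ℝ (Set.range ((fun i => fn i (b i)) ∘ a)) := by
      rw [haspan]
      trivial
    induction hg using Submodule.span_induction with
    | mem g hg =>
      obtain ⟨k, rfl⟩ := hg
      exact congrFun hn k
    | zero => rfl
    | add g g' _ _ h h' => rw [LinearMap.add_apply, h, h', add_zero]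
    | smul c g _ h => rw [LinearMap.smul_apply, h, smul_zero]
  have hΦs : Function.Surjective Φ := by
    rw [← LinearMap.injective_iff_surjective_of_finrank_eq_finrank (by
      rw [Module.finrank_fintype_fun_eq_card, hcard])]
    exact hΦ
  choose w hw using hΦs
  let A : Finset I := Finset.univ.image a
  refine ⟨b, A, fun i => if h : ∃ k, a k = i then (w (Pi.single h.choose 1)).1 else 0, ?_, ?_, ?_⟩
  · rw [Finset.card_image_of_injective _ hainj, Finset.card_univ, hcard]
  · intro i
    dsimp only
    split_ifs with h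
    · exact (w _).2
    · exact N.zero_mem
  · intro i hi k hk
    obtain ⟨i, -, rfl⟩ := Finset.mem_image.1 hi
    obtain ⟨k, -, rfl⟩ := Finset.mem_image.1 hk
    have h : ∃ k, a k = a i := ⟨i, rfl⟩
    have hc : h.choose = i := hainj h.choose_spec
    dsimp only
    rw [dif_pos h, hc]
    have := congrFun (hw (Pi.single i 1)) k
    rw [← hfn]
    rw [show fn (a k) (b (a k)) (w (Pi.single i 1)) = Φ (w (Pi.single i 1)) k from rfl, this,
      Pi.single_apply]
    by_cases hik : i = k
    · rw [if_pos hik.symm, if_pos (by rw [hik])]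
    · rw [if_neg (fun h => hik h.symm), if_neg (fun h => hik (hainj h))]

end Pool.Agent.H883.ZQ
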