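import Pool.Agent.H883.ZQ.NF
import Pool.Agent.H883.ZP.Ext

set_option autoImplicit false
set_option linter.unusedSectionVars false

/-!
# Products of lines
-/

namespace Pool.Agent.H883.ZQ

open Real NumberField Height Module
open Pool.Agent.H883.ZP (mon Codim relW finrank_relW log_mem_relW height_ext)

/-- the absolute logarithmic height -/
noncomputable def ht {K : Type} [Field K] [NumberField K] (x : K) : ℝ :=
  logHeight₁ x / finrank ℚ K

section ht

variable {K : Type} [Field K] [NumberField K]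

lemma finrank_pos' : (0 : ℝ) < finrank ℚ K := by exact_mod_cast finrank_pos

lemma logHeight_eq (x : K) : logHeight₁ x = finrank ℚ K * ht x := by
  have : (0 : ℝ) < finrank ℚ K := finrank_pos'
  unfold ht
  field_simp

lemma ht_nonneg (x : K) : 0 ≤ ht x :=
  div_nonneg (zero_le_logHeight₁ _) (Nat.cast_nonneg _)

lemma ht_mul_le (x y : K) : ht (x * y) ≤ ht x + ht y := by
  have := logHeight₁_mul_le x y
  unfold ht
  rw [← add_div]
  exact div_le_div_of_nonneg_right this (Nat.cast_nonneg _)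

lemma ht_inv (x : K) : ht x⁻¹ = ht x := by
  unfold ht
  rw [logHeight₁_inv]

end ht

/-- the exchange of the coordinates -/
def swp {c : ℕ} (r : Fin c × Bool) : Fin c ⊕ Fin c := if r.2 then Sum.inr r.1 else Sum.inl r.1

/-- the map on logarithms -/
def qs (c : ℕ) : ((Fin c ⊕ Fin c) → ℝ) →ₗ[ℝ] (Fin c × Bool → ℝ) where
  toFun x r := x (swp r)
  map_add' _ _ := rfl
  map_smul' _ _ := rfl

/-- the polynomial `G(a_1 X_1, …, a_c X_c)` -/
noncomputable def scaleG {K0 : Type} [Field K0] {c : ℕ} (a : Fin c → K0)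
    (G : MvPolynomial (Fin c) ℤ) : MvPolynomial (Fin c) K0 :=
  MvPolynomial.aeval (fun i => MvPolynomial.C (a i) * MvPolynomial.X i) G

lemma aeval_scaleG {K0 K : Type} [Field K0] [Field K] [Algebra K0 K] {c : ℕ} (a : Fin c → K0)
    (G : MvPolynomial (Fin c) ℤ) (x : Fin c → K) :
    MvPolynomial.aeval x (scaleG a G) =
      MvPolynomial.aeval (fun i => algebraMap K0 K (a i) * x i) G := by
  unfold scaleG
  rw [MvPolynomial.aeval_def (R := ℤ), MvPolynomial.aeval_def (R := ℤ), MvPolynomial.eval₂_eq',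
    MvPolynomial.eval₂_eq', map_sum]
  refine Finset.sum_congr rfl fun α _ => ?_
  rw [map_mul, map_prod]
  congr 1
  · simp
  · refine Finset.prod_congr rfl fun i _ => ?_
    rw [map_pow, map_mul, MvPolynomial.aeval_X, MvPolynomial.aeval_C]

lemma scaleG_ne {K0 : Type} [Field K0] [CharZero K0] {c : ℕ} {a : Fin c → K0}
    (ha : ∀ i, a i ≠ 0) {G : MvPolynomial (Fin c) ℤ} (hG : G ≠ 0) : scaleG a G ≠ 0 := by
  intro h
  obtain ⟨w, hw⟩ : ∃ w : Fin c → ℤ, MvPolynomial.eval w G ≠ 0 := by
    by_contra hcon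
    push Not at hcon
    exact hG (MvPolynomial.funext fun w => by rw [hcon w, map_zero])
  have h1 := aeval_scaleG (K := K0) a G (fun i => (a i)⁻¹ * (w i : K0))
  rw [h, map_zero] at h1
  have h2 : (fun i => algebraMap K0 K0 (a i) * ((a i)⁻¹ * (w i : K0))) = fun i => (w i : K0) := by
    funext i
    rw [Algebra.algebraMap_self_apply, mul_inv_cancel_left₀ (ha i)]
  rw [h2] at h1
  have h3 : MvPolynomial.aeval (fun i => (w i : K0)) G = ((MvPolynomial.eval w G : ℤ) : K0) := by
    rw [MvPolynomial.aeval_def, MvPolynomial.eval₂_eq', MvPolynomial.eval_eq']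
    push_cast
    rfl
  rw [h3] at h1
  exact hw (by exact_mod_cast h1.symm)

section

variable {K0 : Type} [Field K0] [NumberField K0]

/-- **Products of lines.** -/
theorem linesCmp (c : ℕ) (a b : Fin c → K0) (ha : ∀ i, a i ≠ 0) (hb : ∀ i, b i ≠ 0) (Λ : ℝ) :
    ∃ G : MvPolynomial (Fin c) K0, G ≠ 0 ∧ ∃ ε : ℝ, 0 < ε ∧
      ∀ (K : Type) [Field K] [NumberField K] [Algebra K0 K] (P g e : Fin c ⊕ Fin c → K),
        (∀ r, P r ≠ 0) →
        (∀ i, algebraMap K0 K (a i) * P (Sum.inl i) + algebraMap K0 K (b i) * P (Sum.inr i) = 1) →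
        (∀ r, P r = g r * e r) → Codim g (c + 1) → (∀ r, ht (e r) ≤ ε) →
        (∀ i j, ht (P (Sum.inl i)) ≤ Λ ∨ ht (P (Sum.inl j)) ≤ Λ * ht (P (Sum.inl i))) →
        MvPolynomial.aeval (fun i => P (Sum.inl i)) G = 0 := by
  classical
  let s0 : Fin c × Bool → K0 := fun r => if r.2 then b r.1 else a r.1
  have hs0 : ∀ r, s0 r ≠ 0 := by
    rintro ⟨i, x⟩
    cases x
    · exact ha i
    · exact hb i
  choose C hC using fun r => height_ext (s0 r)
  set Cs : ℝ := ∑ r, |C r| with hCs
  have hCs0 : 0 ≤ Cs := Finset.sum_nonneg fun _ _ => abs_nonneg _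
  have hBs : ∀ (K : Type) [Field K] [NumberField K] [Algebra K0 K] (r : Fin c × Bool),
      logHeight₁ (algebraMap K0 K (s0 r)) ≤ finrank ℚ K * Cs := by
    intro K _ _ _ r
    refine (hC r K).trans (mul_le_mul_of_nonneg_left ?_ (by positivity))
    exact (le_abs_self _).trans (Finset.single_le_sum (f := fun r => |C r|)
      (fun _ _ => abs_nonneg _) (Finset.mem_univ r))
  set k := Fintype.card (K0 →+* ℂ) with hk
  let eqv : (K0 →+* ℂ) ≃ Fin k := Fintype.equivFin _
  let P0 : Fin k → Fin c × Bool → ℝ := fun i r => log ‖(eqv.symm i) (s0 r)‖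
  set Λ2 : ℝ := (1 + |Λ|) * (1 + Cs) + 1 with hΛ2
  obtain ⟨G, hG0, ε, hε, hG⟩ := nf3 (Fin c) Cs Λ2 k
  refine ⟨scaleG a G, scaleG_ne ha hG0, ε, hε, ?_⟩
  intro K _ _ _ P g e hP hline hge hcod heε hcmp
  have hDpos : (0 : ℝ) < finrank ℚ K := finrank_pos'
  rw [aeval_scaleG]
  have ha' : ∀ i, algebraMap K0 K (a i) ≠ 0 := fun i => (map_ne_zero _).2 (ha i)
  have hb' : ∀ i, algebraMap K0 K (b i) ≠ 0 := fun i => (map_ne_zero _).2 (hb i)
  have hg : ∀ r, g r ≠ 0 := fun r h => hP r (by rw [hge, h, zero_mul])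
  have he : ∀ r, e r ≠ 0 := fun r h => hP r (by rw [hge, h, mul_zero])
  have h1 : ∀ i, 1 - algebraMap K0 K (a i) * P (Sum.inl i) =
      algebraMap K0 K (b i) * P (Sum.inr i) := fun i => by rw [← hline i]; ring
  have hfin : finrank ℝ ((relW g).map (qs c)) < c := by
    refine lt_of_le_of_lt (Submodule.finrank_map_le _ _) ?_
    have := finrank_relW hcod
    rw [Fintype.card_sum, Fintype.card_fin] at this
    omega
  have hU : ∀ r : Fin c × Bool, U (fun i => algebraMap K0 K (a i) * P (Sum.inl i)) r =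
      algebraMap K0 K (s0 r) * P (swp r) := by
    rintro ⟨i, x⟩
    cases x
    · rfl
    · rw [U_true, h1]
      rfl
  have hmem : ∀ (v : K →*₀ ℝ), (∀ x, x ≠ 0 → 0 < v x) →
      lw v (fun i => algebraMap K0 K (a i) * P (Sum.inl i)) (fun r => algebraMap K0 K (s0 r))
        (fun r => e (swp r)) ∈ (relW g).map (qs c) := by
    intro v hv
    refine Submodule.mem_map.2 ⟨fun l => Real.log (v (g l)), log_mem_relW v hv hg, ?_⟩
    funext r
    show Real.log (v (g (swp r))) = _
    unfold lw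
    rw [hU, hge, map_mul, map_mul, Real.log_mul (hv _ ((map_ne_zero _).2 (hs0 r))).ne'
      (mul_pos (hv _ (hg _)) (hv _ (he _))).ne',
      Real.log_mul (hv _ (hg _)).ne' (hv _ (he _)).ne']
    ring
  have hta : ∀ i, ht (algebraMap K0 K (a i)) ≤ Cs := by
    intro i
    have := hBs K (i, false)
    rw [logHeight_eq] at this
    exact le_of_mul_le_mul_left this hDpos
  refine hG K (fun i => algebraMap K0 K (a i) * P (Sum.inl i))
    (fun i => mul_ne_zero (ha' i) (hP _))
    (fun i => by rw [h1]; exact mul_ne_zero (hb' i) (hP _))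
    (fun r => algebraMap K0 K (s0 r)) (fun r => e (swp r))
    (fun r => (map_ne_zero _).2 (hs0 r)) (fun r => he _) (hBs K) (fun r => ?_) P0 ?_
    ((relW g).map (qs c)) ?_ ?_ ?_ ?_
  · rw [logHeight_eq]
    exact mul_le_mul_of_nonneg_left (heε _) hDpos.le
  · intro σ
    refine ⟨eqv (σ.comp (algebraMap K0 K)), fun r => ?_⟩
    show _ = log ‖(eqv.symm (eqv (σ.comp (algebraMap K0 K)))) (s0 r)‖
    rw [Equiv.symm_apply_apply]
    rfl
  · rw [Fintype.card_fin]
    exact hfin
  · intro σ
    exact hmem ⟨⟨fun x => ‖σ x‖, by simp⟩, by simp, fun x y => by simp⟩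
      (fun x hx => norm_pos_iff.2 ((map_ne_zero σ).2 hx))
  · intro v
    exact hmem ⟨⟨fun x => v x, map_zero v⟩, map_one v, map_mul v⟩
      (fun x hx => FinitePlace.pos_iff.2 hx)
  · intro i j
    have hlow : ∀ i, ht (P (Sum.inl i)) ≤ ht (algebraMap K0 K (a i) * P (Sum.inl i)) + Cs := by
      intro i
      have h2 : P (Sum.inl i) = (algebraMap K0 K (a i))⁻¹ *
          (algebraMap K0 K (a i) * P (Sum.inl i)) := by
        rw [inv_mul_cancel_left₀ (ha' i)]
      have h3 := ht_mul_le (algebraMap K0 K (a i))⁻¹ (algebraMap K0 K (a i) * P (Sum.inl i))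
      rw [← h2, ht_inv] at h3
      have := hta i
      linarith
    have hup : ∀ i, ht (algebraMap K0 K (a i) * P (Sum.inl i)) ≤ ht (P (Sum.inl i)) + Cs := by
      intro i
      have h3 := ht_mul_le (algebraMap K0 K (a i)) (P (Sum.inl i))
      have := hta i
      linarith
    have hΛ0 := abs_nonneg Λ
    have hΛ1 := le_abs_self Λ
    show logHeight₁ (algebraMap K0 K (a i) * P (Sum.inl i)) ≤ _ ∨
      logHeight₁ (algebraMap K0 K (a j) * P (Sum.inl j)) ≤
        Λ2 * logHeight₁ (algebraMap K0 K (a i) * P (Sum.inl i))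
    rw [logHeight_eq, logHeight_eq (algebraMap K0 K (a j) * P (Sum.inl j))]
    set hi := ht (algebraMap K0 K (a i) * P (Sum.inl i)) with hhi
    set hj := ht (algebraMap K0 K (a j) * P (Sum.inl j)) with hhj
    have hi0 : 0 ≤ hi := ht_nonneg _
    by_cases hbig : hi ≤ Λ2
    · left
      exact mul_le_mul_of_nonneg_left hbig hDpos.le
    · right
      push Not at hbig
      have hΛ21 : 1 ≤ Λ2 := by
        rw [hΛ2]
        have : 0 ≤ (1 + |Λ|) * (1 + Cs) := by positivity
        linarith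
      rcases hcmp i j with h | h
      · exfalso
        have h2 := hup i
        have h3 : |Λ| + Cs ≤ (1 + |Λ|) * (1 + Cs) := by nlinarith
        rw [hΛ2] at hbig
        linarith
      · have h2 := hup j
        have h3 := hlow i
        have h4 : Λ * ht (P (Sum.inl i)) ≤ |Λ| * (hi + Cs) :=
          (mul_le_mul_of_nonneg_right hΛ1 (ht_nonneg _)).trans
            (mul_le_mul_of_nonneg_left h3 hΛ0)
        have h5 : hj ≤ |Λ| * (hi + Cs) + Cs := by linarith
        have h6 : hj ≤ Λ2 * hi := by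
          rw [hΛ2]
          have h7 : |Λ| * Cs ≤ |Λ| * Cs * hi := by
            have : 0 ≤ |Λ| * Cs := by positivity
            nlinarith
          have h8 : Cs ≤ Cs * hi := by nlinarith
          nlinarith
        calc finrank ℚ K * hj ≤ finrank ℚ K * (Λ2 * hi) :=
              mul_le_mul_of_nonneg_left h6 hDpos.le
          _ = _ := by ring

end

end Pool.Agent.H883.ZQ
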