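import Mathlib

set_option autoImplicit false
set_option linter.unusedSectionVars false

/-!
# Products of powers of `X_i` and `1 - X_i`
-/

namespace Pool.Agent.H883.ZQ

open MvPolynomial

variable {I : Type} [Fintype I] [DecidableEq I]

/-- a product of powers of the polynomials `X_i` and `1 - X_i` -/
noncomputable def mo (e : I × Bool → ℕ) : MvPolynomial I ℤ :=
  ∏ i, (X i ^ e (i, false) * (1 - X i) ^ e (i, true))

/-- exponents as a finitely supported function -/
noncomputable def fs (f : I → ℕ) : I →₀ ℕ := Finsupp.equivFunOnFinite.symm f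

@[simp] lemma fs_apply (f : I → ℕ) (i : I) : fs f i = f i := rfl

lemma prod_X_pow (f : I → ℕ) : ∏ i, (X i : MvPolynomial I ℤ) ^ f i = monomial (fs f) 1 := by
  rw [monomial_eq, C_1, one_mul, Finsupp.prod_fintype _ _ (fun i => pow_zero _)]
  rfl

lemma mo_eq (e : I × Bool → ℕ) :
    mo e = monomial (fs fun i => e (i, false)) 1 * ∏ i, (1 - X i : MvPolynomial I ℤ) ^ e (i, true) := by
  rw [mo, Finset.prod_mul_distrib, prod_X_pow]

/-- the constant coefficient of the second factor -/
lemma coeff_zero_prod (f : I → ℕ) : coeff 0 (∏ i, (1 - X i : MvPolynomial I ℤ) ^ f i) = 1 := by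
  rw [← constantCoeff_eq, map_prod]
  simp

lemma coeff_mo_of_not_le {e : I × Bool → ℕ} {α : I → ℕ} (h : ¬ ∀ i, e (i, false) ≤ α i) :
    coeff (fs α) (mo e) = 0 := by
  rw [mo_eq, coeff_monomial_mul', if_neg]
  intro hle
  exact h fun i => hle i

lemma coeff_mo_self (e : I × Bool → ℕ) : coeff (fs fun i => e (i, false)) (mo e) = 1 := by
  rw [mo_eq, coeff_monomial_mul', if_pos le_rfl, tsub_self, coeff_zero_prod, one_mul]

/-- linear independence, first form -/
lemma mo_indep0 {κ : Type} [Fintype κ] (E : κ → I × Bool → ℕ)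
    (hinj : Function.Injective fun m i => E m (i, false)) (c : κ → ℤ)
    (h : ∑ m, c m • mo (E m) = 0) : c = 0 := by
  classical
  by_contra hc
  have hne : (Finset.univ.filter fun m => c m ≠ 0).Nonempty := by
    by_contra h0
    rw [Finset.not_nonempty_iff_eq_empty, Finset.filter_eq_empty_iff] at h0
    apply hc
    funext m
    by_contra hm
    exact h0 (Finset.mem_univ m) hm
  obtain ⟨m0, hm0, hmin⟩ := Finset.exists_min_image _ (fun m => ∑ i, E m (i, false)) hne
  have hcm0 := (Finset.mem_filter.1 hm0).2
  have h1 := congrArg (coeff (fs fun i => E m0 (i, false))) h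
  rw [coeff_sum, coeff_zero] at h1
  rw [Finset.sum_eq_single m0 (fun m _ hm => ?_) (fun h => absurd (Finset.mem_univ _) h)] at h1
  · rw [coeff_smul, coeff_mo_self, smul_eq_mul, mul_one] at h1
    exact hcm0 h1
  · rw [coeff_smul]
    by_cases hcm : c m = 0
    · rw [hcm, zero_smul]
    · rw [coeff_mo_of_not_le, smul_zero]
      intro hle
      have h2 := hmin m (Finset.mem_filter.2 ⟨Finset.mem_univ _, hcm⟩)
      have h3 : ∀ i, E m (i, false) = E m0 (i, false) := by
        intro i
        have h4 := (Finset.sum_eq_sum_iff_of_le (fun i _ => hle i)).1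
          (le_antisymm (Finset.sum_le_sum fun i _ => hle i) h2)
        exact h4 i (Finset.mem_univ i)
      exact hm (hinj (funext h3))

/-- the substitution of `1 - X i` for `X i` -/
noncomputable def flip (b : I → Bool) : MvPolynomial I ℤ →ₐ[ℤ] MvPolynomial I ℤ :=
  aeval fun i => if b i then 1 - X i else X i

lemma flip_mo (b : I → Bool) (e : I × Bool → ℕ) :
    flip b (mo e) = mo fun r => e (r.1, xor r.2 (b r.1)) := by
  unfold mo
  rw [map_prod]
  refine Finset.prod_congr rfl fun i _ => ?_
  rw [map_mul, map_pow, map_pow, map_sub, map_one, flip, aeval_X]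
  cases hb : b i
  · simp [hb]
  · simp only [hb, if_true, Bool.false_xor, Bool.true_xor, Bool.not_true]
    rw [mul_comm, sub_sub_cancel]

/-- **Linear independence.** -/
theorem mo_indep {κ : Type} [Fintype κ] (E : κ → I × Bool → ℕ) (b : I → Bool)
    (hinj : Function.Injective fun m i => E m (i, b i)) (c : κ → ℤ)
    (h : ∑ m, c m • mo (E m) = 0) : c = 0 := by
  have h1 := congrArg (flip b) h
  rw [map_sum, map_zero] at h1
  apply mo_indep0 (fun m r => E m (r.1, xor r.2 (b r.1))) (by
    simpa using hinj) c
  rw [← h1]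
  refine Finset.sum_congr rfl fun m _ => ?_
  rw [map_zsmul, flip_mo]

/-- degrees -/
lemma degreeOf_mo (e : I × Bool → ℕ) (i : I) :
    degreeOf i (mo e) ≤ e (i, false) + e (i, true) := by
  unfold mo
  refine (degreeOf_prod_le _ _ _).trans ?_
  rw [Finset.sum_eq_single i]
  · refine (degreeOf_mul_le _ _ _).trans ?_
    apply add_le_add
    · refine (degreeOf_pow_le _ _ _).trans ?_
      rw [degreeOf_X]
      simp
    · refine (degreeOf_pow_le _ _ _).trans ?_
      have : degreeOf i (1 - X i : MvPolynomial I ℤ) ≤ 1 := by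
        refine (degreeOf_sub_le _ _ _).trans ?_
        rw [degreeOf_X]
        simp
      calc e (i, true) * degreeOf i (1 - X i : MvPolynomial I ℤ) ≤ e (i, true) * 1 :=
            Nat.mul_le_mul_left _ this
        _ = _ := mul_one _
  · intro j _ hj
    have h1 : degreeOf i (X j ^ e (j, false) * (1 - X j) ^ e (j, true) : MvPolynomial I ℤ) ≤ 0 := by
      refine (degreeOf_mul_le _ _ _).trans ?_
      have h2 : degreeOf i (X j : MvPolynomial I ℤ) = 0 := by
        rw [degreeOf_X, if_neg hj.symm]
      have h3 : degreeOf i (1 - X j : MvPolynomial I ℤ) = 0 := by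
        refine Nat.le_zero.1 ((degreeOf_sub_le _ _ _).trans ?_)
        rw [h2]
        simp
      refine (add_le_add (degreeOf_pow_le _ _ _) (degreeOf_pow_le _ _ _)).trans ?_
      rw [h2, h3]
      simp
    omega
  · intro h
    exact absurd (Finset.mem_univ i) h

lemma aeval_mo {F : Type*} [CommRing F] (u : I → F) (e : I × Bool → ℕ) :
    aeval u (mo e) = ∏ i, (u i ^ e (i, false) * (1 - u i) ^ e (i, true)) := by
  unfold mo
  rw [map_prod]
  refine Finset.prod_congr rfl fun i _ => ?_
  rw [map_mul, map_pow, map_pow, map_sub, map_one, aeval_X]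

end Pool.Agent.H883.ZQ
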