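import Pool.Agent.H883.ZQ.Cpt
import Pool.Agent.H883.ZP.Basis

set_option autoImplicit false
set_option linter.unusedSectionVars false

/-!
# The theorem over number fields
-/

namespace Pool.Agent.H883.ZQ

open Real NumberField Height Module Finset
open Pool.Agent.H489ZP

variable {ι : Type} [Fintype ι] [DecidableEq ι]

/-- a diagonal map -/
def dg (g : ι × Bool → ℝ) : (ι × Bool → ℝ) →ₗ[ℝ] (ι × Bool → ℝ) where
  toFun x r := g r * x r
  map_add' x y := by
    funext r
    simp only [Pi.add_apply, mul_add]
  map_smul' c x := by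
    funext r
    simp only [Pi.smul_apply, smul_eq_mul, RingHom.id_apply]
    ring

/-- the logarithms of the sizes of the `U u r / (s r e r)` -/
noncomputable def lw {K : Type} [Field K] (f : K → ℝ) (u : ι → K) (s e : ι × Bool → K)
    (r : ι × Bool) : ℝ := log (f (U u r)) - log (f (s r)) - log (f (e r))

section

variable {K : Type} [Field K] [NumberField K]

lemma PS_abs_sum {x : ι × Bool → K} (hx : ∀ r, x r ≠ 0) {B : ℝ}
    (hB : ∀ r, logHeight₁ (x r) ≤ finrank ℚ K * B) (T : Finset (FinitePlace K)) :
    PS T (fun f => ∑ r, |log (f (x r))|) ≤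
      finrank ℚ K * (Fintype.card (ι × Bool) * (2 * B)) := by
  rw [PS_sum]
  have h2 : ∑ r, PS T (fun f => |log (f (x r))|) ≤
      ∑ _r : ι × Bool, finrank ℚ K * (2 * B) := by
    apply Finset.sum_le_sum
    intro r _
    have h3 := Pool.Agent.H883.ZP.PS_abs_le (hx r) T
    have h4 := hB r
    linarith
  rw [Finset.sum_const, Finset.card_univ, nsmul_eq_mul] at h2
  linarith

/-- few embeddings at which a nonnegative function is large -/
lemma few {φ : AbsoluteValue K ℝ → ℝ} (hφ : ∀ f, 0 ≤ φ f) {ε E : ℝ} (hε : 0 < ε)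
    (h : PS ∅ φ ≤ finrank ℚ K * E) (hE : 8 * E ≤ ε) :
    8 * (Finset.univ.filter fun σ : K →+* ℂ => ε < φ (InfinitePlace.mk σ).1).card ≤
      finrank ℚ K := by
  classical
  set Ex := Finset.univ.filter fun σ : K →+* ℂ => ε < φ (InfinitePlace.mk σ).1 with hEx
  have h1 := card_le_mult Ex
  have h2 : ε * ∑ v : InfinitePlace K, (v.mult : ℝ) *
      (if ∃ σ ∈ Ex, InfinitePlace.mk σ = v then (1 : ℝ) else 0) ≤ PS ∅ φ := by
    unfold PS
    rw [Finset.sum_empty, add_zero, Finset.mul_sum]
    apply Finset.sum_le_sum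
    intro v _
    have h3 : ε * (if ∃ σ ∈ Ex, InfinitePlace.mk σ = v then (1 : ℝ) else 0) ≤ φ v.1 := by
      split_ifs with h
      · obtain ⟨σ, hσ, rfl⟩ := h
        rw [mul_one]
        exact (Finset.mem_filter.1 hσ).2.le
      · rw [mul_zero]
        exact hφ _
    have h4 := mul_le_mul_of_nonneg_left h3 (Nat.cast_nonneg (α := ℝ) v.mult)
    linarith
  have hDpos : (0 : ℝ) < finrank ℚ K := by exact_mod_cast finrank_pos
  have h3 : ε * Ex.card ≤ finrank ℚ K * E := (mul_le_mul_of_nonneg_left h1 hε.le).trans (h2.trans h)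
  have h4 : ε * (8 * Ex.card) ≤ ε * finrank ℚ K := by
    calc ε * (8 * Ex.card) = 8 * (ε * Ex.card) := by ring
      _ ≤ 8 * (finrank ℚ K * E) := by linarith
      _ = finrank ℚ K * (8 * E) := by ring
      _ ≤ finrank ℚ K * ε := mul_le_mul_of_nonneg_left hE hDpos.le
      _ = _ := mul_comm _ _
  have h5 := le_of_mul_le_mul_left h4 hε
  exact_mod_cast h5

end

/-- **The theorem over number fields.** -/
theorem nf3 (ι : Type) [Fintype ι] [DecidableEq ι] (Bs Λ : ℝ) (k : ℕ) :
    ∃ G : MvPolynomial ι ℤ, G ≠ 0 ∧ ∃ ε : ℝ, 0 < ε ∧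
      ∀ (K : Type) [Field K] [NumberField K] (u : ι → K),
      (∀ j, u j ≠ 0) → (∀ j, 1 - u j ≠ 0) →
      ∀ (s e : ι × Bool → K), (∀ r, s r ≠ 0) → (∀ r, e r ≠ 0) →
      (∀ r, logHeight₁ (s r) ≤ finrank ℚ K * Bs) → (∀ r, logHeight₁ (e r) ≤ finrank ℚ K * ε) →
      ∀ (P : Fin k → ι × Bool → ℝ),
      (∀ σ : K →+* ℂ, ∃ i, ∀ r, log ‖σ (s r)‖ = P i r) →
      ∀ (W : Submodule ℝ (ι × Bool → ℝ)), finrank ℝ W < Fintype.card ι →
        (∀ σ : K →+* ℂ, lw (fun x => ‖σ x‖) u s e ∈ W) →
        (∀ v : FinitePlace K, lw (fun x => v x) u s e ∈ W) →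
        (∀ i j, logHeight₁ (u i) ≤ finrank ℚ K * Λ ∨ logHeight₁ (u j) ≤ Λ * logHeight₁ (u i)) →
          MvPolynomial.aeval u G = 0 := by
  classical
  rcases Nat.eq_zero_or_pos (Fintype.card ι) with h0 | hpos
  · refine ⟨1, one_ne_zero, 1, one_pos, ?_⟩
    intro K _ _ u hu0 hu1 s e hs0 he0 hsB heB P hP W hW
    omega
  obtain ⟨d, hd⟩ : ∃ d, Fintype.card ι = d + 1 := ⟨Fintype.card ι - 1, by omega⟩
  have hne : Nonempty ι := Fintype.card_pos_iff.1 hpos
  set Λ' : ℝ := max Λ 1 with hΛ'
  have hΛ'1 : 1 ≤ Λ' := le_max_right _ _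
  have hΛΛ' : Λ ≤ Λ' := le_max_left _ _
  set Bs' : ℝ := max Bs 0 with hBs'
  have hBs'0 : 0 ≤ Bs' := le_max_right _ _
  have hBsBs' : Bs ≤ Bs' := le_max_left _ _
  set N : ℝ := (Fintype.card (ι × Bool) : ℝ) with hN
  have hN0 : 0 ≤ N := Nat.cast_nonneg _
  set A : ℝ := d * (N * (N * (2 * (Λ' + 4) + 2 * Bs' + 2))) with hA
  have hdI : ∀ I : Finset ι, d < Fintype.card I + Fintype.card {j // j ∉ I} := by
    intro I
    have h1 : Fintype.card {j // j ∉ I} = Fintype.card ι - Fintype.card {j // j ∈ I} :=
      Fintype.card_subtype_compl _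
    have h2 : Fintype.card {j // j ∈ I} ≤ Fintype.card ι := Fintype.card_subtype_le _
    have h3 : Fintype.card I = Fintype.card {j // j ∈ I} := rfl
    omega
  choose G G' η H0 hG hG' hη hI using fun I : Finset ι => unif I {j // j ∉ I} (hdI I)
    (κ := 1 / Λ') (by positivity) Λ' k A
  obtain ⟨η0, hη0, hη0le⟩ := exists_pos_le η hη
  obtain ⟨M, hM⟩ := exists_ge_all H0
  set H1 : ℝ := max (max 1 M) ((4 * N + 1) * (Bs' + 1) / η0) with hH1
  obtain ⟨G2, δ2, hG2, hδ2, hbd⟩ := Pool.Agent.H883.ZP.boundedG ι k H1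
  set ε : ℝ := min 1 (min (η0 / (4 * N + 1)) (δ2 / (16 * N + 1))) with hε
  have hεpos : 0 < ε := lt_min one_pos (lt_min (by positivity) (by positivity))
  have hε1 : ε ≤ 1 := min_le_left _ _
  have hε2 : (4 * N + 1) * ε ≤ η0 := by
    have h1 : ε ≤ η0 / (4 * N + 1) := (min_le_right _ _).trans (min_le_left _ _)
    rw [le_div_iff₀ (by positivity)] at h1
    linarith
  have hε3 : (16 * N + 1) * ε ≤ δ2 := by
    have h1 : ε ≤ δ2 / (16 * N + 1) := (min_le_right _ _).trans (min_le_right _ _)
    rw [le_div_iff₀ (by positivity)] at h1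
    linarith
  refine ⟨(∏ I : Finset ι, (MvPolynomial.rename Subtype.val (G I) *
    MvPolynomial.rename Subtype.val (G' I))) * G2, mul_ne_zero
    (Finset.prod_ne_zero_iff.2 fun I _ => mul_ne_zero (fun h => hG I
      (MvPolynomial.rename_injective _ Subtype.val_injective (by rw [h, map_zero])))
      (fun h => hG' I (MvPolynomial.rename_injective _ Subtype.val_injective
        (by rw [h, map_zero])))) hG2, ε, hεpos, ?_⟩
  intro K _ _ u hu0 hu1 s e hs0 he0 hsB heB P hP W hW hσ hv hcmp
  have hDpos : (0 : ℝ) < finrank ℚ K := by exact_mod_cast finrank_pos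
  have hsBB : ∀ r, logHeight₁ (s r) ≤ finrank ℚ K * Bs' := fun r =>
    (hsB r).trans (mul_le_mul_of_nonneg_left hBsBs' hDpos.le)
  have hinf : ∀ v : InfinitePlace K, lw (fun x => v.1 x) u s e ∈ W := by
    intro v
    have h := hσ v.embedding
    have e : (fun x : K => ‖v.embedding x‖) = fun x => v.1 x := by
      funext x
      exact InfinitePlace.norm_embedding_eq v x
    rw [e] at h
    exact h
  obtain ⟨j0, hj0⟩ := Finite.exists_max (fun j => logHeight₁ (u j))
  set H : ℝ := logHeight₁ (u j0) / finrank ℚ K with hH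
  have hHD : (finrank ℚ K : ℝ) * H = logHeight₁ (u j0) := by
    rw [hH]
    field_simp
  have hHle : ∀ j, logHeight₁ (u j) ≤ finrank ℚ K * H := fun j => by
    rw [hHD]
    exact hj0 j
  rw [map_mul, map_prod]
  rcases lt_or_ge H H1 with hlt | hge
  · -- bounded heights
    have her : PS (K := K) ∅ (fun f => ∑ r, |log (f (e r))|) ≤ finrank ℚ K * (N * (2 * ε)) :=
      PS_abs_sum he0 heB ∅
    have hfew := few (K := K) (fun f => Finset.sum_nonneg fun r _ => abs_nonneg (log (f (e r))))
      hδ2 her (by nlinarith)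
    have h1 := hbd K u hu0 hu1 (fun j => (hHle j).trans (mul_le_mul_of_nonneg_left hlt.le hDpos.le))
      (fun _ => W) P (fun _ => hW) _ hfew (by
        intro σ hσE
        rw [Finset.mem_filter, not_and] at hσE
        have h2 := not_lt.1 (hσE (Finset.mem_univ σ))
        obtain ⟨i, hi⟩ := hP σ
        refine ⟨i, _, hσ σ, fun r => ?_⟩
        have hlc : Pool.Agent.H883.ZP.lc u σ r = log ‖σ (U u r)‖ := by
          obtain ⟨j, b⟩ := r
          cases b
          · rfl
          · rfl
        rw [hlc, ← hi r]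
        have e1 : log ‖σ (U u r)‖ - (log ‖σ (s r)‖ + lw (fun x => ‖σ x‖) u s e r) =
            log ‖σ (e r)‖ := by
          unfold lw
          ring
        rw [e1]
        exact (Finset.single_le_sum (f := fun r => |log ((InfinitePlace.mk σ).1 (e r))|)
          (fun _ _ => abs_nonneg _) (Finset.mem_univ r)).trans h2)
    rw [h1, mul_zero]
  · -- large heights
    have hH1' : 1 ≤ H := ((le_max_left _ _).trans (le_max_left _ _)).trans hge
    have hHM : M ≤ H := ((le_max_right _ _).trans (le_max_left _ _)).trans hge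
    have hHη : (4 * N + 1) * (Bs' + 1) / η0 ≤ H := (le_max_right _ _).trans hge
    have hHpos : 0 < H := by linarith
    let I : Finset ι := Finset.univ.filter fun i => finrank ℚ K * Λ' < logHeight₁ (u i)
    have hIlow : ∀ i ∈ I, finrank ℚ K * (1 / Λ' * H) ≤ logHeight₁ (u i) := by
      intro i hi
      have h1 := (Finset.mem_filter.1 hi).2
      have h2 : (finrank ℚ K : ℝ) * Λ ≤ finrank ℚ K * Λ' :=
        mul_le_mul_of_nonneg_left hΛΛ' hDpos.le
      have h3 := (hcmp i j0).resolve_left (by
        intro h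
        linarith)
      have h4 : Λ * logHeight₁ (u i) ≤ Λ' * logHeight₁ (u i) :=
        mul_le_mul_of_nonneg_right hΛΛ' (zero_le_logHeight₁ _)
      have h5 : (finrank ℚ K : ℝ) * (1 / Λ' * H) = (finrank ℚ K * H) / Λ' := by
        field_simp
      rw [h5, div_le_iff₀ (by linarith), hHD]
      linarith
    have hJup : ∀ j : {j // j ∉ I}, logHeight₁ (u j.1) ≤ finrank ℚ K * Λ' := by
      intro j
      by_contra hcon
      push Not at hcon
      exact j.2 (Finset.mem_filter.2 ⟨Finset.mem_univ _, hcon⟩)
    -- the scaled subspace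
    let g : ι × Bool → ℝ := fun r => if r.1 ∈ I then 1 / H else 1
    have hg1 : ∀ r, 0 ≤ g r ∧ g r ≤ 1 := by
      intro r
      show 0 ≤ (if _ then _ else _ : ℝ) ∧ (if _ then _ else _ : ℝ) ≤ 1
      split_ifs
      · refine ⟨by positivity, ?_⟩
        rw [div_le_one hHpos]
        exact hH1'
      · exact ⟨zero_le_one, le_rfl⟩
    let W' : Submodule ℝ (ι × Bool → ℝ) := W.map (dg g)
    have hW' : finrank ℝ W' ≤ d := (Submodule.finrank_map_le (dg g) W).trans (by omega)
    obtain ⟨b, hb1, hb2⟩ := Pool.Agent.H883.ZP.basis W' hW'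
    let wf : AbsoluteValue K ℝ → ι × Bool → ℝ := fun f => dg g (lw (fun x => f x) u s e)
    have hwf : ∀ f r, wf f r = g r * lw (fun x => f x) u s e r := fun f r => rfl
    let Sf : AbsoluteValue K ℝ → ℝ := fun f => ∑ r, |wf f r|
    have hSf : ∀ f r, |wf f r| ≤ Sf f := fun f r =>
      Finset.single_le_sum (f := fun r => |wf f r|) (fun _ _ => abs_nonneg _) (Finset.mem_univ r)
    have hSf0 : ∀ f, 0 ≤ Sf f := fun f => Finset.sum_nonneg fun _ _ => abs_nonneg _
    have hex : ∀ f : AbsoluteValue K ℝ, ∃ t : Fin d → ℝ, (∀ j, |t j| ≤ N * Sf f) ∧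
        (wf f ∈ W' → ∀ r, wf f r = ∑ j, t j * b j r) := by
      intro f
      by_cases h : wf f ∈ W'
      · obtain ⟨t, ht1, ht2⟩ := hb2 (wf f) h (Sf f) (hSf f)
        exact ⟨t, ht1, fun _ => ht2⟩
      · exact ⟨0, fun j => by
          rw [Pi.zero_apply, abs_zero]
          exact mul_nonneg hN0 (hSf0 f), fun h' => absurd h' h⟩
    choose t ht1 ht2 using hex
    have hwfinf : ∀ v : InfinitePlace K, wf v.1 ∈ W' := fun v =>
      Submodule.mem_map_of_mem (hinf v)
    have hwffin : ∀ v : FinitePlace K, wf v.1 ∈ W' := fun v =>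
      Submodule.mem_map_of_mem (hv v)
    let err : AbsoluteValue K ℝ → ℝ := fun f =>
      (∑ r, |log (f (e r))|) + (1 / H) * ∑ r, |log (f (s r))|
    have herr1 : ∀ (f : AbsoluteValue K ℝ) (r : ι × Bool), wf f ∈ W' → r.1 ∈ I →
        |log (f (U u r)) - H * ∑ k, b k r * t f k| ≤ H * err f := by
      intro f r hf hr
      have h1 := ht2 f hf r
      have h2 : ∑ k, b k r * t f k = wf f r := by
        rw [h1]
        exact Finset.sum_congr rfl fun k _ => mul_comm _ _
      have hgr : g r = 1 / H := if_pos hr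
      rw [h2, hwf, hgr]
      have h3 : log (f (U u r)) - H * (1 / H * lw (fun x => f x) u s e r) =
          log (f (s r)) + log (f (e r)) := by
        unfold lw
        field_simp
        ring
      rw [h3]
      have h4 : |log (f (s r))| ≤ ∑ r, |log (f (s r))| :=
        Finset.single_le_sum (f := fun r => |log (f (s r))|) (fun _ _ => abs_nonneg _)
          (Finset.mem_univ r)
      have h5 : |log (f (e r))| ≤ ∑ r, |log (f (e r))| :=
        Finset.single_le_sum (f := fun r => |log (f (e r))|) (fun _ _ => abs_nonneg _)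
          (Finset.mem_univ r)
      have h6 : H * err f = H * (∑ r, |log (f (e r))|) + ∑ r, |log (f (s r))| := by
        show H * ((∑ r, |log (f (e r))|) + (1 / H) * ∑ r, |log (f (s r))|) = _
        field_simp
      rw [h6]
      have h7 : ∑ r, |log (f (e r))| ≤ H * ∑ r, |log (f (e r))| := by
        have : 0 ≤ ∑ r, |log (f (e r))| := Finset.sum_nonneg fun _ _ => abs_nonneg _
        nlinarith
      refine (abs_add_le _ _).trans ?_
      linarith
    have herrPS : ∀ T : Finset (FinitePlace K), PS T err ≤ η I * finrank ℚ K := by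
      intro T
      show PS T (fun f => (∑ r, |log (f (e r))|) + (1 / H) * ∑ r, |log (f (s r))|) ≤ _
      rw [PS_add, PS_smul]
      have h1 := PS_abs_sum he0 heB T
      have h2 := PS_abs_sum hs0 hsBB T
      rw [← hN] at h1 h2
      have h3 : (1 / H) * PS T (fun f => ∑ r, |log (f (s r))|) ≤
          (1 / H) * (finrank ℚ K * (N * (2 * Bs'))) :=
        mul_le_mul_of_nonneg_left h2 (by positivity)
      have h4 : (1 / H) * (N * (2 * Bs')) ≤ η0 / 2 := by
        rw [div_mul_eq_mul_div, one_mul, div_le_iff₀ hHpos]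
        rw [div_le_iff₀ hη0] at hHη
        nlinarith
      have h5 : N * (2 * ε) ≤ η0 / 2 := by nlinarith
      have h6 : (finrank ℚ K : ℝ) * (N * (2 * ε)) ≤ finrank ℚ K * (η0 / 2) :=
        mul_le_mul_of_nonneg_left h5 hDpos.le
      have h7 : (finrank ℚ K : ℝ) * ((1 / H) * (N * (2 * Bs'))) ≤ finrank ℚ K * (η0 / 2) :=
        mul_le_mul_of_nonneg_left h4 hDpos.le
      have h8 : (finrank ℚ K : ℝ) * η0 ≤ finrank ℚ K * η I :=
        mul_le_mul_of_nonneg_left (hη0le I) hDpos.le
      have h9 : (1 / H) * ((finrank ℚ K : ℝ) * (N * (2 * Bs'))) =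
        finrank ℚ K * ((1 / H) * (N * (2 * Bs'))) := by ring
      rw [h9] at h3
      linarith
    have htPS : ∀ T : Finset (FinitePlace K), PS T (fun f => ∑ k, |t f k|) ≤
        A * finrank ℚ K := by
      intro T
      have h1 : PS T (fun f => ∑ k, |t f k|) ≤ PS T (fun f => (d * N) * Sf f) + finrank ℚ K * 0 := by
        apply PS_le
        · intro v
          rw [add_zero]
          calc ∑ k, |t v.1 k| ≤ ∑ _k : Fin d, N * Sf v.1 := Finset.sum_le_sum fun k _ => ht1 _ k
            _ = _ := by
              rw [Finset.sum_const, Finset.card_univ, Fintype.card_fin, nsmul_eq_mul]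
              ring
        · intro v
          calc ∑ k, |t v.1 k| ≤ ∑ _k : Fin d, N * Sf v.1 := Finset.sum_le_sum fun k _ => ht1 _ k
            _ = _ := by
              rw [Finset.sum_const, Finset.card_univ, Fintype.card_fin, nsmul_eq_mul]
              ring
      have h2 : PS T Sf ≤ finrank ℚ K * (N * (2 * (Λ' + 4) + 2 * Bs' + 2)) := by
        show PS T (fun f => ∑ r, |wf f r|) ≤ _
        rw [PS_sum]
        have h3 : ∀ r, PS T (fun f => |wf f r|) ≤
            finrank ℚ K * (2 * (Λ' + 4) + 2 * Bs' + 2) := by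
          intro r
          have h4 : PS T (fun f => |wf f r|) ≤ PS T (fun f => g r * |log (f (U u r))| +
              |log (f (s r))| + |log (f (e r))|) + finrank ℚ K * 0 := by
            have h5 : ∀ f : AbsoluteValue K ℝ, |wf f r| ≤ g r * |log (f (U u r))| +
              |log (f (s r))| + |log (f (e r))| := by
              intro f
              rw [hwf, abs_mul, abs_of_nonneg (hg1 r).1]
              have h6 : |lw (fun x => f x) u s e r| ≤ |log (f (U u r))| +
                  |log (f (s r))| + |log (f (e r))| := by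
                unfold lw
                refine (abs_sub _ _).trans ?_
                have := abs_sub (log (f (U u r))) (log (f (s r)))
                linarith
              calc g r * |lw (fun x => f x) u s e r| ≤ g r * (|log (f (U u r))| +
                  |log (f (s r))| + |log (f (e r))|) :=
                    mul_le_mul_of_nonneg_left h6 (hg1 r).1
                _ = g r * |log (f (U u r))| + g r * (|log (f (s r))| + |log (f (e r))|) := by ring
                _ ≤ g r * |log (f (U u r))| + 1 * (|log (f (s r))| + |log (f (e r))|) := by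
                    have := mul_le_mul_of_nonneg_right (hg1 r).2
                      (by positivity : 0 ≤ |log (f (s r))| + |log (f (e r))|)
                    linarith
                _ = _ := by ring
            apply PS_le
            · intro v
              rw [add_zero]
              exact h5 _
            · intro v
              exact h5 _
          rw [PS_add, PS_add, PS_smul, mul_zero, add_zero] at h4
          have h5 := Pool.Agent.H883.ZP.PS_abs_le (hs0 r) T
          have h6 := Pool.Agent.H883.ZP.PS_abs_le (he0 r) T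
          have h7 := Pool.Agent.H883.ZP.PS_abs_le (U_ne hu0 hu1 r) T
          have h8 := hsBB r
          have h9 := heB r
          have h10 : (finrank ℚ K : ℝ) * ε ≤ finrank ℚ K * 1 :=
            mul_le_mul_of_nonneg_left hε1 hDpos.le
          have h11 : g r * PS T (fun f => |log (f (U u r))|) ≤ finrank ℚ K * (2 * (Λ' + 4)) := by
            by_cases hr : r.1 ∈ I
            · have hgr : g r = 1 / H := if_pos hr
              have h12 := height_U hHle r
              have h13 : PS T (fun f => |log (f (U u r))|) ≤ finrank ℚ K * (2 * (H + 1)) := by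
                linarith
              have h14 : g r * PS T (fun f => |log (f (U u r))|) ≤
                  (1 / H) * (finrank ℚ K * (2 * (H + 1))) := by
                rw [hgr]
                exact mul_le_mul_of_nonneg_left h13 (by positivity)
              refine h14.trans ?_
              rw [div_mul_eq_mul_div, one_mul, div_le_iff₀ hHpos]
              have h15 : 2 * (H + 1) ≤ 2 * (Λ' + 4) * H := by nlinarith
              have h16 := mul_le_mul_of_nonneg_left h15 hDpos.le
              linarith
            · have hgr : g r = 1 := if_neg hr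
              rw [hgr, one_mul]
              have h12 : logHeight₁ (U u r) ≤ finrank ℚ K * (Λ' + 1) := by
                have h13 := height_U (u := fun j : {j // j ∉ I} => u j.1) hJup (⟨r.1, hr⟩, r.2)
                exact h13
              have h13 : (finrank ℚ K : ℝ) * (Λ' + 1) ≤ finrank ℚ K * (Λ' + 4) :=
                mul_le_mul_of_nonneg_left (by linarith) hDpos.le
              linarith
          linarith
        calc ∑ r, PS T (fun f => |wf f r|) ≤
            ∑ _r : ι × Bool, finrank ℚ K * (2 * (Λ' + 4) + 2 * Bs' + 2) :=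
              Finset.sum_le_sum fun r _ => h3 r
          _ = _ := by
              rw [Finset.sum_const, Finset.card_univ, nsmul_eq_mul]
              ring
      rw [PS_smul, mul_zero, add_zero] at h1
      have h3 : (d * N) * PS T Sf ≤
          (d * N) * (finrank ℚ K * (N * (2 * (Λ' + 4) + 2 * Bs' + 2))) :=
        mul_le_mul_of_nonneg_left h2 (by positivity)
      refine h1.trans (h3.trans (le_of_eq ?_))
      rw [hA]
      ring
    have hfinal := hI I (fun r k => b k (r.1.1, r.2)) (fun r k => b k (r.1.1, r.2))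
      (fun r k => hb1 k _) (fun r k => hb1 k _) K (fun i : I => u i.1)
      (fun j : {j // j ∉ I} => u j.1) (fun i => hu0 _) (fun i => hu1 _) (fun j => hu0 _)
      (fun j => hu1 _) H ((hM I).trans hHM) hHpos.le t err
      ⟨fun v r => herr1 v.1 (r.1.1, r.2) (hwfinf v) r.1.2,
       fun v r => herr1 v.1 (r.1.1, r.2) (hwffin v) r.1.2, herrPS⟩ htPS (fun i => hHle _)
      (fun i => hIlow i.1 i.2) hJup (fun i r => P i (r.1.1, r.2)) (by
        intro σ
        obtain ⟨i, hi⟩ := hP σ
        refine ⟨i, fun r => ?_⟩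
        set f : AbsoluteValue K ℝ := (InfinitePlace.mk σ).1 with hf
        have h1 := ht2 f (hwfinf _) (r.1.1, r.2)
        have h2 : ∑ k, b k (r.1.1, r.2) * t f k = wf f (r.1.1, r.2) := by
          rw [h1]
          exact Finset.sum_congr rfl fun k _ => mul_comm _ _
        have hgr : g (r.1.1, r.2) = 1 := if_neg r.1.2
        rw [h2, hwf, hgr, one_mul, ← hi]
        have hfx : ∀ x, f x = ‖σ x‖ := fun x => rfl
        have h3 : log ‖σ (U (fun j : {j // j ∉ I} => u j.1) r)‖ -
            (log ‖σ (s (r.1.1, r.2))‖ + lw (fun x => f x) u s e (r.1.1, r.2)) =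
            log (f (e (r.1.1, r.2))) := by
          unfold lw
          simp only [hfx]
          have : U (fun j : {j // j ∉ I} => u j.1) r = U u (r.1.1, r.2) := rfl
          rw [this]
          ring
        rw [h3]
        have h5 : |log (f (e (r.1.1, r.2)))| ≤ ∑ r, |log (f (e r))| :=
          Finset.single_le_sum (f := fun r => |log (f (e r))|) (fun _ _ => abs_nonneg _)
            (Finset.mem_univ _)
        have h6 : 0 ≤ (1 / H) * ∑ r, |log (f (s r))| :=
          mul_nonneg (by positivity) (Finset.sum_nonneg fun _ _ => abs_nonneg _)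
        show _ ≤ (∑ r, |log (f (e r))|) + (1 / H) * ∑ r, |log (f (s r))|
        linarith)
    have hprod : MvPolynomial.aeval u (MvPolynomial.rename Subtype.val (G I) *
        MvPolynomial.rename Subtype.val (G' I)) = 0 := by
      rw [map_mul, MvPolynomial.aeval_rename, MvPolynomial.aeval_rename]
      rcases hfinal with h | h
      · have : MvPolynomial.aeval (u ∘ Subtype.val) (G I) = 0 := h
        rw [this, zero_mul]
      · have : MvPolynomial.aeval (u ∘ Subtype.val) (G' I) = 0 := h
        rw [this, mul_zero]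
    rw [Finset.prod_eq_zero (Finset.mem_univ I) hprod, zero_mul]

end Pool.Agent.H883.ZQ
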