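import Pool.Agent.H883.ZQ.Lines

set_option autoImplicit false
set_option linter.unusedSectionVars false

/-!
# A bounded height theorem in sectors
-/

namespace Pool.Agent.H883.ZQ

open Real NumberField Height Module
open Pool.Agent.H489ZP
open Pool.Agent.H883.ZP (mon Codim relW finrank_relW log_mem_relW height_ext)

/-- **Uniform version of case A.** -/
theorem unifA (I : Type) [Fintype I] [DecidableEq I] [Nonempty I] {d : ℕ}
    (hd : d ≤ Fintype.card I) {κ : ℝ} (hκ : 0 < κ) (A : ℝ) :
    ∃ (G : MvPolynomial I ℤ) (η H0 : ℝ), G ≠ 0 ∧ 0 < η ∧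
      ∀ (ξ : I × Bool → Fin d → ℝ), (∀ r k, |ξ r k| ≤ 1) →
      ∀ (K : Type) [Field K] [NumberField K] (u : I → K), (∀ i, u i ≠ 0) →
      (∀ i, 1 - u i ≠ 0) → ∀ H : ℝ, H0 ≤ H → 0 ≤ H →
      ∀ (t : AbsoluteValue K ℝ → Fin d → ℝ) (err : AbsoluteValue K ℝ → ℝ), Near u ξ H t err η →
      (∀ T : Finset (FinitePlace K), PS T (fun f => ∑ k, |t f k|) ≤ A * finrank ℚ K) →
      (∀ i, logHeight₁ (u i) ≤ finrank ℚ K * H) →
      (∀ i, finrank ℚ K * (κ * H) ≤ logHeight₁ (u i)) → MvPolynomial.aeval u G = 0 := by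
  classical
  have hS : ∀ ξ : I × Bool → Fin d → ℝ, ∃ S : Finset I, S.Nonempty ∧ rk ξ S ≤ S.card := by
    intro ξ
    refine ⟨Finset.univ, Finset.univ_nonempty, ?_⟩
    rw [Finset.card_univ]
    refine le_trans ?_ hd
    refine (Submodule.finrank_le _).trans ?_
    rw [Module.finrank_fin_fun]
  choose G hG η H0 hη h using fun x : I × Bool → Fin d → ℝ => caseA I x (hS x) hκ
  set A' : ℝ := max A 1 with hA'
  have hA'0 : 0 < A' := lt_of_lt_of_le one_pos (le_max_right _ _)
  have hAA' : A ≤ A' := le_max_left _ _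
  let s : Set (I × Bool → Fin d → ℝ) := Set.Icc (-1) 1
  have hs : IsCompact s := isCompact_Icc
  obtain ⟨T0, -, hT0⟩ := hs.elim_nhds_subcover (fun x => Metric.ball x (η x / (2 * A')))
    (fun x _ => Metric.ball_mem_nhds x (by have := hη x; positivity))
  obtain ⟨ε, hε, hεle⟩ := exists_pos_le (fun x : T0 => η x.1 / 2)
    (fun x => by have := hη x.1; positivity)
  obtain ⟨M, hM⟩ := exists_ge_all (fun x : T0 => H0 x.1)
  refine ⟨∏ x : T0, G x.1, ε, M, Finset.prod_ne_zero_iff.2 fun x _ => hG x.1, hε, ?_⟩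
  intro ξ hξ K _ _ u hu0 hu1 H hH0 hHnn t err hnear ht hH hκH
  have hmem : ξ ∈ s := by
    rw [Set.mem_Icc]
    exact ⟨fun r k => (abs_le.1 (hξ r k)).1, fun r k => (abs_le.1 (hξ r k)).2⟩
  obtain ⟨x, hx, hxb⟩ := Set.mem_iUnion₂.1 (hT0 hmem)
  set x' : T0 := ⟨x, hx⟩ with hx'
  rw [Metric.mem_ball] at hxb
  set δ : ℝ := η x / (2 * A') with hδ
  have hηx := hη x
  have hδ0 : 0 < δ := by positivity
  have hξx : ∀ r k, |ξ r k - x r k| ≤ δ := by
    intro r k
    have h2 := (dist_le_pi_dist ξ x r)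
    have h3 := (dist_le_pi_dist (ξ r) (x r) k)
    rw [Real.dist_eq] at h3
    linarith
  let err' : AbsoluteValue K ℝ → ℝ := fun f => err f + δ * ∑ k, |t f k|
  have hstep : ∀ (f : AbsoluteValue K ℝ) (L : ℝ) (r : I × Bool),
      |L - H * ∑ k, ξ r k * t f k| ≤ H * err f →
      |L - H * ∑ k, x r k * t f k| ≤ H * err' f := by
    intro f L r hL
    have h1 := sum_change (t := t f) (hξx r)
    have e1 : L - H * ∑ k, x r k * t f k = (L - H * ∑ k, ξ r k * t f k) +
        H * (∑ k, ξ r k * t f k - ∑ k, x r k * t f k) := by ring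
    rw [e1]
    refine (abs_add_le _ _).trans ?_
    rw [abs_mul, abs_of_nonneg hHnn]
    have h2 : H * |∑ k, ξ r k * t f k - ∑ k, x r k * t f k| ≤ H * (δ * ∑ k, |t f k|) :=
      mul_le_mul_of_nonneg_left h1 hHnn
    show _ ≤ H * (err f + δ * ∑ k, |t f k|)
    rw [mul_add]
    linarith
  have hDpos : (0 : ℝ) < finrank ℚ K := finrank_pos'
  have hnear' : Near u x H t err' (η x) := by
    refine ⟨fun v r => hstep _ _ r (hnear.inf v r), fun v r => hstep _ _ r (hnear.fin v r), ?_⟩
    intro T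
    show PS T (fun f => err f + δ * ∑ k, |t f k|) ≤ _
    rw [PS_add, PS_smul]
    have h1 := hnear.tot T
    have h2 := ht T
    have h3 : ε ≤ η x / 2 := hεle x'
    have h4 : ε * (finrank ℚ K : ℝ) ≤ η x / 2 * finrank ℚ K :=
      mul_le_mul_of_nonneg_right h3 hDpos.le
    have h5 : A * (finrank ℚ K : ℝ) ≤ A' * finrank ℚ K := mul_le_mul_of_nonneg_right hAA' hDpos.le
    have h6 : δ * PS T (fun f => ∑ k, |t f k|) ≤ δ * (A' * finrank ℚ K) :=
      mul_le_mul_of_nonneg_left (h2.trans h5) hδ0.le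
    have h7 : δ * (A' * finrank ℚ K) = η x / 2 * finrank ℚ K := by
      rw [hδ]
      field_simp
    linarith
  have := h x K u hu0 hu1 H ((hM x').trans hH0) t err' hnear' hH hκH
  rw [map_prod]
  exact Finset.prod_eq_zero (Finset.mem_univ x') this

/-- the number field version -/
theorem nfA (ι : Type) [Fintype ι] [DecidableEq ι] [Nonempty ι] {κ : ℝ} (hκ : 0 < κ) :
    ∃ G : MvPolynomial ι ℤ, G ≠ 0 ∧ ∃ η H0 : ℝ, 0 < η ∧
      ∀ (K : Type) [Field K] [NumberField K] (u : ι → K),
      (∀ j, u j ≠ 0) → (∀ j, 1 - u j ≠ 0) → ∀ H : ℝ, H0 ≤ H →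
      (∀ i, logHeight₁ (u i) ≤ finrank ℚ K * H) →
      (∀ i, finrank ℚ K * (κ * H) ≤ logHeight₁ (u i)) →
      ∀ (s e : ι × Bool → K), (∀ r, s r ≠ 0) → (∀ r, e r ≠ 0) →
      (∀ r, logHeight₁ (s r) ≤ finrank ℚ K * (η * H)) →
      (∀ r, logHeight₁ (e r) ≤ finrank ℚ K * (η * H)) →
      ∀ (W : Submodule ℝ (ι × Bool → ℝ)), finrank ℝ W ≤ Fintype.card ι →
        (∀ σ : K →+* ℂ, lw (fun x => ‖σ x‖) u s e ∈ W) →
        (∀ v : FinitePlace K, lw (fun x => v x) u s e ∈ W) →
          MvPolynomial.aeval u G = 0 := by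
  classical
  set N : ℝ := (Fintype.card (ι × Bool) : ℝ) with hN
  have hN0 : 0 ≤ N := Nat.cast_nonneg _
  set d := Fintype.card ι with hd
  obtain ⟨G, η, H0, hG, hη, h⟩ := unifA ι (le_refl d) hκ (d * (N * (N * 8)))
  refine ⟨G, hG, min 1 (η / (4 * N + 1)), max 1 H0, lt_min one_pos (by positivity), ?_⟩
  intro K _ _ u hu0 hu1 H hH0 hH hκH s e hs0 he0 hsB heB W hW hσ hv
  have hDpos : (0 : ℝ) < finrank ℚ K := finrank_pos'
  have hH1 : 1 ≤ H := (le_max_left _ _).trans hH0
  have hH2 : H0 ≤ H := (le_max_right _ _).trans hH0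
  have hHpos : 0 < H := by linarith
  set ε : ℝ := min 1 (η / (4 * N + 1)) with hε
  have hε1 : ε ≤ 1 := min_le_left _ _
  have hε2 : (4 * N + 1) * ε ≤ η := by
    have h1 : ε ≤ η / (4 * N + 1) := min_le_right _ _
    rw [le_div_iff₀ (by positivity)] at h1
    linarith
  have hε0 : 0 < ε := lt_min one_pos (by positivity)
  have hinf : ∀ v : InfinitePlace K, lw (fun x => v.1 x) u s e ∈ W := by
    intro v
    have h := hσ v.embedding
    have e : (fun x : K => ‖v.embedding x‖) = fun x => v.1 x := by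
      funext x
      exact InfinitePlace.norm_embedding_eq v x
    rw [e] at h
    exact h
  obtain ⟨b, hb1, hb2⟩ := Pool.Agent.H883.ZP.basis W hW
  let wf : AbsoluteValue K ℝ → ι × Bool → ℝ := fun f => (1 / H) • lw (fun x => f x) u s e
  have hwf : ∀ f r, wf f r = 1 / H * lw (fun x => f x) u s e r := fun f r => rfl
  let Sf : AbsoluteValue K ℝ → ℝ := fun f => ∑ r, |wf f r|
  have hSf : ∀ f r, |wf f r| ≤ Sf f := fun f r =>
    Finset.single_le_sum (f := fun r => |wf f r|) (fun _ _ => abs_nonneg _) (Finset.mem_univ r)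
  have hSf0 : ∀ f, 0 ≤ Sf f := fun f => Finset.sum_nonneg fun _ _ => abs_nonneg _
  have hex : ∀ f : AbsoluteValue K ℝ, ∃ t : Fin d → ℝ, (∀ j, |t j| ≤ N * Sf f) ∧
      (wf f ∈ W → ∀ r, wf f r = ∑ j, t j * b j r) := by
    intro f
    by_cases h : wf f ∈ W
    · obtain ⟨t, ht1, ht2⟩ := hb2 (wf f) h (Sf f) (hSf f)
      exact ⟨t, ht1, fun _ => ht2⟩
    · exact ⟨0, fun j => by
        rw [Pi.zero_apply, abs_zero]
        exact mul_nonneg hN0 (hSf0 f), fun h' => absurd h' h⟩
  choose t ht1 ht2 using hex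
  have hwfinf : ∀ v : InfinitePlace K, wf v.1 ∈ W := fun v => W.smul_mem _ (hinf v)
  have hwffin : ∀ v : FinitePlace K, wf v.1 ∈ W := fun v => W.smul_mem _ (hv v)
  let err : AbsoluteValue K ℝ → ℝ := fun f =>
    (1 / H) * ((∑ r, |log (f (e r))|) + ∑ r, |log (f (s r))|)
  have herr1 : ∀ (f : AbsoluteValue K ℝ) (r : ι × Bool), wf f ∈ W →
      |log (f (U u r)) - H * ∑ k, b k r * t f k| ≤ H * err f := by
    intro f r hf
    have h1 := ht2 f hf r
    have h2 : ∑ k, b k r * t f k = wf f r := by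
      rw [h1]
      exact Finset.sum_congr rfl fun k _ => mul_comm _ _
    rw [h2, hwf]
    have h3 : log (f (U u r)) - H * (1 / H * lw (fun x => f x) u s e r) =
        log (f (s r)) + log (f (e r)) := by
      unfold lw
      field_simp
      ring
    rw [h3]
    have h4 : |log (f (s r))| ≤ ∑ r, |log (f (s r))| :=
      Finset.single_le_sum (f := fun r => |log (f (s r))|) (fun _ _ => abs_nonneg _)
        (Finset.mem_univ r)
    have h5 : |log (f (e r))| ≤ ∑ r, |log (f (e r))| :=
      Finset.single_le_sum (f := fun r => |log (f (e r))|) (fun _ _ => abs_nonneg _)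
        (Finset.mem_univ r)
    have h6 : H * err f = (∑ r, |log (f (e r))|) + ∑ r, |log (f (s r))| := by
      show H * ((1 / H) * ((∑ r, |log (f (e r))|) + ∑ r, |log (f (s r))|)) = _
      field_simp
    rw [h6]
    refine (abs_add_le _ _).trans ?_
    linarith
  have herrPS : ∀ T : Finset (FinitePlace K), PS T err ≤ η * finrank ℚ K := by
    intro T
    show PS T (fun f => (1 / H) * ((∑ r, |log (f (e r))|) + ∑ r, |log (f (s r))|)) ≤ _
    rw [PS_smul, PS_add]
    have h1 := PS_abs_sum he0 heB T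
    have h2 := PS_abs_sum hs0 hsB T
    rw [← hN] at h1 h2
    rw [div_mul_eq_mul_div, one_mul, div_le_iff₀ hHpos]
    have h3 : (finrank ℚ K : ℝ) * (N * (2 * (ε * H))) + finrank ℚ K * (N * (2 * (ε * H))) =
        finrank ℚ K * H * (4 * N * ε) := by ring
    have h4 : 4 * N * ε ≤ η := by linarith
    have h5 : (finrank ℚ K : ℝ) * H * (4 * N * ε) ≤ finrank ℚ K * H * η :=
      mul_le_mul_of_nonneg_left h4 (by positivity)
    linarith
  have htPS : ∀ T : Finset (FinitePlace K), PS T (fun f => ∑ k, |t f k|) ≤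
      (d * (N * (N * 8))) * finrank ℚ K := by
    intro T
    have h1 : PS T (fun f => ∑ k, |t f k|) ≤ PS T (fun f => (d * N) * Sf f) + finrank ℚ K * 0 := by
      apply PS_le
      · intro v
        rw [add_zero]
        calc ∑ k, |t v.1 k| ≤ ∑ _k : Fin d, N * Sf v.1 := Finset.sum_le_sum fun k _ => ht1 _ k
          _ = _ := by
            rw [Finset.sum_const, Finset.card_univ, Fintype.card_fin, nsmul_eq_mul]
            ring
      · intro v
        calc ∑ k, |t v.1 k| ≤ ∑ _k : Fin d, N * Sf v.1 := Finset.sum_le_sum fun k _ => ht1 _ k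
          _ = _ := by
            rw [Finset.sum_const, Finset.card_univ, Fintype.card_fin, nsmul_eq_mul]
            ring
    have h2 : PS T Sf ≤ finrank ℚ K * (N * 8) := by
      show PS T (fun f => ∑ r, |wf f r|) ≤ _
      rw [PS_sum]
      have h3 : ∀ r, PS T (fun f => |wf f r|) ≤ finrank ℚ K * 8 := by
        intro r
        have h4 : PS T (fun f => |wf f r|) ≤ PS T (fun f => (1 / H) * (|log (f (U u r))| +
            |log (f (s r))| + |log (f (e r))|)) + finrank ℚ K * 0 := by
          have h5 : ∀ f : AbsoluteValue K ℝ, |wf f r| ≤ (1 / H) * (|log (f (U u r))| +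
            |log (f (s r))| + |log (f (e r))|) := by
            intro f
            rw [hwf, abs_mul, abs_of_pos (by positivity : 0 < 1 / H)]
            apply mul_le_mul_of_nonneg_left _ (by positivity)
            unfold lw
            refine (abs_sub _ _).trans ?_
            have := abs_sub (log (f (U u r))) (log (f (s r)))
            linarith
          apply PS_le
          · intro v
            rw [add_zero]
            exact h5 _
          · intro v
            exact h5 _
        rw [PS_smul, PS_add, PS_add, mul_zero, add_zero] at h4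
        have h5 := Pool.Agent.H883.ZP.PS_abs_le (hs0 r) T
        have h6 := Pool.Agent.H883.ZP.PS_abs_le (he0 r) T
        have h7 := Pool.Agent.H883.ZP.PS_abs_le (U_ne hu0 hu1 r) T
        have h8 := hsB r
        have h9 := heB r
        have h10 : (finrank ℚ K : ℝ) * (ε * H) ≤ finrank ℚ K * H := by
          apply mul_le_mul_of_nonneg_left _ hDpos.le
          nlinarith
        have h11 := height_U hH r
        have h12 : (finrank ℚ K : ℝ) * 1 ≤ finrank ℚ K * H :=
          mul_le_mul_of_nonneg_left hH1 hDpos.le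
        refine h4.trans ?_
        rw [div_mul_eq_mul_div, one_mul, div_le_iff₀ hHpos]
        linarith
      calc ∑ r, PS T (fun f => |wf f r|) ≤ ∑ _r : ι × Bool, (finrank ℚ K : ℝ) * 8 :=
            Finset.sum_le_sum fun r _ => h3 r
        _ = _ := by
            rw [Finset.sum_const, Finset.card_univ, nsmul_eq_mul]
            ring
    rw [PS_smul, mul_zero, add_zero] at h1
    have h3 : (d * N) * PS T Sf ≤ (d * N) * (finrank ℚ K * (N * 8)) :=
      mul_le_mul_of_nonneg_left h2 (by positivity)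
    refine h1.trans (h3.trans (le_of_eq ?_))
    ring
  exact h (fun r k => b k r) (fun r k => hb1 k _) K u hu0 hu1 H hH2 hHpos.le t err
    ⟨fun v r => herr1 v.1 r (hwfinf v), fun v r => herr1 v.1 r (hwffin v), herrPS⟩ htPS hH hκH

section

variable {K0 : Type} [Field K0] [NumberField K0]

/-- **Bounded height in sectors, for products of lines.** -/
theorem linesBH (c : ℕ) (a b : Fin c → K0) (ha : ∀ i, a i ≠ 0) (hb : ∀ i, b i ≠ 0) (Λ : ℝ) :
    ∃ G : MvPolynomial (Fin c) K0, G ≠ 0 ∧ ∃ ε B : ℝ, 0 < ε ∧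
      ∀ (K : Type) [Field K] [NumberField K] [Algebra K0 K] (P g e : Fin c ⊕ Fin c → K),
        (∀ r, P r ≠ 0) →
        (∀ i, algebraMap K0 K (a i) * P (Sum.inl i) + algebraMap K0 K (b i) * P (Sum.inr i) = 1) →
        (∀ r, P r = g r * e r) → Codim g c →
        (∀ r, ∃ i, ht (e r) ≤ ε * (1 + ht (P (Sum.inl i)))) →
        (∀ i j, ht (P (Sum.inl j)) ≤ Λ * (1 + ht (P (Sum.inl i)))) →
        MvPolynomial.aeval (fun i => P (Sum.inl i)) G = 0 ∨ ∀ r, ht (P r) ≤ B := by
  classical
  rcases Nat.eq_zero_or_pos c with hc0 | hcpos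
  · subst hc0
    refine ⟨1, one_ne_zero, 1, 0, one_pos, ?_⟩
    intro K _ _ _ P g e _ _ _ _ _ _
    right
    rintro (i | i)
    · exact i.elim0
    · exact i.elim0
  have hne : Nonempty (Fin c) := ⟨⟨0, hcpos⟩⟩
  let s0 : Fin c × Bool → K0 := fun r => if r.2 then b r.1 else a r.1
  have hs0 : ∀ r, s0 r ≠ 0 := by
    rintro ⟨i, x⟩
    cases x
    · exact ha i
    · exact hb i
  choose C hC using fun r => height_ext (s0 r)
  set Cs : ℝ := ∑ r, |C r| with hCs
  have hCs0 : 0 ≤ Cs := Finset.sum_nonneg fun _ _ => abs_nonneg _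
  have hBs : ∀ (K : Type) [Field K] [NumberField K] [Algebra K0 K] (r : Fin c × Bool),
      logHeight₁ (algebraMap K0 K (s0 r)) ≤ finrank ℚ K * Cs := by
    intro K _ _ _ r
    refine (hC r K).trans (mul_le_mul_of_nonneg_left ?_ (by positivity))
    exact (le_abs_self _).trans (Finset.single_le_sum (f := fun r => |C r|)
      (fun _ _ => abs_nonneg _) (Finset.mem_univ r))
  set Λ' : ℝ := max Λ 1 with hΛ'
  have hΛ'1 : 1 ≤ Λ' := le_max_right _ _
  have hΛΛ' : Λ ≤ Λ' := le_max_left _ _
  obtain ⟨G, hG0, η, H0, hη, hG⟩ := nfA (Fin c) (κ := 1 / (2 * Λ')) (by positivity)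
  set B0 : ℝ := max (max H0 (2 * (1 + Cs) * (1 + Λ'))) (Cs / η) with hB0
  refine ⟨scaleG a G, scaleG_ne ha hG0, η / 2, B0 + 2 * Cs + 1, by positivity, ?_⟩
  intro K _ _ _ P g e hP hline hge hcod heε hcmp
  have hDpos : (0 : ℝ) < finrank ℚ K := finrank_pos'
  rw [aeval_scaleG]
  have ha' : ∀ i, algebraMap K0 K (a i) ≠ 0 := fun i => (map_ne_zero _).2 (ha i)
  have hb' : ∀ i, algebraMap K0 K (b i) ≠ 0 := fun i => (map_ne_zero _).2 (hb i)
  have hg : ∀ r, g r ≠ 0 := fun r h => hP r (by rw [hge, h, zero_mul])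
  have he : ∀ r, e r ≠ 0 := fun r h => hP r (by rw [hge, h, mul_zero])
  have h1 : ∀ i, 1 - algebraMap K0 K (a i) * P (Sum.inl i) =
      algebraMap K0 K (b i) * P (Sum.inr i) := fun i => by rw [← hline i]; ring
  have hts : ∀ r, ht (algebraMap K0 K (s0 r)) ≤ Cs := by
    intro r
    have := hBs K r
    rw [logHeight_eq] at this
    exact le_of_mul_le_mul_left this hDpos
  have hlow : ∀ i, ht (P (Sum.inl i)) ≤ ht (algebraMap K0 K (a i) * P (Sum.inl i)) + Cs := by
    intro i
    have h2 : P (Sum.inl i) = (algebraMap K0 K (a i))⁻¹ *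
        (algebraMap K0 K (a i) * P (Sum.inl i)) := by
      rw [inv_mul_cancel_left₀ (ha' i)]
    have h3 := ht_mul_le (algebraMap K0 K (a i))⁻¹ (algebraMap K0 K (a i) * P (Sum.inl i))
    rw [← h2, ht_inv] at h3
    have := hts (i, false)
    exact h3.trans (by
      have e1 : s0 (i, false) = a i := rfl
      rw [e1] at this
      linarith)
  have hup : ∀ i, ht (algebraMap K0 K (a i) * P (Sum.inl i)) ≤ ht (P (Sum.inl i)) + Cs := by
    intro i
    have h3 := ht_mul_le (algebraMap K0 K (a i)) (P (Sum.inl i))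
    have := hts (i, false)
    have e1 : s0 (i, false) = a i := rfl
    rw [e1] at this
    linarith
  obtain ⟨j0, hj0⟩ := Finite.exists_max
    (fun j => logHeight₁ (algebraMap K0 K (a j) * P (Sum.inl j)))
  set H : ℝ := ht (algebraMap K0 K (a j0) * P (Sum.inl j0)) with hH
  have hHle : ∀ j, logHeight₁ (algebraMap K0 K (a j) * P (Sum.inl j)) ≤ finrank ℚ K * H := by
    intro j
    rw [hH, ← logHeight_eq]
    exact hj0 j
  have hHle' : ∀ j, ht (algebraMap K0 K (a j) * P (Sum.inl j)) ≤ H := by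
    intro j
    have := hHle j
    rw [logHeight_eq] at this
    exact le_of_mul_le_mul_left this hDpos
  rcases lt_or_ge H B0 with hlt | hge'
  · right
    have hx : ∀ i, ht (P (Sum.inl i)) ≤ B0 + Cs := fun i => by
      have := hlow i
      have := hHle' i
      linarith
    rintro (i | i)
    · have := hx i
      linarith
    · have h2 : P (Sum.inr i) = (algebraMap K0 K (b i))⁻¹ *
          (1 - algebraMap K0 K (a i) * P (Sum.inl i)) := by
        rw [h1, inv_mul_cancel_left₀ (hb' i)]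
      have h3 := ht_mul_le (algebraMap K0 K (b i))⁻¹ (1 - algebraMap K0 K (a i) * P (Sum.inl i))
      rw [← h2, ht_inv] at h3
      have h4 := hts (i, true)
      have e1 : s0 (i, true) = b i := rfl
      rw [e1] at h4
      have h5 := height_one_sub (algebraMap K0 K (a i) * P (Sum.inl i))
      rw [logHeight_eq, logHeight_eq (algebraMap K0 K (a i) * P (Sum.inl i))] at h5
      have hl1 : Real.log 2 < 1 := by linarith [Real.log_two_lt_d9]
      have h6 : (finrank ℚ K : ℝ) * ht (1 - algebraMap K0 K (a i) * P (Sum.inl i)) ≤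
          finrank ℚ K * (ht (algebraMap K0 K (a i) * P (Sum.inl i)) + 1) := by
        have : (finrank ℚ K : ℝ) * log 2 ≤ finrank ℚ K * 1 :=
          mul_le_mul_of_nonneg_left hl1.le hDpos.le
        linarith
      have h7 := le_of_mul_le_mul_left h6 hDpos
      have h8 := hHle' i
      linarith
  · left
    have hHH0 : H0 ≤ H := ((le_max_left _ _).trans (le_max_left _ _)).trans hge'
    have hHb : 2 * (1 + Cs) * (1 + Λ') ≤ H :=
      ((le_max_right _ _).trans (le_max_left _ _)).trans hge'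
    have hHc : Cs / η ≤ H := (le_max_right _ _).trans hge'
    rw [div_le_iff₀ hη] at hHc
    have hHCs : 1 + Cs ≤ H := by nlinarith
    have hfin : finrank ℝ ((relW g).map (qs c)) ≤ c := by
      refine (Submodule.finrank_map_le _ _).trans ?_
      have := finrank_relW hcod
      rw [Fintype.card_sum, Fintype.card_fin] at this
      omega
    have hU : ∀ r : Fin c × Bool, U (fun i => algebraMap K0 K (a i) * P (Sum.inl i)) r =
        algebraMap K0 K (s0 r) * P (swp r) := by
      rintro ⟨i, x⟩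
      cases x
      · rfl
      · rw [U_true, h1]
        rfl
    have hmem : ∀ (v : K →*₀ ℝ), (∀ x, x ≠ 0 → 0 < v x) →
        lw v (fun i => algebraMap K0 K (a i) * P (Sum.inl i)) (fun r => algebraMap K0 K (s0 r))
          (fun r => e (swp r)) ∈ (relW g).map (qs c) := by
      intro v hv
      refine Submodule.mem_map.2 ⟨fun l => Real.log (v (g l)), log_mem_relW v hv hg, ?_⟩
      funext r
      show Real.log (v (g (swp r))) = _
      unfold lw
      rw [hU, hge, map_mul, map_mul, Real.log_mul (hv _ ((map_ne_zero _).2 (hs0 r))).ne'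
        (mul_pos (hv _ (hg _)) (hv _ (he _))).ne',
        Real.log_mul (hv _ (hg _)).ne' (hv _ (he _)).ne']
      ring
    refine hG K (fun i => algebraMap K0 K (a i) * P (Sum.inl i))
      (fun i => mul_ne_zero (ha' i) (hP _))
      (fun i => by rw [h1]; exact mul_ne_zero (hb' i) (hP _)) H hHH0 hHle ?_
      (fun r => algebraMap K0 K (s0 r)) (fun r => e (swp r))
      (fun r => (map_ne_zero _).2 (hs0 r)) (fun r => he _) ?_ ?_
      ((relW g).map (qs c)) ?_ ?_ ?_
    · intro i
      rw [logHeight_eq]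
      apply mul_le_mul_of_nonneg_left _ hDpos.le
      have h2 := hcmp i j0
      have h3 := hlow j0
      have h4 := hup i
      have h5 : H ≤ ht (P (Sum.inl j0)) + Cs := hup j0
      have h6 : ht (P (Sum.inl i)) ≤ ht (algebraMap K0 K (a i) * P (Sum.inl i)) + Cs := hlow i
      have h7 : Λ * (1 + ht (P (Sum.inl i))) ≤ Λ' * (1 + ht (P (Sum.inl i))) := by
        have := ht_nonneg (P (Sum.inl i))
        exact mul_le_mul_of_nonneg_right hΛΛ' (by linarith)
      have h8 : H - Cs ≤ Λ' * (1 + (ht (algebraMap K0 K (a i) * P (Sum.inl i)) + Cs)) := by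
        have h9 : Λ' * (1 + ht (P (Sum.inl i))) ≤
            Λ' * (1 + (ht (algebraMap K0 K (a i) * P (Sum.inl i)) + Cs)) :=
          mul_le_mul_of_nonneg_left (by linarith) (by linarith)
        linarith
      have h9 : 1 / (2 * Λ') * H = H / (2 * Λ') := by ring
      rw [h9, div_le_iff₀ (by positivity)]
      nlinarith
    · intro r
      refine (hBs K r).trans (mul_le_mul_of_nonneg_left ?_ hDpos.le)
      linarith
    · intro r
      rw [logHeight_eq]
      apply mul_le_mul_of_nonneg_left _ hDpos.le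
      obtain ⟨i, hi⟩ := heε (swp r)
      refine hi.trans ?_
      have h2 := hlow i
      have h3 := hHle' i
      have h4 : 1 + ht (P (Sum.inl i)) ≤ 2 * H := by linarith
      calc η / 2 * (1 + ht (P (Sum.inl i))) ≤ η / 2 * (2 * H) :=
            mul_le_mul_of_nonneg_left h4 (by positivity)
        _ = _ := by ring
    · rw [Fintype.card_fin]
      exact hfin
    · intro σ
      exact hmem ⟨⟨fun x => ‖σ x‖, by simp⟩, by simp, fun x y => by simp⟩
        (fun x hx => norm_pos_iff.2 ((map_ne_zero σ).2 hx))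
    · intro v
      exact hmem ⟨⟨fun x => v x, map_zero v⟩, map_one v, map_mul v⟩
        (fun x hx => FinitePlace.pos_iff.2 hx)

end

end Pool.Agent.H883.ZQ
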