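import Mathlib

set_option autoImplicit false
set_option linter.unusedSectionVars false

/-!
# Spanning transversals of families of pairs of vectors
-/

namespace Pool.Agent.H883.ZQ

open Module Submodule

section

variable {V : Type*} [AddCommGroup V] [Module ℝ V] [FiniteDimensional ℝ V] {ι : Type*}
  [DecidableEq ι]

/-- the span of the vectors with indices in `T` -/
def sp (x y : ι → V) (T : Finset ι) : Submodule ℝ V :=
  span ℝ (x '' T ∪ y '' T)

lemma sp_union (x y : ι → V) (T T' : Finset ι) : sp x y (T ∪ T') = sp x y T ⊔ sp x y T' := by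
  unfold sp
  rw [← span_union, Finset.coe_union, Set.image_union, Set.image_union]
  congr 1
  ext v
  simp only [Set.mem_union]
  tauto

lemma sp_mono (x y : ι → V) {T T' : Finset ι} (h : T ⊆ T') : sp x y T ≤ sp x y T' :=
  span_mono (Set.union_subset_union (Set.image_mono (Finset.coe_subset.2 h))
    (Set.image_mono (Finset.coe_subset.2 h)))

lemma mem_sp_left {x y : ι → V} {T : Finset ι} {i : ι} (hi : i ∈ T) : x i ∈ sp x y T :=
  subset_span (Or.inl ⟨i, Finset.mem_coe.2 hi, rfl⟩)

lemma mem_sp_right {x y : ι → V} {T : Finset ι} {i : ι} (hi : i ∈ T) : y i ∈ sp x y T :=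
  subset_span (Or.inr ⟨i, Finset.mem_coe.2 hi, rfl⟩)

lemma sp_insert_le {x y : ι → V} {T : Finset ι} {i : ι} {P : Submodule ℝ V} (hT : sp x y T ≤ P)
    (hx : x i ∈ P) (hy : y i ∈ P) : sp x y (insert i T) ≤ P := by
  rw [sp, span_le]
  intro v hv
  rcases hv with ⟨j, hj, rfl⟩ | ⟨j, hj, rfl⟩
  · rw [Finset.mem_coe, Finset.mem_insert] at hj
    rcases hj with rfl | hj
    · exact hx
    · exact hT (mem_sp_left hj)
  · rw [Finset.mem_coe, Finset.mem_insert] at hj
    rcases hj with rfl | hj
    · exact hy
    · exact hT (mem_sp_right hj)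

/-- **Spanning transversals** (Rado). -/
theorem exists_transversal (x y : ι → V) (E : Submodule ℝ V) (s : Finset ι) :
    ∀ U : Submodule ℝ V, U ⊔ sp x y s ≤ E →
    (∀ T ⊆ s, finrank ℝ E + T.card ≤ finrank ℝ (U ⊔ sp x y T : Submodule ℝ V) + s.card) →
    ∃ b : ι → Bool, U ⊔ span ℝ ((fun i => if b i then y i else x i) '' s) = E := by
  classical
  induction s using Finset.induction_on with
  | empty =>
    intro U hle h
    refine ⟨fun _ => true, ?_⟩
    have h1 := h ∅ (Finset.Subset.refl _)
    have h2 : sp x y ∅ = ⊥ := by simp [sp]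
    rw [h2, sup_bot_eq] at h1 hle
    simp only [Finset.card_empty, add_zero] at h1
    rw [Finset.coe_empty, Set.image_empty, span_empty, sup_bot_eq]
    exact Submodule.eq_of_le_of_finrank_le hle h1
  | insert i s hi ih =>
    intro U hle h
    have hcard : (insert i s).card = s.card + 1 := Finset.card_insert_of_notMem hi
    have hiT : ∀ T ⊆ s, i ∉ T := fun T hT hiT => hi (hT hiT)
    have hxE : x i ∈ E := hle (mem_sup_right (mem_sp_left (Finset.mem_insert_self i s)))
    have hyE : y i ∈ E := hle (mem_sup_right (mem_sp_right (Finset.mem_insert_self i s)))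
    -- a vector which fails gives a tight set
    have tight : ∀ z : V, ¬ (∀ T ⊆ s, finrank ℝ E + T.card ≤
        finrank ℝ ((U ⊔ span ℝ {z}) ⊔ sp x y T : Submodule ℝ V) + s.card) →
        ∃ T ⊆ s, z ∈ U ⊔ sp x y T ∧
          finrank ℝ (U ⊔ sp x y T : Submodule ℝ V) + s.card + 1 = finrank ℝ E + T.card := by
      intro z hz
      push Not at hz
      obtain ⟨T, hT, hlt⟩ := hz
      have h1 := h T (hT.trans (Finset.subset_insert _ _))
      rw [hcard] at h1
      have hle2 : U ⊔ sp x y T ≤ (U ⊔ span ℝ {z}) ⊔ sp x y T :=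
        sup_le_sup_right le_sup_left _
      have h2 := Submodule.finrank_mono hle2
      refine ⟨T, hT, ?_, by omega⟩
      have h3 : U ⊔ sp x y T = (U ⊔ span ℝ {z}) ⊔ sp x y T :=
        Submodule.eq_of_le_of_finrank_eq hle2 (by omega)
      rw [h3]
      exact mem_sup_left (mem_sup_right (mem_span_singleton_self z))
    -- one of the two vectors is good
    have main : ∃ c : Bool, ∀ T ⊆ s, finrank ℝ E + T.card ≤
        finrank ℝ ((U ⊔ span ℝ {if c then y i else x i}) ⊔ sp x y T : Submodule ℝ V) +
          s.card := by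
      by_contra hcon
      push Not at hcon
      have hx := hcon false
      have hy := hcon true
      rw [if_neg Bool.false_ne_true] at hx
      rw [if_pos rfl] at hy
      obtain ⟨T1, hT1, hx1, ht1⟩ := tight (x i) (by push Not; exact hx)
      obtain ⟨T2, hT2, hy2, ht2⟩ := tight (y i) (by push Not; exact hy)
      have hU : T1 ∪ T2 ⊆ s := Finset.union_subset hT1 hT2
      have hI : T1 ∩ T2 ⊆ s := Finset.inter_subset_left.trans hT1
      have hinter := h (T1 ∩ T2) (hI.trans (Finset.subset_insert _ _))
      have hunion := h (insert i (T1 ∪ T2)) (Finset.insert_subset_insert _ hU)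
      rw [hcard] at hinter hunion
      rw [Finset.card_insert_of_notMem (hiT _ hU)] at hunion
      have hsub : U ⊔ sp x y (insert i (T1 ∪ T2)) ≤ U ⊔ sp x y (T1 ∪ T2) := by
        apply sup_le le_sup_left
        apply sp_insert_le le_sup_right
        · exact sup_le_sup_left (sp_mono x y Finset.subset_union_left) U hx1
        · exact sup_le_sup_left (sp_mono x y Finset.subset_union_right) U hy2
      have h3 := Submodule.finrank_mono hsub
      have h4 : (U ⊔ sp x y T1) ⊔ (U ⊔ sp x y T2) = U ⊔ sp x y (T1 ∪ T2) := by
        rw [sp_union]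
        rw [sup_sup_sup_comm, sup_idem]
      have h5 : U ⊔ sp x y (T1 ∩ T2) ≤ (U ⊔ sp x y T1) ⊓ (U ⊔ sp x y T2) :=
        le_inf (sup_le_sup_left (sp_mono x y Finset.inter_subset_left) U)
          (sup_le_sup_left (sp_mono x y Finset.inter_subset_right) U)
      have h6 := Submodule.finrank_mono h5
      have h7 := Submodule.finrank_sup_add_finrank_inf_eq (U ⊔ sp x y T1) (U ⊔ sp x y T2)
      rw [h4] at h7
      have h8 := Finset.card_union_add_card_inter T1 T2
      omega
    obtain ⟨c, hc⟩ := main
    obtain ⟨b, hb⟩ := ih (U ⊔ span ℝ {if c then y i else x i}) (by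
      apply sup_le (sup_le (le_sup_left.trans hle) _)
      · exact (sp_mono x y (Finset.subset_insert i s)).trans (le_sup_right.trans hle)
      · rw [span_singleton_le_iff_mem]
        cases c
        · exact hxE
        · exact hyE) hc
    refine ⟨Function.update b i c, ?_⟩
    rw [← hb, Finset.coe_insert, Set.image_insert_eq, span_insert, Function.update_self, sup_assoc]
    congr 2
    have : ((fun j => if Function.update b i c j then y j else x j) '' (s : Set ι)) =
        ((fun j => if b j then y j else x j) '' (s : Set ι)) := by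
      apply Set.image_congr
      intro j hj
      have hji : j ≠ i := by
        rintro rfl
        exact hi (Finset.mem_coe.1 hj)
      simp only [Function.update_of_ne hji]
    rw [this]

end

end Pool.Agent.H883.ZQ
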