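import Pool.Agent.H883.ZQ.Bad

set_option autoImplicit false
set_option linter.unusedSectionVars false

/-!
# Bad patterns of arbitrary types
-/

namespace Pool.Agent.H883.ZQ

open Real NumberField Height Module Finset
open Pool.Agent.H489ZP

/-- the maps `x`, `1 - x`, `1 / x` -/
def tr {K : Type} [Field K] (p : Fin 3) (x : K) : K :=
  if p = 0 then x else if p = 1 then 1 - x else x⁻¹

section tr

variable {K : Type} [Field K]

lemma tr_zero (x : K) : tr 0 x = x := rfl

lemma tr_one (x : K) : tr 1 x = 1 - x := rfl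

lemma tr_two (x : K) : tr 2 x = x⁻¹ := rfl

lemma fin3 (p : Fin 3) : p = 0 ∨ p = 1 ∨ p = 2 := by omega

lemma tr_tr (p : Fin 3) (x : K) : tr p (tr p x) = x := by
  rcases fin3 p with rfl | rfl | rfl
  · rfl
  · rw [tr_one, tr_one, sub_sub_cancel]
  · rw [tr_two, tr_two, inv_inv]

lemma tr_ne {x : K} (h0 : x ≠ 0) (h1 : 1 - x ≠ 0) (p : Fin 3) : tr p x ≠ 0 := by
  rcases fin3 p with rfl | rfl | rfl
  · exact h0
  · exact h1
  · exact inv_ne_zero h0

lemma one_sub_inv {x : K} (h0 : x ≠ 0) : 1 - x⁻¹ = -((1 - x) * x⁻¹) := by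
  field_simp
  ring

lemma tr_ne1 {x : K} (h0 : x ≠ 0) (h1 : 1 - x ≠ 0) (p : Fin 3) : 1 - tr p x ≠ 0 := by
  rcases fin3 p with rfl | rfl | rfl
  · exact h1
  · rw [tr_one, sub_sub_cancel]
    exact h0
  · rw [tr_two, one_sub_inv h0]
    exact neg_ne_zero.2 (mul_ne_zero h1 (inv_ne_zero h0))

end tr

variable {I : Type} [Fintype I] [DecidableEq I]

/-- the vectors for the transformed coordinates -/
noncomputable def trx {V : Type} [AddCommGroup V] [Module ℝ V] (p : I → Fin 3) (ξ : I × Bool → V)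
    (r : I × Bool) : V :=
  (1 / 2 : ℝ) • (if p r.1 = 0 then ξ r else if p r.1 = 1 then ξ (r.1, !r.2) else
    if r.2 then ξ (r.1, true) - ξ (r.1, false) else -ξ (r.1, false))

lemma rk_trx {d : ℕ} (p : I → Fin 3) (ξ : I × Bool → Fin d → ℝ) (T : Finset I) :
    rk ξ T ≤ rk (trx p ξ) T := by
  unfold rk
  apply Submodule.finrank_mono
  rw [Submodule.span_le]
  rintro _ ⟨⟨i, b⟩, hr, rfl⟩
  have hi : i ∈ T := mem_ov.1 (Finset.mem_coe.1 hr)
  set W := Submodule.span ℝ (trx p ξ '' (ov T : Set (I × Bool))) with hW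
  have hm : ∀ b, trx p ξ (i, b) ∈ W := fun b =>
    Submodule.subset_span ⟨(i, b), Finset.mem_coe.2 (mem_ov.2 hi), rfl⟩
  show ξ (i, b) ∈ W
  rcases fin3 (p i) with h | h | h
  · have h1 : ξ (i, b) = (2 : ℝ) • trx p ξ (i, b) := by
      simp only [trx, h, if_true]
      rw [smul_smul]
      norm_num
    rw [h1]
    exact W.smul_mem _ (hm b)
  · have h1 : ξ (i, b) = (2 : ℝ) • trx p ξ (i, !b) := by
      have h10 : (1 : Fin 3) ≠ 0 := by decide
      simp only [trx, h, if_neg h10, if_true, Bool.not_not]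
      rw [smul_smul]
      norm_num
    rw [h1]
    exact W.smul_mem _ (hm _)
  · have h20 : (2 : Fin 3) ≠ 0 := by decide
    have h21 : (2 : Fin 3) ≠ 1 := by decide
    have e0 : trx p ξ (i, false) = (1 / 2 : ℝ) • -ξ (i, false) := by
      simp [trx, h]
    have e1 : trx p ξ (i, true) = (1 / 2 : ℝ) • (ξ (i, true) - ξ (i, false)) := by
      simp [trx, h]
    have h0 : ξ (i, false) = (-2 : ℝ) • trx p ξ (i, false) := by
      rw [e0, smul_smul, smul_neg]
      norm_num
    have h1 : ξ (i, true) = (2 : ℝ) • trx p ξ (i, true) + ξ (i, false) := by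
      rw [e1, smul_smul]
      norm_num
    have hm0 : ξ (i, false) ∈ W := by
      rw [h0]
      exact W.smul_mem _ (hm false)
    cases b
    · exact hm0
    · rw [h1]
      exact W.add_mem (W.smul_mem _ (hm true)) hm0

/-- the logarithms for the transformed coordinates -/
lemma tr_log {K : Type} [Field K] {d : ℕ} {u : I → K} (hu0 : ∀ i, u i ≠ 0)
    (hu1 : ∀ i, 1 - u i ≠ 0) (p : I → Fin 3) {ξ : I × Bool → Fin d → ℝ} {H e : ℝ} {t : Fin d → ℝ}
    {f : AbsoluteValue K ℝ} (hHe : 0 ≤ H * e)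
    (h : ∀ r, |log (f (U u r)) - H * ∑ k, ξ r k * t k| ≤ H * e) (r : I × Bool) :
    |log (f (U (fun i => tr (p i) (u i)) r)) - (2 * H) * ∑ k, trx p ξ r k * t k| ≤
      (2 * H) * e := by
  obtain ⟨i, b⟩ := r
  have h0 := h (i, false)
  have h1 := h (i, true)
  rw [U_false] at h0
  rw [U_true] at h1
  rcases fin3 (p i) with hp | hp | hp
  · have e1 : U (fun i => tr (p i) (u i)) (i, b) = U u (i, b) := by
      cases b
      · rw [U_false, U_false, hp, tr_zero]
      · rw [U_true, U_true, hp, tr_zero]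
    have e2 : (2 * H) * ∑ k, trx p ξ (i, b) k * t k = H * ∑ k, ξ (i, b) k * t k := by
      rw [Finset.mul_sum, Finset.mul_sum]
      refine Finset.sum_congr rfl fun k _ => ?_
      simp only [trx, hp, if_true, Pi.smul_apply, smul_eq_mul]
      ring
    rw [e1, e2]
    have := h (i, b)
    linarith
  · have e1 : U (fun i => tr (p i) (u i)) (i, b) = U u (i, !b) := by
      cases b
      · rw [U_false, hp, tr_one]
        rfl
      · rw [U_true, hp, tr_one, sub_sub_cancel]
        rfl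
    have h10 : (1 : Fin 3) ≠ 0 := by decide
    have e2 : (2 * H) * ∑ k, trx p ξ (i, b) k * t k = H * ∑ k, ξ (i, !b) k * t k := by
      rw [Finset.mul_sum, Finset.mul_sum]
      refine Finset.sum_congr rfl fun k _ => ?_
      simp only [trx, hp, if_neg h10, if_true, Pi.smul_apply, smul_eq_mul]
      ring
    rw [e1, e2]
    have := h (i, !b)
    linarith
  · cases b
    · have e1 : log (f (U (fun i => tr (p i) (u i)) (i, false))) = -log (f (u i)) := by
        rw [U_false, hp, tr_two, map_inv₀, Real.log_inv]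
      have e2 : (2 * H) * ∑ k, trx p ξ (i, false) k * t k = -(H * ∑ k, ξ (i, false) k * t k) := by
        rw [Finset.mul_sum, Finset.mul_sum, ← Finset.sum_neg_distrib]
        refine Finset.sum_congr rfl fun k _ => ?_
        have : trx p ξ (i, false) k = -(1 / 2) * ξ (i, false) k := by
          simp [trx, hp]
        rw [this]
        ring
      rw [e1, e2]
      have e3 : -log (f (u i)) - -(H * ∑ k, ξ (i, false) k * t k) =
          -(log (f (u i)) - H * ∑ k, ξ (i, false) k * t k) := by ring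
      rw [e3, abs_neg]
      linarith
    · have e1 : log (f (U (fun i => tr (p i) (u i)) (i, true))) =
          log (f (1 - u i)) - log (f (u i)) := by
        rw [U_true, hp, tr_two, one_sub_inv (hu0 i), f.map_neg, map_mul, map_inv₀,
          Real.log_mul (f.pos (hu1 i)).ne' (inv_ne_zero (f.pos (hu0 i)).ne'), Real.log_inv]
        ring
      have e2 : (2 * H) * ∑ k, trx p ξ (i, true) k * t k =
          (H * ∑ k, ξ (i, true) k * t k) - (H * ∑ k, ξ (i, false) k * t k) := by
        rw [Finset.mul_sum, Finset.mul_sum, Finset.mul_sum, ← Finset.sum_sub_distrib]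
        refine Finset.sum_congr rfl fun k _ => ?_
        have : trx p ξ (i, true) k = (1 / 2) * (ξ (i, true) k - ξ (i, false) k) := by
          simp [trx, hp]
        rw [this]
        ring
      rw [e1, e2]
      have a0 := abs_le.1 h0
      have a1 := abs_le.1 h1
      rw [abs_le]
      constructor <;> linarith

lemma tr_near {K : Type} [Field K] [NumberField K] {d : ℕ} {u : I → K} (hu0 : ∀ i, u i ≠ 0)
    (hu1 : ∀ i, 1 - u i ≠ 0) (p : I → Fin 3) {ξ : I × Bool → Fin d → ℝ} {H : ℝ}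
    {t : AbsoluteValue K ℝ → Fin d → ℝ} {err : AbsoluteValue K ℝ → ℝ} {η : ℝ}
    (h : Near u ξ H t err η) : Near (fun i => tr (p i) (u i)) (trx p ξ) (2 * H) t err η :=
  ⟨fun v r => tr_log hu0 hu1 p ((abs_nonneg _).trans (h.inf v r)) (h.inf v) r,
   fun v r => tr_log hu0 hu1 p ((abs_nonneg _).trans (h.fin v r)) (h.fin v) r, h.tot⟩

lemma tr_height {K : Type} [Field K] [NumberField K] {x : K} {H : ℝ} (hH : 1 ≤ H)
    (h : logHeight₁ x ≤ finrank ℚ K * H) (p : Fin 3) :
    logHeight₁ (tr p x) ≤ finrank ℚ K * (2 * H) := by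
  have hD : (0 : ℝ) ≤ finrank ℚ K := Nat.cast_nonneg _
  have hl1 : Real.log 2 < 1 := by linarith [Real.log_two_lt_d9]
  have hHD : (finrank ℚ K : ℝ) * 1 ≤ finrank ℚ K * H := mul_le_mul_of_nonneg_left hH hD
  rcases fin3 p with rfl | rfl | rfl
  · rw [tr_zero]
    linarith
  · rw [tr_one]
    have h1 := height_one_sub x
    have h2 : (finrank ℚ K : ℝ) * log 2 ≤ finrank ℚ K * 1 := mul_le_mul_of_nonneg_left hl1.le hD
    linarith
  · rw [tr_two, logHeight₁_inv]
    linarith

/-- the factor at a coordinate -/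
noncomputable def tf (N : ℕ) (p : Fin 3) (i : I) (k : ℕ) : MvPolynomial I ℤ :=
  if p = 0 then MvPolynomial.X i ^ k else if p = 1 then (1 - MvPolynomial.X i) ^ k else
    MvPolynomial.X i ^ (N - k)

lemma aeval_tf {K : Type} [Field K] {u : I → K} (N : ℕ) (p : Fin 3) (i : I) (k : ℕ) (hk : k ≤ N)
    (hu : u i ≠ 0) : MvPolynomial.aeval u (tf N p i k) =
      (if p = 2 then u i ^ N else 1) * tr p (u i) ^ k := by
  rcases fin3 p with rfl | rfl | rfl
  · simp [tf, tr]
  · simp [tf, tr]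
  · have h20 : (2 : Fin 3) ≠ 0 := by decide
    have h21 : (2 : Fin 3) ≠ 1 := by decide
    rw [tf, if_neg h20, if_neg h21, map_pow, MvPolynomial.aeval_X, if_pos rfl, tr_two, inv_pow,
      pow_sub₀ _ hu hk]

/-- **Transfer.** -/
theorem transfer (p : I → Fin 3) {F : MvPolynomial I ℤ} (hF : F ≠ 0) :
    ∃ G : MvPolynomial I ℤ, G ≠ 0 ∧ ∀ (K : Type) [Field K] (u : I → K), (∀ i, u i ≠ 0) →
      MvPolynomial.aeval (fun i => tr (p i) (u i)) F = 0 → MvPolynomial.aeval u G = 0 := by
  classical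
  set N := F.totalDegree with hN
  let G : MvPolynomial I ℤ :=
    ∑ α ∈ F.support, MvPolynomial.C (F.coeff α) * ∏ i, tf N (p i) i (α i)
  have hG : ∀ (K : Type) [Field K] (u : I → K), (∀ i, u i ≠ 0) → MvPolynomial.aeval u G =
      (∏ i, if p i = 2 then u i ^ N else 1) * MvPolynomial.aeval (fun i => tr (p i) (u i)) F := by
    intro K _ u hu
    rw [MvPolynomial.aeval_def (fun i => tr (p i) (u i)), MvPolynomial.eval₂_eq', map_sum,
      Finset.mul_sum]
    refine Finset.sum_congr rfl fun α hα => ?_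
    rw [map_mul, map_prod, MvPolynomial.aeval_C]
    rw [Finset.prod_congr rfl fun i _ => aeval_tf (u := u) N (p i) i (α i)
      ((MvPolynomial.monomial_le_degreeOf i hα).trans (MvPolynomial.degreeOf_le_totalDegree _ _))
      (hu i), Finset.prod_mul_distrib]
    ring
  refine ⟨G, ?_, ?_⟩
  · have h1 : F * ∏ i, (MvPolynomial.X i * (1 - MvPolynomial.X i)) ≠ 0 := by
      refine mul_ne_zero hF (Finset.prod_ne_zero_iff.2 fun i _ => mul_ne_zero
        (MvPolynomial.X_ne_zero i) ?_)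
      intro h
      have := congrArg (MvPolynomial.eval fun _ => (0 : ℤ)) h
      simp at this
    obtain ⟨w, hw⟩ : ∃ w : I → ℤ, MvPolynomial.eval w
        (F * ∏ i, (MvPolynomial.X i * (1 - MvPolynomial.X i))) ≠ 0 := by
      by_contra hcon
      push Not at hcon
      exact h1 (MvPolynomial.funext fun w => by rw [hcon w, map_zero])
    rw [map_mul, map_prod] at hw
    have hw1 := left_ne_zero_of_mul hw
    have hw2 := Finset.prod_ne_zero_iff.1 (right_ne_zero_of_mul hw)
    have hw3 : ∀ i, w i ≠ 0 ∧ 1 - w i ≠ 0 := by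
      intro i
      have := hw2 i (Finset.mem_univ i)
      simp only [map_mul, MvPolynomial.eval_X, map_sub, map_one] at this
      exact ⟨left_ne_zero_of_mul this, right_ne_zero_of_mul this⟩
    let w' : I → ℚ := fun i => (w i : ℚ)
    have hw0' : ∀ i, w' i ≠ 0 := fun i => Int.cast_ne_zero.2 (hw3 i).1
    have hw1' : ∀ i, 1 - w' i ≠ 0 := fun i => by
      have h := Int.cast_ne_zero (α := ℚ).2 (hw3 i).2
      rw [Int.cast_sub, Int.cast_one] at h
      exact h
    have hFw : MvPolynomial.aeval w' F ≠ 0 := by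
      have : MvPolynomial.aeval w' F = ((MvPolynomial.eval w F : ℤ) : ℚ) := by
        rw [MvPolynomial.aeval_def, MvPolynomial.eval₂_eq', MvPolynomial.eval_eq']
        push_cast
        rfl
      rw [this]
      exact_mod_cast hw1
    intro hG0
    have h2 := hG ℚ (fun i => tr (p i) (w' i)) (fun i => tr_ne (hw0' i) (hw1' i) _)
    rw [hG0, map_zero] at h2
    simp only [tr_tr] at h2
    rcases mul_eq_zero.1 h2.symm with h3 | h3
    · rw [Finset.prod_eq_zero_iff] at h3
      obtain ⟨i, -, h4⟩ := h3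
      split_ifs at h4 with h5
      · exact pow_ne_zero N (tr_ne (hw0' i) (hw1' i) _) h4
      · exact one_ne_zero h4
    · exact hFw h3
  · intro K _ u hu h
    rw [hG K u hu, h, mul_zero]

/-- **Bad patterns**, arbitrary types. -/
theorem badP (I : Type) [Fintype I] [DecidableEq I] {d : ℕ} (ξ : I × Bool → Fin d → ℝ)
    (Q : Finset I) (p : I → Fin 3) (hp : ∀ i, i ∉ Q → p i = 0)
    (hbad : finrank ℝ (Submodule.span ℝ (trx p ξ '' (R0 Q : Set (I × Bool)))) + 1 ≤
      Fintype.card I)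
    (hT : ∀ T : Finset I, T.Nonempty → T.card + 1 ≤ rk ξ T) {θ m0 : ℝ} (hθ : 0 < θ)
    (hm0 : 0 < m0) :
    ∃ θ1 : ℝ, 0 < θ1 ∧ ∃ G : MvPolynomial I ℤ, G ≠ 0 ∧ ∃ η H0 : ℝ, 0 < η ∧
      ∀ (K : Type) [Field K] [NumberField K] (u : I → K), (∀ i, u i ≠ 0) → (∀ i, 1 - u i ≠ 0) →
      ∀ H : ℝ, H0 ≤ H → ∀ (t : AbsoluteValue K ℝ → Fin d → ℝ) (err : AbsoluteValue K ℝ → ℝ),
      Near u ξ H t err η → (∀ i, logHeight₁ (u i) ≤ finrank ℚ K * H) →
      ∀ S : Finset (K →+* ℂ), m0 * finrank ℚ K ≤ S.card →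
      (∀ σ ∈ S, (∀ i ∈ Q, log ‖σ (tr (p i) (u i))‖ ≤ -(θ * H)) ∧
        ∀ i, i ∉ Q → ∀ b, |log ‖σ (U u (i, b))‖| ≤ θ1 * H) → MvPolynomial.aeval u G = 0 := by
  obtain ⟨θ1, hθ1, F, hF, η, H0, hη, h⟩ := AUX I (trx p ξ) Q hbad
    (fun T hne => (hT T hne).trans (rk_trx p ξ T)) (θ := θ / 2) (m0 := m0) (by linarith) hm0
  obtain ⟨G, hG, hG2⟩ := transfer p hF
  refine ⟨θ1, hθ1, G, hG, η, max 1 H0, hη, ?_⟩
  intro K _ _ u hu0 hu1 H hH0 t err hnear hH S hScard hS
  have hH1 : 1 ≤ H := (le_max_left _ _).trans hH0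
  have hH2 : H0 ≤ H := (le_max_right _ _).trans hH0
  apply hG2 K u hu0
  apply h K (fun i => tr (p i) (u i)) (fun i => tr_ne (hu0 i) (hu1 i) _)
    (fun i => tr_ne1 (hu0 i) (hu1 i) _) (2 * H) (by linarith) t err (tr_near hu0 hu1 p hnear)
    (fun i => tr_height hH1 (hH i) _) S hScard
  intro σ hσ
  obtain ⟨h1, h2⟩ := hS σ hσ
  refine ⟨fun i hi => ?_, fun i hi b => ?_⟩
  · have := h1 i hi
    linarith
  · have h3 : U (fun i => tr (p i) (u i)) (i, b) = U u (i, b) := by
      cases b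
      · rw [U_false, U_false, hp i hi, tr_zero]
      · rw [U_true, U_true, hp i hi, tr_zero]
    rw [h3]
    have := h2 i hi b
    have h4 : 0 ≤ θ1 * H := by positivity
    linarith

end Pool.Agent.H883.ZQ
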